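import Mathlib

set_option autoImplicit false

open Metric Complex MeasureTheory Set

namespace Pool.Agent.Helper509.Polar

open Real in
theorem polarCoord_symm_eq (p : ℝ × ℝ) :
    Complex.polarCoord.symm p = circleMap 0 p.1 p.2 := by
  rw [Complex.polarCoord_symm_apply, circleMap, zero_add, Complex.exp_mul_I]
  push_cast
  ring

/-- lower Lebesgue integral over a ball in polar coordinates -/
theorem lintegral_ball (f : ℂ → ENNReal) (a : ℂ) (s : ℝ) :
    ∫⁻ z in ball a s, f z = ∫⁻ p in (Ioo 0 s) ×ˢ (Ioo (-Real.pi) Real.pi),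
      ENNReal.ofReal p.1 * f (circleMap a p.1 p.2) := by
  have h1 : ∫⁻ z in ball a s, f z = ∫⁻ z, (ball (0 : ℂ) s).indicator (fun z => f (z + a)) z := by
    rw [← lintegral_indicator measurableSet_ball, ← lintegral_add_right_eq_self _ a]
    congr 1
    ext z
    by_cases hz : z ∈ ball (0 : ℂ) s
    · rw [indicator_of_mem hz, indicator_of_mem]
      simpa [dist_eq_norm] using hz
    · rw [indicator_of_notMem hz, indicator_of_notMem]
      simpa [dist_eq_norm] using hz
  rw [h1, ← Complex.lintegral_comp_polarCoord_symm]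
  have hmeas : MeasurableSet (Ioo (0 : ℝ) s ×ˢ Ioo (-Real.pi) Real.pi) :=
    measurableSet_Ioo.prod measurableSet_Ioo
  have hmeas2 : MeasurableSet polarCoord.target := polarCoord.open_target.measurableSet
  rw [← lintegral_indicator hmeas, ← lintegral_indicator hmeas2]
  congr 1
  ext p
  obtain ⟨r, θ⟩ := p
  by_cases hp : (r, θ) ∈ polarCoord.target
  · rw [indicator_of_mem hp]
    have hp' : 0 < r ∧ -Real.pi < θ ∧ θ < Real.pi := by
      simpa [polarCoord] using hp
    by_cases hr : r < s
    · rw [indicator_of_mem (by exact ⟨⟨hp'.1, hr⟩, hp'.2⟩ : (r, θ) ∈ Ioo (0 : ℝ) s ×ˢ Ioo (-Real.pi) Real.pi)]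
      rw [indicator_of_mem]
      · rw [polarCoord_symm_eq, smul_eq_mul,
          show circleMap 0 r θ + a = circleMap a r θ by simp [circleMap, add_comm]]
      · rw [polarCoord_symm_eq, mem_ball_zero_iff, norm_circleMap_zero, abs_of_pos hp'.1]
        exact hr
    · rw [indicator_of_notMem (s := Ioo (0 : ℝ) s ×ˢ Ioo (-Real.pi) Real.pi)
        (by intro hmem; exact hr hmem.1.2)]
      rw [indicator_of_notMem, smul_zero]
      rw [polarCoord_symm_eq, mem_ball_zero_iff, norm_circleMap_zero, abs_of_pos hp'.1]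
      exact hr
  · rw [indicator_of_notMem hp]
    rw [indicator_of_notMem]
    intro hmem
    apply hp
    exact ⟨hmem.1.1, hmem.2⟩

/-- integral over a ball in polar coordinates -/
theorem integral_ball_prod (f : ℂ → ℂ) (a : ℂ) (s : ℝ) :
    ∫ z in ball a s, f z = ∫ p in (Ioo 0 s) ×ˢ (Ioo (-Real.pi) Real.pi),
      (p.1 : ℝ) • f (circleMap a p.1 p.2) := by
  have h1 : ∫ z in ball a s, f z = ∫ z, (ball (0 : ℂ) s).indicator (fun z => f (z + a)) z := by
    rw [← integral_indicator measurableSet_ball, ← integral_add_right_eq_self _ a]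
    congr 1
    ext z
    by_cases hz : z ∈ ball (0 : ℂ) s
    · rw [indicator_of_mem hz, indicator_of_mem]
      simpa [dist_eq_norm] using hz
    · rw [indicator_of_notMem hz, indicator_of_notMem]
      simpa [dist_eq_norm] using hz
  rw [h1, ← Complex.integral_comp_polarCoord_symm]
  have hmeas : MeasurableSet (Ioo (0 : ℝ) s ×ˢ Ioo (-Real.pi) Real.pi) :=
    measurableSet_Ioo.prod measurableSet_Ioo
  have hmeas2 : MeasurableSet polarCoord.target := polarCoord.open_target.measurableSet
  rw [← integral_indicator hmeas, ← integral_indicator hmeas2]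
  congr 1
  ext p
  obtain ⟨r, θ⟩ := p
  by_cases hp : (r, θ) ∈ polarCoord.target
  · rw [indicator_of_mem hp]
    have hp' : 0 < r ∧ -Real.pi < θ ∧ θ < Real.pi := by
      simpa [polarCoord] using hp
    by_cases hr : r < s
    · rw [indicator_of_mem (by exact ⟨⟨hp'.1, hr⟩, hp'.2⟩ : (r, θ) ∈ Ioo (0 : ℝ) s ×ˢ Ioo (-Real.pi) Real.pi)]
      rw [indicator_of_mem]
      · rw [polarCoord_symm_eq,
          show circleMap 0 r θ + a = circleMap a r θ by simp [circleMap, add_comm]]
      · rw [polarCoord_symm_eq, mem_ball_zero_iff, norm_circleMap_zero, abs_of_pos hp'.1]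
        exact hr
    · rw [indicator_of_notMem (s := Ioo (0 : ℝ) s ×ˢ Ioo (-Real.pi) Real.pi)
        (by intro hmem; exact hr hmem.1.2)]
      rw [indicator_of_notMem, smul_zero]
      rw [polarCoord_symm_eq, mem_ball_zero_iff, norm_circleMap_zero, abs_of_pos hp'.1]
      exact hr
  · rw [indicator_of_notMem hp]
    rw [indicator_of_notMem]
    intro hmem
    apply hp
    exact ⟨hmem.1.1, hmem.2⟩

/-- integral over a ball as an integral of circle averages -/
theorem integral_ball (f : ℂ → ℂ) (hfm : Measurable f) (a : ℂ) (s : ℝ)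
    (hf : IntegrableOn f (ball a s)) :
    ∫ z in ball a s, f z = ∫ r in Ioo 0 s, (r : ℝ) • ((2 * Real.pi) • Real.circleAverage f a r) := by
  have hmeasF : Measurable (fun p : ℝ × ℝ => (p.1 : ℝ) • f (circleMap a p.1 p.2)) := by
    apply measurable_fst.smul
    apply hfm.comp
    have : Continuous (fun p : ℝ × ℝ => circleMap a p.1 p.2) := by
      unfold circleMap; fun_prop
    exact this.measurable
  have hint : IntegrableOn (fun p : ℝ × ℝ => (p.1 : ℝ) • f (circleMap a p.1 p.2))
      ((Ioo 0 s) ×ˢ (Ioo (-Real.pi) Real.pi)) := by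
    refine ⟨hmeasF.aestronglyMeasurable, ?_⟩
    have h2 := hf.2
    rw [hasFiniteIntegral_iff_enorm] at h2 ⊢
    rw [lintegral_ball] at h2
    refine lt_of_le_of_lt ?_ h2
    apply setLIntegral_mono' (measurableSet_Ioo.prod measurableSet_Ioo)
    intro p hp
    rw [enorm_smul]
    gcongr
    rw [Real.enorm_of_nonneg hp.1.1.le]
  rw [integral_ball_prod]
  rw [Measure.volume_eq_prod, setIntegral_prod _ hint]
  apply setIntegral_congr_fun measurableSet_Ioo
  intro r hr
  simp only
  rw [integral_smul]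
  congr 1
  rw [Real.circleAverage_def, smul_smul, mul_inv_cancel₀ (by positivity), one_smul]
  rw [← integral_Ioc_eq_integral_Ioo, ← intervalIntegral.integral_of_le (by linarith [Real.pi_pos])]
  have hper : (fun θ ↦ f (circleMap a r θ)).Periodic (2 * Real.pi) :=
    fun x ↦ by simp [periodic_circleMap a r x]
  have := hper.intervalIntegral_add_eq (-Real.pi) 0
  rw [zero_add] at this
  rw [← this]
  congr 1
  ring

/-- `∫_{B(ρ,η)} 1/|z-ρ| = 2πη` -/
theorem lintegral_inv_ball (ρ : ℂ) {η : ℝ} (hη : 0 ≤ η) :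
    ∫⁻ z in ball ρ η, ‖(z - ρ)⁻¹‖ₑ = ENNReal.ofReal (2 * Real.pi * η) := by
  rw [lintegral_ball]
  have : ∫⁻ p in (Ioo 0 η) ×ˢ (Ioo (-Real.pi) Real.pi),
      ENNReal.ofReal p.1 * ‖(circleMap ρ p.1 p.2 - ρ)⁻¹‖ₑ =
      ∫⁻ p in (Ioo 0 η) ×ˢ (Ioo (-Real.pi) Real.pi), 1 := by
    apply setLIntegral_congr_fun (measurableSet_Ioo.prod measurableSet_Ioo)
    intro p hp
    have hp1 : 0 < p.1 := hp.1.1
    simp only
    rw [circleMap_sub_center, ← ofReal_norm, norm_inv, norm_circleMap_zero, abs_of_pos hp1,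
      ← ENNReal.ofReal_mul hp1.le, mul_inv_cancel₀ hp1.ne', ENNReal.ofReal_one]
  rw [this, setLIntegral_one, Measure.volume_eq_prod, Measure.prod_prod, Real.volume_Ioo, Real.volume_Ioo,
    ← ENNReal.ofReal_mul (by linarith)]
  congr 1
  ring

/-- uniform smallness of the Cauchy kernel on small sets -/
theorem lintegral_inv_le (ρ : ℂ) (E : Set ℂ) (hE : MeasurableSet E) {η : ℝ} (hη : 0 < η) :
    ∫⁻ z in E, ‖(z - ρ)⁻¹‖ₑ ≤ ENNReal.ofReal (2 * Real.pi * η) + volume E * ENNReal.ofReal η⁻¹ := by
  have h1 : ∫⁻ z in E, ‖(z - ρ)⁻¹‖ₑ ≤ ∫⁻ z in (ball ρ η) ∪ (E \ ball ρ η), ‖(z - ρ)⁻¹‖ₑ := by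
    apply lintegral_mono_set
    intro z hz
    by_cases h : z ∈ ball ρ η
    · exact Or.inl h
    · exact Or.inr ⟨hz, h⟩
  refine h1.trans ((lintegral_union_le _ _ _).trans ?_)
  rw [lintegral_inv_ball ρ hη.le]
  gcongr
  calc ∫⁻ z in E \ ball ρ η, ‖(z - ρ)⁻¹‖ₑ ≤ ∫⁻ z in E \ ball ρ η, ENNReal.ofReal η⁻¹ := by
        apply setLIntegral_mono' (hE.diff measurableSet_ball)
        intro z hz
        have h2 : η ≤ ‖z - ρ‖ := by
          have := hz.2
          rw [mem_ball, dist_eq_norm] at this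
          linarith
        rw [← ofReal_norm, norm_inv]
        apply ENNReal.ofReal_le_ofReal
        exact inv_anti₀ hη h2
    _ = ENNReal.ofReal η⁻¹ * volume (E \ ball ρ η) := by rw [setLIntegral_const]
    _ ≤ ENNReal.ofReal η⁻¹ * volume E := by gcongr; exact sdiff_subset
    _ = volume E * ENNReal.ofReal η⁻¹ := mul_comm _ _

theorem integrableOn_inv (ρ a : ℂ) (s : ℝ) : IntegrableOn (fun z : ℂ => (z - ρ)⁻¹) (ball a s) := by
  refine ⟨?_, ?_⟩
  · exact (measurable_id.sub_const ρ).inv.aestronglyMeasurable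
  · rw [hasFiniteIntegral_iff_enorm]
    refine lt_of_le_of_lt (lintegral_inv_le ρ _ measurableSet_ball (η := 1) one_pos) ?_
    have : volume (ball a s) < ⊤ := measure_ball_lt_top
    exact ENNReal.add_lt_top.mpr ⟨ENNReal.ofReal_lt_top, ENNReal.mul_lt_top this ENNReal.ofReal_lt_top⟩

theorem circleAverage_kernel_inside (a ρ : ℂ) {r : ℝ} (hr : ‖ρ - a‖ < r) :
    Real.circleAverage (fun z => (z - a) * (z - ρ)⁻¹) a r = 1 := by
  have hr0 : 0 < r := lt_of_le_of_lt (norm_nonneg _) hr
  rw [Real.circleAverage_eq_circleIntegral hr0.ne']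
  have : ∮ z in C(a, r), (z - a)⁻¹ • ((z - a) * (z - ρ)⁻¹) = ∮ z in C(a, r), (z - ρ)⁻¹ := by
    apply circleIntegral.integral_congr hr0.le
    intro z hz
    have hz' : z - a ≠ 0 := by
      intro h
      have : ‖z - a‖ = r := by simpa [dist_eq_norm] using hz
      rw [h, norm_zero] at this
      linarith
    simp only [smul_eq_mul]
    field_simp
  rw [this, circleIntegral.integral_sub_inv_of_mem_ball (by simpa [dist_eq_norm] using hr), smul_eq_mul]
  have hpi : (Real.pi : ℂ) ≠ 0 := Complex.ofReal_ne_zero.mpr Real.pi_ne_zero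
  field_simp

theorem circleAverage_kernel_outside (a ρ : ℂ) {r : ℝ} (hr0 : 0 < r) (hr : r < ‖ρ - a‖) :
    Real.circleAverage (fun z => (z - a) * (z - ρ)⁻¹) a r = 0 := by
  have hd : DiffContOnCl ℂ (fun z => (z - a) * (z - ρ)⁻¹) (ball a |r|) := by
    rw [abs_of_pos hr0]
    apply DifferentiableOn.diffContOnCl_ball (U := closedBall a r) _ subset_rfl
    intro z hz
    have hz' : z - ρ ≠ 0 := by
      intro h
      have h1 : z = ρ := sub_eq_zero.mp h
      rw [h1, mem_closedBall, dist_eq_norm] at hz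
      linarith
    apply DifferentiableAt.differentiableWithinAt
    exact (differentiableAt_id.sub_const a).mul ((differentiableAt_id.sub_const ρ).inv hz')
  rw [hd.circleAverage]
  simp

/-- the area integral of the Cauchy kernel against `z - a` over a disc centred at `a` -/
theorem integral_kernel (a ρ : ℂ) {s : ℝ} (hs : 0 < s) :
    ∫ z in ball a s, (z - a) * (z - ρ)⁻¹ = ((Real.pi * max (s ^ 2 - ‖ρ - a‖ ^ 2) 0 : ℝ) : ℂ) := by
  have hmeas : Measurable (fun z : ℂ => (z - a) * (z - ρ)⁻¹) :=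
    (measurable_id.sub_const a).mul (measurable_id.sub_const ρ).inv
  have hint : IntegrableOn (fun z : ℂ => (z - a) * (z - ρ)⁻¹) (ball a s) := by
    apply Integrable.bdd_mul (c := s) (integrableOn_inv ρ a s)
    · exact (measurable_id.sub_const a).aestronglyMeasurable
    · rw [ae_restrict_iff' measurableSet_ball]
      filter_upwards with z hz
      rw [mem_ball, dist_eq_norm] at hz
      exact hz.le
  rw [integral_ball _ hmeas a s hint]
  set d := ‖ρ - a‖ with hd
  have hd0 : 0 ≤ d := norm_nonneg _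
  have h1 : ∫ r in Ioo 0 s, (r : ℝ) • ((2 * Real.pi) • Real.circleAverage (fun z => (z - a) * (z - ρ)⁻¹) a r) =
      ∫ r in Ioo 0 s, ((Ioo d s).indicator (fun r => 2 * Real.pi * r) r : ℂ) := by
    apply setIntegral_congr_ae measurableSet_Ioo
    have : ∀ᵐ r : ℝ, r ≠ d := by
      rw [ae_iff]; simp
    filter_upwards [this] with r hr hrs
    rcases lt_or_gt_of_ne hr with h | h
    · rw [circleAverage_kernel_outside a ρ hrs.1 h, indicator_of_notMem]
      · simp
      · intro hmem; exact absurd hmem.1 (not_lt.mpr h.le)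
    · rw [circleAverage_kernel_inside a ρ h, indicator_of_mem (show r ∈ Ioo d s from ⟨h, hrs.2⟩)]
      simp
      ring
  rw [h1, setIntegral_indicator measurableSet_Ioo]
  have h2 : Ioo 0 s ∩ Ioo d s = Ioo d s := by
    rw [inter_eq_right]
    exact Ioo_subset_Ioo_left hd0
  rw [h2]
  have h3 : ∫ r in Ioo d s, (2 * Real.pi * r : ℂ) = ((∫ r in Ioo d s, (2 * Real.pi * r : ℝ) : ℝ) : ℂ) := by
    rw [← integral_complex_ofReal]
    congr 1
    ext r
    push_cast
    rfl
  rw [h3]
  congr 1
  by_cases hds : d ≤ s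
  · rw [← integral_Ioc_eq_integral_Ioo, ← intervalIntegral.integral_of_le hds,
      intervalIntegral.integral_const_mul, integral_id, max_eq_left (by nlinarith)]
    ring
  · push Not at hds
    rw [Ioo_eq_empty (by linarith), Measure.restrict_empty, integral_zero_measure,
      max_eq_right (by nlinarith), mul_zero]

/-- analytic functions integrate to zero against `z - a` -/
theorem integral_analytic (A : ℂ → ℂ) (hAm : Measurable A) (a : ℂ) {s : ℝ}
    (hA : DifferentiableOn ℂ A (closedBall a s))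
    (hint : IntegrableOn (fun z => (z - a) * A z) (ball a s)) :
    ∫ z in ball a s, (z - a) * A z = 0 := by
  rw [integral_ball (fun z => (z - a) * A z) ((measurable_id.sub_const a).mul hAm) a s hint]
  rw [← integral_zero ℝ ℂ (μ := volume.restrict (Ioo 0 s))]
  apply setIntegral_congr_fun measurableSet_Ioo
  intro r hr
  simp only
  have hd : DiffContOnCl ℂ (fun z => (z - a) * A z) (ball a |r|) := by
    rw [abs_of_pos hr.1]
    apply DifferentiableOn.diffContOnCl_ball (U := closedBall a s) _ (closedBall_subset_closedBall hr.2.le)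
    exact (differentiableOn_id.sub_const a).mul hA
  rw [hd.circleAverage]
  simp

end Pool.Agent.Helper509.Polar
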