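import Mathlib

set_option autoImplicit false

namespace Pool.Agent.Helper509.AffineFixed

variable {p : ℕ} [Fact p.Prime]

/-- approximate a p-adic integer by a natural number below `p ^ l` -/
theorem exists_nat_approx (l : ℕ) (a : ℚ_[p]) (ha : ‖a‖ ≤ 1) :
    ∃ i : ℕ, ‖a - (i : ℚ_[p])‖ ≤ (p : ℝ) ^ (-(l : ℤ)) := by
  set a' : ℤ_[p] := ⟨a, ha⟩ with ha'
  refine ⟨(PadicInt.toZModPow l a').val, ?_⟩
  have h1 : PadicInt.toZModPow l (a' - (((PadicInt.toZModPow l a').val : ℕ) : ℤ_[p])) = 0 := by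
    rw [map_sub, map_natCast, ZMod.natCast_zmod_val, sub_self]
  have h2 : (a' - (((PadicInt.toZModPow l a').val : ℕ) : ℤ_[p])) ∈
      RingHom.ker (PadicInt.toZModPow (p := p) l) := h1
  rw [PadicInt.ker_toZModPow, ← PadicInt.norm_le_pow_iff_mem_span_pow] at h2
  have h3 : ‖(((a' - (((PadicInt.toZModPow l a').val : ℕ) : ℤ_[p])) : ℤ_[p]) : ℚ_[p])‖ ≤
      (p : ℝ) ^ (-(l : ℤ)) := h2
  rw [PadicInt.coe_sub, PadicInt.coe_natCast] at h3
  exact h3

theorem cast_eq_of_norm (l : ℕ) (a b : ℤ_[p]) (h : ‖(a : ℚ_[p]) - (b : ℚ_[p])‖ ≤ (p : ℝ) ^ (-(l : ℤ))) :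
    PadicInt.toZModPow l a = PadicInt.toZModPow l b := by
  have h1 : ‖a - b‖ ≤ (p : ℝ) ^ (-(l : ℤ)) := by
    have : ‖((a - b : ℤ_[p]) : ℚ_[p])‖ ≤ (p : ℝ) ^ (-(l : ℤ)) := by
      simpa using h
    exact this
  rw [PadicInt.norm_le_pow_iff_mem_span_pow, ← PadicInt.ker_toZModPow] at h1
  have h2 : PadicInt.toZModPow l (a - b) = 0 := h1
  rw [map_sub, sub_eq_zero] at h2
  exact h2

theorem norm_of_cast_eq (l : ℕ) (a b : ℤ_[p]) (h : PadicInt.toZModPow l a = PadicInt.toZModPow l b) :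
    ‖(a : ℚ_[p]) - (b : ℚ_[p])‖ ≤ (p : ℝ) ^ (-(l : ℤ)) := by
  have h2 : PadicInt.toZModPow l (a - b) = 0 := by rw [map_sub, h, sub_self]
  have h3 : (a - b) ∈ RingHom.ker (PadicInt.toZModPow (p := p) l) := h2
  rw [PadicInt.ker_toZModPow, ← PadicInt.norm_le_pow_iff_mem_span_pow] at h3
  have h4 : ‖((a - b : ℤ_[p]) : ℚ_[p])‖ ≤ (p : ℝ) ^ (-(l : ℤ)) := h3
  simpa using h4

variable {V : Type} [AddCommGroup V] [Module ℂ V]

/-- Eigenvector extraction: if `g ^ q v = v`, `q = p ^ (l + 1)`, but `g ^ (p ^ l) v ≠ v`, then some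
averaged vector is a nonzero eigenvector with eigenvalue a primitive `q`-th root of unity. -/
theorem exists_primitive_eigen (l : ℕ) (g : V →ₗ[ℂ] V) (v : V)
    (h1 : (g ^ (p ^ (l + 1))) v = v) (h2 : (g ^ (p ^ l)) v ≠ v) :
    ∃ (ξ : ℂ) (c : ℕ → ℂ), IsPrimitiveRoot ξ (p ^ (l + 1)) ∧
      (∑ i ∈ Finset.range (p ^ (l + 1)), c i • (g ^ i) v) ≠ 0 ∧
      g (∑ i ∈ Finset.range (p ^ (l + 1)), c i • (g ^ i) v) =
        ξ • (∑ i ∈ Finset.range (p ^ (l + 1)), c i • (g ^ i) v) := by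
  have hp : p.Prime := Fact.out
  set q := p ^ (l + 1) with hq
  have hq0 : q ≠ 0 := pow_ne_zero _ hp.ne_zero
  obtain ⟨ζ, hζ⟩ : ∃ ζ : ℂ, IsPrimitiveRoot ζ q := ⟨_, Complex.isPrimitiveRoot_exp q hq0⟩
  have hζ0 : ζ ≠ 0 := hζ.ne_zero hq0
  set w : ℕ → V := fun j => ∑ i ∈ Finset.range q, ((ζ⁻¹) ^ (j * i)) • (g ^ i) v with hw
  have hζq : ∀ j : ℕ, (ζ⁻¹) ^ (j * q) = 1 := by
    intro j
    rw [mul_comm, pow_mul, inv_pow, hζ.pow_eq_one, inv_one, one_pow]
  -- eigenvector property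
  have hgw : ∀ j, g (w j) = (ζ ^ j) • w j := by
    intro j
    have e1 : g (w j) = ∑ i ∈ Finset.range q, ((ζ⁻¹) ^ (j * i)) • (g ^ (i + 1)) v := by
      simp only [hw, map_sum, map_smul]
      refine Finset.sum_congr rfl fun i _ => ?_
      rw [pow_succ' g i]
      rfl
    have e2 : ∑ i ∈ Finset.range q, ((ζ⁻¹) ^ (j * i)) • (g ^ (i + 1)) v =
        (ζ ^ j) • ∑ i ∈ Finset.range q, ((ζ⁻¹) ^ (j * (i + 1))) • (g ^ (i + 1)) v := by
      rw [Finset.smul_sum]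
      refine Finset.sum_congr rfl fun i _ => ?_
      rw [smul_smul]
      congr 1
      rw [mul_add, mul_one, pow_add, mul_comm ((ζ⁻¹) ^ (j * i)), ← mul_assoc, ← mul_pow,
        mul_inv_cancel₀ hζ0, one_pow, one_mul]
    have e3 : ∑ i ∈ Finset.range q, ((ζ⁻¹) ^ (j * (i + 1))) • (g ^ (i + 1)) v = w j := by
      have s1 := Finset.sum_range_succ (fun i => ((ζ⁻¹) ^ (j * i)) • (g ^ i) v) q
      have s2 := Finset.sum_range_succ' (fun i => ((ζ⁻¹) ^ (j * i)) • (g ^ i) v) q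
      rw [s1] at s2
      simp only [hζq, h1, mul_zero, pow_zero, one_smul, Module.End.one_apply] at s2
      have := add_right_cancel s2
      rw [hw]
      exact this.symm
    rw [e1, e2, e3]
  -- sum of all w j
  have hsum : ∑ j ∈ Finset.range q, w j = (q : ℂ) • v := by
    simp only [hw]
    rw [Finset.sum_comm]
    rw [Finset.sum_eq_single 0]
    · simp [Nat.cast_smul_eq_nsmul]
    · intro i hi hi0
      rw [← Finset.sum_smul]
      have : ∑ j ∈ Finset.range q, (ζ⁻¹) ^ (j * i) = 0 := by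
        have hne : (ζ⁻¹) ^ i ≠ 1 := by
          rw [inv_pow]
          intro hcon
          rw [inv_eq_one] at hcon
          exact hζ.pow_ne_one_of_pos_of_lt hi0 (Finset.mem_range.mp hi) hcon
        have hgs := geom_sum_eq hne q
        have : ∀ j, (ζ⁻¹) ^ (j * i) = ((ζ⁻¹) ^ i) ^ j := by
          intro j; rw [← pow_mul, mul_comm]
        simp only [this]
        rw [hgs, ← pow_mul]
        rw [hζq i]
        simp
      rw [this, zero_smul]
    · intro h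
      exact absurd (Finset.mem_range.mpr (Nat.pos_of_ne_zero hq0)) h
  -- find j coprime with w j ≠ 0
  have hex : ∃ j : ℕ, j.Coprime q ∧ w j ≠ 0 := by
    by_contra hcon
    push Not at hcon
    apply h2
    have hfix : ∀ j ∈ Finset.range q, (g ^ (p ^ l)) (w j) = w j := by
      intro j _
      by_cases hj : j.Coprime q
      · rw [hcon j hj, map_zero]
      · have hpj : p ∣ j := by
          by_contra hnd
          apply hj
          rw [hq]
          exact Nat.Coprime.pow_right _ ((Nat.Prime.coprime_iff_not_dvd hp).mpr hnd).symm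
        obtain ⟨j', rfl⟩ := hpj
        have hpow : ∀ n : ℕ, (g ^ n) (w (p * j')) = (ζ ^ (p * j')) ^ n • w (p * j') := by
          intro n
          induction n with
          | zero => simp
          | succ n ih =>
            rw [pow_succ' g n, Module.End.mul_apply, ih, map_smul, hgw, smul_smul, pow_succ]
        rw [hpow, ← pow_mul]
        have : p * j' * p ^ l = q * j' := by rw [hq, pow_succ]; ring
        rw [this, pow_mul, hζ.pow_eq_one, one_pow, one_smul]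
    have h3 : (g ^ (p ^ l)) (∑ j ∈ Finset.range q, w j) = ∑ j ∈ Finset.range q, w j := by
      rw [map_sum]
      exact Finset.sum_congr rfl hfix
    rw [hsum, map_smul] at h3
    have hqc : (q : ℂ) ≠ 0 := Nat.cast_ne_zero.mpr hq0
    exact smul_right_injective V hqc h3
  obtain ⟨j, hj, hwj⟩ := hex
  exact ⟨ζ ^ j, fun i => (ζ⁻¹) ^ (j * i), hζ.pow_of_coprime j hj, hwj, hgw j⟩

theorem norm_unit_approx (l : ℕ) (hl : 1 ≤ l) (a : ℚ_[p]) (i : ℕ) (ha : ‖a‖ = 1)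
    (h : ‖a - (i : ℚ_[p])‖ ≤ (p : ℝ) ^ (-(l : ℤ))) : ‖(i : ℚ_[p])‖ = 1 := by
  have hp : p.Prime := Fact.out
  have h1 : ‖a - (i : ℚ_[p])‖ < 1 := by
    refine lt_of_le_of_lt h ?_
    rw [zpow_neg, zpow_natCast]
    apply inv_lt_one_of_one_lt₀
    exact one_lt_pow₀ (by exact_mod_cast hp.one_lt) (by omega)
  have h2 : (i : ℚ_[p]) = a + (-(a - (i : ℚ_[p]))) := by ring
  have h3 : ‖-(a - (i : ℚ_[p]))‖ < 1 := by rwa [norm_neg]
  rw [h2, Padic.add_eq_max_of_ne (by rw [ha]; exact h3.ne'), ha]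
  exact max_eq_left h3.le

/-- The key lemma: a smooth representation of the group `Q_p ⋊ Z_p^×` on which `Q_p` acts
nontrivially has a nonzero vector fixed by `Z_p^×`. -/
theorem exists_fixed
    (N D : ℚ_[p] → (V →ₗ[ℂ] V))
    (hN0 : N 0 = LinearMap.id)
    (hNadd : ∀ x y, N (x + y) = N x ∘ₗ N y)
    (hD1 : D 1 = LinearMap.id)
    (hDmul : ∀ a b, ‖a‖ = 1 → ‖b‖ = 1 → D (a * b) = D a ∘ₗ D b)
    (hcomm : ∀ a x, ‖a‖ = 1 → N x ∘ₗ D a = D a ∘ₗ N (a * x))
    (hNs : ∀ v, ∃ k : ℕ, ∀ x, ‖x‖ ≤ (p : ℝ) ^ (-(k : ℤ)) → N x v = v)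
    (hDs : ∀ v, ∃ k : ℕ, ∀ a, ‖a - 1‖ ≤ (p : ℝ) ^ (-(k : ℤ)) → ‖a‖ = 1 → D a v = v)
    (x0 : ℚ_[p]) (v0 : V) (h : N x0 v0 ≠ v0) :
    ∃ u : V, u ≠ 0 ∧ ∀ a, ‖a‖ = 1 → D a u = u := by
  have hp : p.Prime := Fact.out
  have hp0 : (p : ℚ_[p]) ≠ 0 := Nat.cast_ne_zero.mpr hp.ne_zero
  have hpR : (1 : ℝ) < p := by exact_mod_cast hp.one_lt
  -- level of `v0` under `D`
  obtain ⟨l, hl⟩ : ∃ l : ℕ, ∀ a, ‖a - 1‖ ≤ (p : ℝ) ^ (-((l + 1 : ℕ) : ℤ)) → ‖a‖ = 1 → D a v0 = v0 := by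
    obtain ⟨k, hk⟩ := hDs v0
    refine ⟨k, fun a h1 h2 => hk a (h1.trans ?_) h2⟩
    exact zpow_le_zpow_right₀ hpR.le (by push_cast; omega)
  -- conductor
  obtain ⟨c, hc, hcmin⟩ : ∃ c : ℤ, (∀ x, ‖x‖ ≤ (p : ℝ) ^ (-c) → N x v0 = v0) ∧
      ∀ z : ℤ, (∀ x, ‖x‖ ≤ (p : ℝ) ^ (-z) → N x v0 = v0) → c ≤ z := by
    apply Int.exists_least_of_bdd
    · by_cases hx0 : x0 = 0
      · subst hx0; rw [hN0] at h; exact absurd rfl h
      · refine ⟨x0.valuation + 1, fun z hz => ?_⟩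
        by_contra hlt
        push Not at hlt
        apply h
        apply hz
        rw [Padic.norm_eq_zpow_neg_valuation hx0]
        exact zpow_le_zpow_right₀ hpR.le (by omega)
    · obtain ⟨k, hk⟩ := hNs v0
      exact ⟨k, hk⟩
  obtain ⟨x1, hx1, hx1v⟩ : ∃ x1, ‖x1‖ ≤ (p : ℝ) ^ (-(c - 1)) ∧ N x1 v0 ≠ v0 := by
    by_contra hcon
    push Not at hcon
    have := hcmin (c - 1) hcon
    omega
  set q := p ^ (l + 1) with hq
  have hq0 : q ≠ 0 := pow_ne_zero _ hp.ne_zero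
  set y : ℚ_[p] := (p : ℚ_[p]) ^ (c - (l + 1 : ℕ)) with hy
  have hy0 : y ≠ 0 := zpow_ne_zero _ hp0
  have hynorm : ‖y‖ = (p : ℝ) ^ (-(c - (l + 1 : ℕ))) := by rw [hy, Padic.norm_p_zpow]
  set g : V →ₗ[ℂ] V := N y with hg
  have hgpow : ∀ i : ℕ, g ^ i = N ((i : ℚ_[p]) * y) := by
    intro i
    induction i with
    | zero => simp [hN0]; rfl
    | succ i ih =>
      rw [pow_succ, ih]
      have : (((i + 1 : ℕ) : ℚ_[p])) * y = (i : ℚ_[p]) * y + y := by push_cast; ring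
      rw [this, hNadd]
      rfl
  -- a general approximation
  have happrox : ∀ x : ℚ_[p], ∀ i : ℕ, ∀ w : V, (∀ z, ‖z‖ ≤ (p : ℝ) ^ (-c) → N z w = w) →
      ‖x / y - (i : ℚ_[p])‖ ≤ (p : ℝ) ^ (-((l + 1 : ℕ) : ℤ)) → N x w = (g ^ i) w := by
    intro x i w hw hxi
    have e : x = (i : ℚ_[p]) * y + (x / y - (i : ℚ_[p])) * y := by
      field_simp
      ring
    rw [e, hNadd, ← hgpow, LinearMap.comp_apply, hw]
    rw [norm_mul, hynorm]
    calc ‖x / y - (i : ℚ_[p])‖ * (p : ℝ) ^ (-(c - (l + 1 : ℕ)))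
        ≤ (p : ℝ) ^ (-((l + 1 : ℕ) : ℤ)) * (p : ℝ) ^ (-(c - (l + 1 : ℕ))) :=
          mul_le_mul_of_nonneg_right hxi (zpow_nonneg (by positivity) _)
      _ = (p : ℝ) ^ (-c) := by
          rw [← zpow_add₀ (by positivity)]
          congr 1
          ring
  have hgq : (g ^ q) v0 = v0 := by
    rw [hgpow]
    apply hc
    rw [norm_mul, hynorm, hq, Nat.cast_pow, norm_pow, Padic.norm_p, ← zpow_natCast, inv_zpow', ← zpow_add₀ (by positivity)]
    apply le_of_eq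
    congr 1
    ring
  have hgl : (g ^ (p ^ l)) v0 ≠ v0 := by
    intro hcon
    apply hx1v
    -- x1 = i p^l y + small
    have hx1' : ‖x1 / ((p : ℚ_[p]) ^ l * y)‖ ≤ 1 := by
      rw [norm_div, norm_mul, hynorm, norm_pow, Padic.norm_p, ← zpow_natCast, inv_zpow', ← zpow_add₀ (by positivity),
        div_le_one (zpow_pos (by positivity) _)]
      refine hx1.trans (le_of_eq ?_)
      congr 1
      push_cast
      ring
    obtain ⟨i, hi⟩ := exists_nat_approx 1 _ hx1'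
    have key : ‖x1 / y - ((p ^ l * i : ℕ) : ℚ_[p])‖ ≤ (p : ℝ) ^ (-((l + 1 : ℕ) : ℤ)) := by
      have e : x1 / y - ((p ^ l * i : ℕ) : ℚ_[p]) = (p : ℚ_[p]) ^ l * (x1 / ((p : ℚ_[p]) ^ l * y) - (i : ℚ_[p])) := by
        push_cast
        field_simp
      rw [e, norm_mul, norm_pow, Padic.norm_p]
      calc ((p : ℝ)⁻¹) ^ l * ‖x1 / ((p : ℚ_[p]) ^ l * y) - (i : ℚ_[p])‖
          ≤ ((p : ℝ)⁻¹) ^ l * (p : ℝ) ^ (-((1 : ℕ) : ℤ)) :=
            mul_le_mul_of_nonneg_left hi (by positivity)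
        _ = (p : ℝ) ^ (-((l + 1 : ℕ) : ℤ)) := by
            rw [← zpow_natCast, inv_zpow', ← zpow_add₀ (by positivity)]
            congr 1
            push_cast
            ring
    rw [happrox x1 _ v0 hc key, pow_mul]
    have : ∀ n : ℕ, ((g ^ (p ^ l)) ^ n) v0 = v0 := by
      intro n
      induction n with
      | zero => simp
      | succ n ih => rw [pow_succ, Module.End.mul_apply, hcon, ih]
    exact this i
  obtain ⟨ξ, coef, hξ, hw0, hgw⟩ := exists_primitive_eigen l g v0 hgq hgl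
  set w : V := ∑ i ∈ Finset.range (p ^ (l + 1)), coef i • (g ^ i) v0 with hw
  -- invariance of `w` under `N`
  have hwN : ∀ z, ‖z‖ ≤ (p : ℝ) ^ (-c) → N z w = w := by
    intro z hz
    rw [hw, map_sum]
    refine Finset.sum_congr rfl fun i _ => ?_
    rw [map_smul]
    congr 1
    rw [hgpow, ← LinearMap.comp_apply, ← hNadd, add_comm, hNadd, LinearMap.comp_apply, hc z hz]
  -- invariance of `w` under `D`
  have hwD : ∀ a, ‖a - 1‖ ≤ (p : ℝ) ^ (-((l + 1 : ℕ) : ℤ)) → ‖a‖ = 1 → D a w = w := by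
    intro a ha1 ha
    rw [hw, map_sum]
    refine Finset.sum_congr rfl fun i _ => ?_
    rw [map_smul]
    congr 1
    have ha0 : a ≠ 0 := by
      intro h0; rw [h0, norm_zero] at ha; exact zero_ne_one ha
    have e1 : D a (N ((i : ℚ_[p]) * y) v0) = N (a⁻¹ * ((i : ℚ_[p]) * y)) (D a v0) := by
      have h1 := hcomm a (a⁻¹ * ((i : ℚ_[p]) * y)) ha
      have h2 : a * (a⁻¹ * ((i : ℚ_[p]) * y)) = (i : ℚ_[p]) * y := by
        rw [← mul_assoc, mul_inv_cancel₀ ha0, one_mul]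
      rw [h2] at h1
      rw [← LinearMap.comp_apply, ← h1]
      rfl
    rw [hgpow, e1, hl a ha1 ha]
    have e2 : a⁻¹ * ((i : ℚ_[p]) * y) = (i : ℚ_[p]) * y + (a⁻¹ * (1 - a)) * ((i : ℚ_[p]) * y) := by
      field_simp
      ring
    rw [e2, hNadd, LinearMap.comp_apply]
    congr 1
    apply hc
    rw [norm_mul, norm_mul, norm_mul, norm_inv, ha, inv_one, one_mul, hynorm, norm_sub_rev]
    have hi1 : ‖(i : ℚ_[p])‖ ≤ 1 := by exact_mod_cast Padic.norm_int_le_one (i : ℤ)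
    calc ‖a - 1‖ * (‖(i : ℚ_[p])‖ * (p : ℝ) ^ (-(c - (l + 1 : ℕ))))
        ≤ (p : ℝ) ^ (-((l + 1 : ℕ) : ℤ)) * (1 * (p : ℝ) ^ (-(c - (l + 1 : ℕ)))) := by
          gcongr
      _ = (p : ℝ) ^ (-c) := by
          rw [one_mul, ← zpow_add₀ (by positivity)]
          congr 1
          ring
  have hDinv : ∀ a, ‖a‖ = 1 → ∀ v, D a⁻¹ (D a v) = v := by
    intro a ha v
    have ha0 : a ≠ 0 := by
      intro h0; rw [h0, norm_zero] at ha; exact zero_ne_one ha
    have := hDmul a⁻¹ a (by rw [norm_inv, ha, inv_one]) ha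
    rw [inv_mul_cancel₀ ha0, hD1] at this
    rw [← LinearMap.comp_apply, ← this]
    rfl
  -- eigenvalue of `D a w`
  have heig : ∀ a, ‖a‖ = 1 → ∀ i : ℕ, ‖a - (i : ℚ_[p])‖ ≤ (p : ℝ) ^ (-((l + 1 : ℕ) : ℤ)) →
      g (D a w) = ξ ^ i • D a w := by
    intro a ha i hai
    have e1 : g (D a w) = D a (N (a * y) w) := by
      rw [hg, ← LinearMap.comp_apply, hcomm a y ha]
      rfl
    have e2 : N (a * y) w = (g ^ i) w := by
      apply happrox _ _ _ hwN
      rwa [mul_div_assoc, div_self hy0, mul_one]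
    have e3 : ∀ n : ℕ, (g ^ n) w = ξ ^ n • w := by
      intro n
      induction n with
      | zero => simp
      | succ n ih => rw [pow_succ' g n, Module.End.mul_apply, ih, map_smul, hgw, smul_smul, pow_succ]
    rw [e1, e2, e3, map_smul]
  -- `D a w` depends only on `a` modulo `q`
  have hDeq : ∀ a b, ‖a‖ = 1 → ‖b‖ = 1 → ‖a - b‖ ≤ (p : ℝ) ^ (-((l + 1 : ℕ) : ℤ)) → D a w = D b w := by
    intro a b ha hb hab
    have hb0 : b ≠ 0 := by
      intro h0; rw [h0, norm_zero] at hb; exact zero_ne_one hb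
    have e : a = b * (b⁻¹ * a) := by field_simp
    have hn : ‖b⁻¹ * a‖ = 1 := by rw [norm_mul, norm_inv, ha, hb]; norm_num
    rw [e, hDmul b _ hb hn, LinearMap.comp_apply, hwD _ _ hn]
    have e2 : b⁻¹ * a - 1 = b⁻¹ * (a - b) := by field_simp
    rw [e2, norm_mul, norm_inv, hb, inv_one, one_mul]
    exact hab
  have : NeZero q := ⟨hq0⟩
  have : NeZero (p ^ (l + 1)) := ⟨hq0⟩
  -- the orbit sum
  set F : (ZMod (p ^ (l + 1)))ˣ → V := fun i => D ((((i : ZMod (p ^ (l + 1))).val : ℕ)) : ℚ_[p]) w with hF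
  have hnormi : ∀ i : (ZMod (p ^ (l + 1)))ˣ, ‖(((((i : ZMod (p ^ (l + 1))).val : ℕ)) : ℚ_[p]))‖ = 1 := by
    intro i
    rw [Padic.norm_natCast_eq_one_iff]
    have := ZMod.val_coe_unit_coprime i
    exact (Nat.Coprime.coprime_dvd_right (dvd_pow_self p (by omega)) this).symm
  have hFne : ∀ i, F i ≠ 0 := by
    intro i h0
    apply hw0
    rw [← hDinv _ (hnormi i) w]
    have : D ((((i : ZMod (p ^ (l + 1))).val : ℕ)) : ℚ_[p]) w = 0 := h0
    rw [this, map_zero]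
  have hlin : LinearIndependent ℂ F := by
    apply Module.End.eigenvectors_linearIndependent' g
      (fun i : (ZMod (p ^ (l + 1)))ˣ => ξ ^ ((i : ZMod (p ^ (l + 1))).val))
    · intro i j hij
      have hij' : ξ ^ ((i : ZMod (p ^ (l + 1))).val) = ξ ^ ((j : ZMod (p ^ (l + 1))).val) := hij
      have := hξ.pow_inj (ZMod.val_lt _) (ZMod.val_lt _) hij'
      exact Units.ext (ZMod.val_injective _ this)
    · intro i
      refine ⟨?_, hFne i⟩
      rw [Module.End.mem_eigenspace_iff]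
      apply heig _ (hnormi i)
      rw [sub_self, norm_zero]
      positivity
  refine ⟨∑ i, F i, ?_, ?_⟩
  · intro h0
    rw [Fintype.linearIndependent_iff] at hlin
    have := hlin (fun _ => 1) (by simpa using h0) 1
    exact one_ne_zero this
  · intro a ha
    set a' : ℤ_[p] := ⟨a, ha.le⟩ with ha'
    have hau : IsUnit a' := by rw [PadicInt.isUnit_iff]; exact ha
    obtain ⟨ua, hua⟩ := hau
    set b : (ZMod (p ^ (l + 1)))ˣ := Units.map (PadicInt.toZModPow (p := p) (l + 1)).toMonoidHom ua with hb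
    rw [map_sum]
    refine Fintype.sum_equiv (Equiv.mulLeft b) _ _ fun i => ?_
    show D a (D _ w) = D _ w
    rw [← LinearMap.comp_apply, ← hDmul a _ ha (hnormi i)]
    apply hDeq _ _ (by rw [norm_mul, ha, hnormi i, one_mul]) (hnormi _)
    have hcast : PadicInt.toZModPow (l + 1) (a' * (((i : ZMod (p ^ (l + 1))).val : ℕ) : ℤ_[p])) =
        PadicInt.toZModPow (l + 1) (((((b * i : (ZMod (p ^ (l + 1)))ˣ) : ZMod (p ^ (l + 1))).val : ℕ) : ℤ_[p])) := by
      rw [map_mul, map_natCast, map_natCast, ZMod.natCast_zmod_val, ZMod.natCast_zmod_val, Units.val_mul, ← hua]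
      rfl
    have := norm_of_cast_eq (l + 1) _ _ hcast
    rw [PadicInt.coe_mul, PadicInt.coe_natCast, PadicInt.coe_natCast] at this
    exact this

end Pool.Agent.Helper509.AffineFixed
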