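import Mathlib
import Pool.Agent.Helper509.Polar

set_option autoImplicit false

open Metric Complex MeasureTheory Set Filter Topology

namespace Pool.Agent.Helper509.Conv

open Pool.Agent.Helper509.Polar

/-- estimate for the mass of a sum of Cauchy kernels on a small set -/
theorem lintegral_sum_le {N : ℕ} (ρ : Fin N → ℂ) (E : Set ℂ) (hE : MeasurableSet E)
    {η : ℝ} (hη : 0 < η) :
    ∫⁻ z in E, (∑ i, ‖(z - ρ i)⁻¹‖ₑ) ≤
      N * (ENNReal.ofReal (2 * Real.pi * η) + volume E * ENNReal.ofReal η⁻¹) := by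
  rw [lintegral_finsetSum]
  · calc ∑ i, ∫⁻ z in E, ‖(z - ρ i)⁻¹‖ₑ
        ≤ ∑ _i : Fin N, (ENNReal.ofReal (2 * Real.pi * η) + volume E * ENNReal.ofReal η⁻¹) :=
          Finset.sum_le_sum fun i _ => lintegral_inv_le (ρ i) E hE hη
      _ = N * (ENNReal.ofReal (2 * Real.pi * η) + volume E * ENNReal.ofReal η⁻¹) := by
          rw [Finset.sum_const, Finset.card_univ, Fintype.card_fin, nsmul_eq_mul]
  · intro i _
    exact (measurable_id.sub_const (ρ i)).inv.enorm

/-- Vitali type convergence for functions dominated by normalised sums of Cauchy kernels. -/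
theorem tendsto_L1 {B : Set ℂ} (hB : MeasurableSet B) (hBfin : volume B < ⊤)
    (f : ℕ → ℂ → ℂ) (g : ℂ → ℂ)
    (hf : ∀ n, AEStronglyMeasurable (f n) (volume.restrict B))
    (hg : AEStronglyMeasurable g (volume.restrict B))
    (Mg : ℝ) (hgb : ∀ z ∈ B, ‖g z‖ ≤ Mg) (M M' : ℝ) (hM : 0 ≤ M) (hM' : 0 ≤ M')
    (N : ℕ → ℕ) (ρ : ∀ n, Fin (N n) → ℂ) (w : ℕ → ℝ) (hw : ∀ n, 0 ≤ w n)
    (hNw : ∀ n, w n * N n ≤ M')
    (hbound : ∀ n, ∀ᵐ z ∂(volume.restrict B), ‖f n z‖ ≤ M + w n * ∑ i, ‖(z - ρ n i)⁻¹‖)
    (hlim : ∀ᵐ z ∂(volume.restrict B), Tendsto (fun n => f n z) atTop (𝓝 (g z))) :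
    Tendsto (fun n => ∫⁻ z in B, ‖f n z - g z‖ₑ) atTop (𝓝 0) := by
  have hfin : IsFiniteMeasure (volume.restrict B) := ⟨by simpa using hBfin⟩
  have hgL : MemLp g 1 (volume.restrict B) := by
    refine ⟨hg, ?_⟩
    rw [eLpNorm_one_eq_lintegral_enorm]
    calc ∫⁻ z in B, ‖g z‖ₑ ≤ ∫⁻ z in B, ENNReal.ofReal Mg := by
          apply setLIntegral_mono' hB
          intro z hz
          rw [← ofReal_norm]
          exact ENNReal.ofReal_le_ofReal (hgb z hz)
      _ = ENNReal.ofReal Mg * volume B := by rw [setLIntegral_const]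
      _ < ⊤ := ENNReal.mul_lt_top ENNReal.ofReal_lt_top hBfin
  have hui : UnifIntegrable f 1 (volume.restrict B) := by
    intro ε hε
    -- choose η
    set η : ℝ := ε / (3 * (2 * Real.pi * (M' + 1))) with hη
    have hpi := Real.pi_pos
    have hη0 : 0 < η := by positivity
    set δ : ℝ := ε / (3 * (M + 1 + M' / η)) with hδ
    have hδ0 : 0 < δ := by positivity
    refine ⟨δ, hδ0, ?_⟩
    intro n E hE hEδ
    rw [eLpNorm_one_eq_lintegral_enorm]
    have hEB : volume (E ∩ B) ≤ ENNReal.ofReal δ := by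
      rwa [Measure.restrict_apply hE] at hEδ
    have h1 : ∫⁻ z in B, ‖E.indicator (f n) z‖ₑ = ∫⁻ z in E ∩ B, ‖f n z‖ₑ := by
      have : (fun z => ‖E.indicator (f n) z‖ₑ) = E.indicator (fun z => ‖f n z‖ₑ) := by
        ext z
        by_cases hz : z ∈ E
        · simp [hz]
        · simp [hz]
      rw [this, lintegral_indicator hE, Measure.restrict_restrict hE]
    rw [h1]
    have h2 : ∫⁻ z in E ∩ B, ‖f n z‖ₑ ≤ ∫⁻ z in E ∩ B,
        (ENNReal.ofReal M + ENNReal.ofReal (w n) * ∑ i, ‖(z - ρ n i)⁻¹‖ₑ) := by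
      apply lintegral_mono_ae
      have := ae_restrict_of_ae_restrict_of_subset (inter_subset_right : E ∩ B ⊆ B) (hbound n)
      filter_upwards [this] with z hz
      rw [← ofReal_norm]
      refine (ENNReal.ofReal_le_ofReal hz).trans ?_
      rw [ENNReal.ofReal_add hM (mul_nonneg (hw n) (Finset.sum_nonneg fun _ _ => norm_nonneg _)),
        ENNReal.ofReal_mul (hw n), ENNReal.ofReal_sum_of_nonneg (fun _ _ => norm_nonneg _)]
      simp only [ofReal_norm]
      exact le_refl _
    refine h2.trans ?_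
    have hmk : Measurable (fun z : ℂ => ∑ i, ‖(z - ρ n i)⁻¹‖ₑ) :=
      Finset.measurable_fun_sum _ fun i _ => (measurable_id.sub_const (ρ n i)).inv.enorm
    rw [lintegral_add_left measurable_const, setLIntegral_const, lintegral_const_mul _ hmk]
    have h3 := lintegral_sum_le (ρ n) (E ∩ B) (hE.inter hB) hη0
    calc ENNReal.ofReal M * volume (E ∩ B) + ENNReal.ofReal (w n) * ∫⁻ z in E ∩ B, ∑ i, ‖(z - ρ n i)⁻¹‖ₑ
        ≤ ENNReal.ofReal M * ENNReal.ofReal δ + ENNReal.ofReal (w n) *
          (N n * (ENNReal.ofReal (2 * Real.pi * η) + ENNReal.ofReal δ * ENNReal.ofReal η⁻¹)) := by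
          gcongr
          refine h3.trans ?_
          gcongr
      _ = ENNReal.ofReal (M * δ + w n * (N n * (2 * Real.pi * η + δ * η⁻¹))) := by
          rw [ENNReal.ofReal_add (by positivity) (mul_nonneg (hw n) (by positivity)),
            ENNReal.ofReal_mul hM, ENNReal.ofReal_mul (hw n),
            ENNReal.ofReal_mul (p := (N n : ℝ)) (by positivity),
            ENNReal.ofReal_natCast,
            ENNReal.ofReal_add (p := 2 * Real.pi * η) (by positivity) (by positivity),
            ENNReal.ofReal_mul hδ0.le]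
      _ ≤ ENNReal.ofReal ε := by
          apply ENNReal.ofReal_le_ofReal
          have e1 : w n * (N n * (2 * Real.pi * η + δ * η⁻¹)) ≤ M' * (2 * Real.pi * η + δ * η⁻¹) := by
            rw [← mul_assoc]
            exact mul_le_mul_of_nonneg_right (hNw n) (by positivity)
          have e2 : M' * (2 * Real.pi * η) ≤ ε / 3 := by
            have : (M' + 1) * (2 * Real.pi * η) = ε / 3 := by
              rw [hη]; field_simp
            nlinarith [mul_pos (mul_pos two_pos hpi) hη0]
          have e3 : M * δ + M' * (δ * η⁻¹) ≤ ε / 3 := by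
            have h5 : (M + 1 + M' / η) * δ = ε / 3 := by
              rw [hδ]; field_simp
            have h6 : M * δ + M' * (δ * η⁻¹) = (M + M' / η) * δ := by field_simp
            rw [h6]
            nlinarith
          have e4 : M' * (2 * Real.pi * η + δ * η⁻¹) = M' * (2 * Real.pi * η) + M' * (δ * η⁻¹) := by ring
          linarith
  have := tendsto_Lp_finite_of_tendsto_ae (le_refl (1 : ENNReal)) ENNReal.one_ne_top hf hgL hui hlim
  simpa [eLpNorm_one_eq_lintegral_enorm] using this

/-- analytic functions on a closed disc integrate to zero against `z - a` -/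
theorem integral_analytic' (A : ℂ → ℂ) (a : ℂ) {s : ℝ}
    (hA : DifferentiableOn ℂ A (closedBall a s)) :
    ∫ z in ball a s, (z - a) * A z = 0 := by
  classical
  let A' : ℂ → ℂ := (closedBall a s).piecewise A 0
  have hA'm : Measurable A' :=
    hA.continuousOn.measurable_piecewise continuousOn_const isClosed_closedBall.measurableSet
  have heq : EqOn A' A (closedBall a s) := fun z hz => piecewise_eq_of_mem _ _ _ hz
  have hA' : DifferentiableOn ℂ A' (closedBall a s) := hA.congr heq
  have h1 : ∫ z in ball a s, (z - a) * A z = ∫ z in ball a s, (z - a) * A' z := by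
    apply setIntegral_congr_fun measurableSet_ball
    intro z hz
    simp only
    rw [heq (ball_subset_closedBall hz)]
  rw [h1]
  apply integral_analytic A' hA'm a hA'
  have hc : ContinuousOn (fun z => (z - a) * A' z) (closedBall a s) :=
    (continuousOn_id.sub continuousOn_const).mul hA'.continuousOn
  exact (hc.integrableOn_compact (isCompact_closedBall a s)).mono_set ball_subset_closedBall

/-- If functions with a Cauchy kernel decomposition converge in `L¹` of a disc to an analytic
function, then the mass of the poles in the disc tends to zero. -/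
theorem mass_tendsto_zero {a : ℂ} {s : ℝ} (hs : 0 < s)
    (f : ℕ → ℂ → ℂ) (g : ℂ → ℂ) (hg : DifferentiableOn ℂ g (closedBall a s))
    (A : ℕ → ℂ → ℂ) (hA : ∀ n, DifferentiableOn ℂ (A n) (closedBall a s))
    (N : ℕ → ℕ) (ρ : ∀ n, Fin (N n) → ℂ) (w : ℕ → ℝ)
    (hdec : ∀ n, ∀ᵐ z ∂(volume.restrict (ball a s)),
      f n z = (w n : ℂ) * (∑ i, (z - ρ n i)⁻¹) + A n z)
    (hlim : Tendsto (fun n => ∫⁻ z in ball a s, ‖f n z - g z‖ₑ) atTop (𝓝 0)) :
    Tendsto (fun n => w n * ∑ i, max (s ^ 2 - ‖ρ n i - a‖ ^ 2) 0) atTop (𝓝 0) := by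
  have hpi := Real.pi_pos
  have hintk : ∀ (n : ℕ) (i : Fin (N n)), IntegrableOn (fun z : ℂ => (z - a) * (z - ρ n i)⁻¹) (ball a s) := by
    intro n i
    apply Integrable.bdd_mul (c := s) (integrableOn_inv (ρ n i) a s)
    · exact (measurable_id.sub_const a).aestronglyMeasurable
    · rw [ae_restrict_iff' measurableSet_ball]
      filter_upwards with z hz
      rw [mem_ball, dist_eq_norm] at hz
      exact hz.le
  have hintA : ∀ n, IntegrableOn (fun z : ℂ => (z - a) * A n z) (ball a s) := by
    intro n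
    have hc : ContinuousOn (fun z => (z - a) * A n z) (closedBall a s) :=
      (continuousOn_id.sub continuousOn_const).mul (hA n).continuousOn
    exact (hc.integrableOn_compact (isCompact_closedBall a s)).mono_set ball_subset_closedBall
  have hintg : IntegrableOn (fun z : ℂ => (z - a) * g z) (ball a s) := by
    have hc : ContinuousOn (fun z => (z - a) * g z) (closedBall a s) :=
      (continuousOn_id.sub continuousOn_const).mul hg.continuousOn
    exact (hc.integrableOn_compact (isCompact_closedBall a s)).mono_set ball_subset_closedBall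
  -- the integral of `(z - a) f_n`
  have hT : ∀ n, ∫ z in ball a s, (z - a) * f n z =
      ((Real.pi * (w n * ∑ i, max (s ^ 2 - ‖ρ n i - a‖ ^ 2) 0) : ℝ) : ℂ) := by
    intro n
    have e1 : ∫ z in ball a s, (z - a) * f n z =
        ∫ z in ball a s, ((w n : ℂ) * (∑ i, (z - a) * (z - ρ n i)⁻¹) + (z - a) * A n z) := by
      apply integral_congr_ae
      filter_upwards [hdec n] with z hz
      rw [hz, mul_add, Finset.mul_sum, Finset.mul_sum, Finset.mul_sum]
      congr 1
      refine Finset.sum_congr rfl fun i _ => ?_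
      ring
    rw [e1, integral_add _ (hintA n), integral_const_mul, integral_finsetSum,
      integral_analytic' (A n) a (hA n), add_zero]
    · simp only [integral_kernel a _ hs]
      push_cast
      rw [← Finset.mul_sum]
      ring
    · intro i _; exact hintk n i
    · apply Integrable.const_mul
      exact integrable_finsetSum _ fun i _ => hintk n i
  have hintf : ∀ n, IntegrableOn (fun z : ℂ => (z - a) * f n z) (ball a s) := by
    intro n
    have hi : IntegrableOn (fun z : ℂ => ((w n : ℂ) * (∑ i, (z - a) * (z - ρ n i)⁻¹) + (z - a) * A n z)) (ball a s) := by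
      apply Integrable.add _ (hintA n)
      apply Integrable.const_mul
      exact integrable_finsetSum _ fun i _ => hintk n i
    apply hi.congr
    filter_upwards [hdec n] with z hz
    rw [hz, mul_add, Finset.mul_sum, Finset.mul_sum, Finset.mul_sum]
    congr 1
    refine Finset.sum_congr rfl fun i _ => ?_
    ring
  have hgz := integral_analytic' g a hg
  -- norm estimate
  have hest : ∀ n, ENNReal.ofReal (Real.pi * (w n * ∑ i, max (s ^ 2 - ‖ρ n i - a‖ ^ 2) 0)) ≤
      ENNReal.ofReal s * ∫⁻ z in ball a s, ‖f n z - g z‖ₑ := by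
    intro n
    have e1 : ∫ z in ball a s, (z - a) * (f n z - g z) =
        ((Real.pi * (w n * ∑ i, max (s ^ 2 - ‖ρ n i - a‖ ^ 2) 0) : ℝ) : ℂ) := by
      have : ∫ z in ball a s, (z - a) * (f n z - g z) =
          (∫ z in ball a s, (z - a) * f n z) - ∫ z in ball a s, (z - a) * g z := by
        rw [← integral_sub (hintf n) hintg]
        congr 1
        ext z
        ring
      rw [this, hT n, hgz, sub_zero]
    have e2 : ENNReal.ofReal (Real.pi * (w n * ∑ i, max (s ^ 2 - ‖ρ n i - a‖ ^ 2) 0)) ≤
        ‖∫ z in ball a s, (z - a) * (f n z - g z)‖ₑ := by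
      rw [e1, ← ofReal_norm, Complex.norm_real]
      exact ENNReal.ofReal_le_ofReal (le_abs_self _)
    refine e2.trans ((enorm_integral_le_lintegral_enorm _).trans ?_)
    rw [← lintegral_const_mul' _ _ ENNReal.ofReal_ne_top]
    apply setLIntegral_mono' measurableSet_ball
    intro z hz
    rw [enorm_mul]
    gcongr
    rw [← ofReal_norm]
    apply ENNReal.ofReal_le_ofReal
    rw [mem_ball, dist_eq_norm] at hz
    exact hz.le
  have hlim2 : Tendsto (fun n => ENNReal.ofReal s * ∫⁻ z in ball a s, ‖f n z - g z‖ₑ) atTop (𝓝 0) := by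
    have := ENNReal.Tendsto.const_mul hlim (Or.inr (ENNReal.ofReal_ne_top (r := s)))
    rwa [mul_zero] at this
  have hlim3 : Tendsto (fun n => ENNReal.ofReal (Real.pi * (w n * ∑ i, max (s ^ 2 - ‖ρ n i - a‖ ^ 2) 0)))
      atTop (𝓝 0) :=
    tendsto_of_tendsto_of_tendsto_of_le_of_le tendsto_const_nhds hlim2 (fun _ => bot_le) hest
  -- we also need a lower bound: the same estimate for the absolute value
  have hest' : ∀ n, ENNReal.ofReal |Real.pi * (w n * ∑ i, max (s ^ 2 - ‖ρ n i - a‖ ^ 2) 0)| ≤
      ENNReal.ofReal s * ∫⁻ z in ball a s, ‖f n z - g z‖ₑ := by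
    intro n
    have e1 : ∫ z in ball a s, (z - a) * (f n z - g z) =
        ((Real.pi * (w n * ∑ i, max (s ^ 2 - ‖ρ n i - a‖ ^ 2) 0) : ℝ) : ℂ) := by
      have : ∫ z in ball a s, (z - a) * (f n z - g z) =
          (∫ z in ball a s, (z - a) * f n z) - ∫ z in ball a s, (z - a) * g z := by
        rw [← integral_sub (hintf n) hintg]
        congr 1
        ext z
        ring
      rw [this, hT n, hgz, sub_zero]
    have e2 : ENNReal.ofReal |Real.pi * (w n * ∑ i, max (s ^ 2 - ‖ρ n i - a‖ ^ 2) 0)| ≤
        ‖∫ z in ball a s, (z - a) * (f n z - g z)‖ₑ := by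
      rw [e1, ← ofReal_norm, Complex.norm_real]
      exact le_refl _
    refine e2.trans ((enorm_integral_le_lintegral_enorm _).trans ?_)
    rw [← lintegral_const_mul' _ _ ENNReal.ofReal_ne_top]
    apply setLIntegral_mono' measurableSet_ball
    intro z hz
    rw [enorm_mul]
    gcongr
    rw [← ofReal_norm]
    apply ENNReal.ofReal_le_ofReal
    rw [mem_ball, dist_eq_norm] at hz
    exact hz.le
  have hlim4 : Tendsto (fun n => ENNReal.ofReal |Real.pi * (w n * ∑ i, max (s ^ 2 - ‖ρ n i - a‖ ^ 2) 0)|)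
      atTop (𝓝 0) :=
    tendsto_of_tendsto_of_tendsto_of_le_of_le tendsto_const_nhds hlim2 (fun _ => bot_le) hest'
  have hlim5 : Tendsto (fun n => |Real.pi * (w n * ∑ i, max (s ^ 2 - ‖ρ n i - a‖ ^ 2) 0)|)
      atTop (𝓝 0) := by
    have := (ENNReal.tendsto_toReal ENNReal.zero_ne_top).comp hlim4
    simpa [Function.comp_def, ENNReal.toReal_ofReal (abs_nonneg _)] using this
  have hlim6 : Tendsto (fun n => Real.pi * (w n * ∑ i, max (s ^ 2 - ‖ρ n i - a‖ ^ 2) 0))
      atTop (𝓝 0) := (tendsto_zero_iff_abs_tendsto_zero _).mpr hlim5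
  have hlim7 := hlim6.const_mul Real.pi⁻¹
  rw [mul_zero] at hlim7
  refine hlim7.congr fun n => ?_
  rw [← mul_assoc, inv_mul_cancel₀ hpi.ne', one_mul]

end Pool.Agent.Helper509.Conv
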