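import Mathlib

set_option autoImplicit false

open MeasureTheory Filter Topology

namespace Pool.Agent.Helper509.SphDefs

/-- The Borel sigma-algebra on the unitary group `U(n)`. -/
noncomputable instance measurableSpaceU (n : ℕ) :
    MeasurableSpace (Matrix.unitaryGroup (Fin n) ℂ) := borel _

instance borelSpaceU (n : ℕ) : BorelSpace (Matrix.unitaryGroup (Fin n) ℂ) := ⟨rfl⟩

/-- The unitary group is compact. -/
instance compactSpaceU (n : ℕ) : CompactSpace (Matrix.unitaryGroup (Fin n) ℂ) := by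
  have hcl : IsClosed ((Matrix.unitaryGroup (Fin n) ℂ : Set (Matrix (Fin n) (Fin n) ℂ))) := by
    have : (Matrix.unitaryGroup (Fin n) ℂ : Set (Matrix (Fin n) (Fin n) ℂ)) =
        {A | A * star A = 1} := by
      ext A
      exact Matrix.mem_unitaryGroup_iff
    rw [this]
    exact isClosed_eq (continuous_id.mul continuous_star) continuous_const
  have hsub : (Matrix.unitaryGroup (Fin n) ℂ : Set (Matrix (Fin n) (Fin n) ℂ)) ⊆
      Set.pi Set.univ (fun _ : Fin n => Set.pi Set.univ (fun _ : Fin n => Metric.closedBall (0 : ℂ) 1)) := by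
    intro A hA i _ j _
    rw [mem_closedBall_zero_iff]
    exact entry_norm_bound_of_unitary hA i j
  have hc : IsCompact (Set.pi Set.univ
      (fun _ : Fin n => Set.pi Set.univ (fun _ : Fin n => Metric.closedBall (0 : ℂ) 1))) :=
    isCompact_univ_pi fun _ => isCompact_univ_pi fun _ => isCompact_closedBall _ _
  exact isCompact_iff_compactSpace.mp (hc.of_isClosed_subset hcl hsub)

/-- The Haar probability measure `m_n` on `U(n)`: the Haar measure that gives mass one to the whole
(compact) group. -/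
noncomputable def haarU (n : ℕ) : Measure (Matrix.unitaryGroup (Fin n) ℂ) :=
  Measure.haarMeasure ⊤

/-- The matrix `D_n = diag(z, 0, …, 0)`. -/
def rankOne (n : ℕ) (z : ℂ) : Matrix (Fin n) (Fin n) ℂ :=
  Matrix.diagonal (fun i => if (i : ℕ) = 0 then z else 0)

/-- The spherical integral `I_n(z, E) = ∫ exp (n tr (U D_n U* E)) dm_n(U)`. -/
noncomputable def sphInt (n : ℕ) (E : Matrix (Fin n) (Fin n) ℂ) (z : ℂ) : ℂ :=
  ∫ U : Matrix.unitaryGroup (Fin n) ℂ,
    Complex.exp ((n : ℂ) * Matrix.trace ((U : Matrix (Fin n) (Fin n) ℂ) * rankOne n z *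
      star (U : Matrix (Fin n) (Fin n) ℂ) * E)) ∂(haarU n)

/-- `f_n(z) = (1/n) ∂_z log I_n(z, E) = ∂_z I_n(z, E) / (n I_n(z, E))`. -/
noncomputable def fn (n : ℕ) (E : Matrix (Fin n) (Fin n) ℂ) (z : ℂ) : ℂ :=
  deriv (sphInt n E) z / ((n : ℂ) * sphInt n E z)

/-- `(E_n)` is a sequence of self-adjoint `n × n` matrices, uniformly bounded in operator norm (for
a self-adjoint matrix the operator norm is the largest absolute value of an eigenvalue), whose
empirical eigenvalue distributions converge weakly to `μ`. -/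
structure Admissible (E : ∀ n : ℕ, Matrix (Fin n) (Fin n) ℂ) (μ : Measure ℝ) : Prop where
  herm : ∀ n, (E n).IsHermitian
  bdd : ∃ C : ℝ, ∀ n i, |(herm n).eigenvalues i| ≤ C
  conv : ∀ φ : BoundedContinuousFunction ℝ ℝ,
    Tendsto (fun n : ℕ => (∑ i, φ ((herm n).eigenvalues i)) / (n : ℝ)) atTop (𝓝 (∫ x, φ x ∂μ))

/-- A compactly supported probability measure on the real line. -/
def CompactProb (μ : Measure ℝ) : Prop :=
  IsProbabilityMeasure μ ∧ ∃ C : ℝ, μ (Set.Icc (-C) C)ᶜ = 0

/-- The Cauchy transform `G_μ(w) = ∫ dμ(x) / (w - x)`. -/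
noncomputable def cauchyT (μ : Measure ℝ) (w : ℂ) : ℂ := ∫ x : ℝ, (w - (x : ℂ))⁻¹ ∂μ

/-- `R` is the R-transform of `μ` near `0`: `R` is analytic at `0` and
`G_μ(R(z) + 1/z) = z` for all small `z ≠ 0`. -/
def IsRTransform (μ : Measure ℝ) (R : ℂ → ℂ) : Prop :=
  AnalyticAt ℂ R 0 ∧ ∀ᶠ z in 𝓝[≠] (0 : ℂ), cauchyT μ (R z + 1 / z) = z

/-- `R` is the analytic continuation to the upper half-plane of the R-transform of `μ`. -/
def IsRContinuation (μ : Measure ℝ) (R : ℂ → ℂ) : Prop :=
  DifferentiableOn ℂ R {z : ℂ | 0 < z.im} ∧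
    ∃ R₀ : ℂ → ℂ, IsRTransform μ R₀ ∧ ∀ᶠ z in 𝓝[{z : ℂ | 0 < z.im}] (0 : ℂ), R z = R₀ z

/-- `μ` is the `k`-fold free additive convolution power of `ν` (for compactly supported laws): the
R-transform of `μ` is `k` times the one of `ν`. -/
def IsFreePow (k : ℕ) (ν μ : Measure ℝ) : Prop :=
  ∃ R : ℂ → ℂ, IsRTransform ν R ∧ IsRTransform μ (fun z => (k : ℂ) * R z)

/-- Free (additive) infinite divisibility of a compactly supported law. -/
def FreelyInfDiv (μ : Measure ℝ) : Prop :=
  ∀ k : ℕ, 1 ≤ k → ∃ ν : Measure ℝ, CompactProb ν ∧ IsFreePow k ν μ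

/-- The semicircle law of variance one: density `√(4 - x²) / (2π)` on `[-2, 2]` (the square root of a
negative number is `0`, so the density vanishes outside `[-2, 2]`). -/
noncomputable def semicircle : Measure ℝ :=
  volume.withDensity (fun x => ENNReal.ofReal ((2 * Real.pi)⁻¹ * √(4 - x ^ 2)))

end Pool.Agent.Helper509.SphDefs
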