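import Mathlib
import Pool.Agent.Helper509.SphDefs

set_option autoImplicit false

open MeasureTheory Filter Topology Set

namespace Pool.Agent.Helper509.Dirac

open Pool.Agent.Helper509.SphDefs

theorem eq_dirac_of_ae {μ : Measure ℝ} [IsProbabilityMeasure μ] {m : ℝ} (h : ∀ᵐ x ∂μ, x = m) :
    μ = Measure.dirac m := by
  ext s hs
  rw [Measure.dirac_apply' _ hs]
  by_cases hm : m ∈ s
  · rw [indicator_of_mem hm, Pi.one_apply]
    have : ∀ᵐ x ∂μ, x ∈ s := h.mono fun x hx => hx ▸ hm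
    rw [← prob_compl_eq_zero_iff hs]
    exact this
  · rw [indicator_of_notMem hm]
    have : ∀ᵐ x ∂μ, x ∉ s := h.mono fun x hx => hx ▸ hm
    simpa [ae_iff] using this

/-- If the R-transform is constant, the law is a point mass. -/
theorem dirac_of_const {μ : Measure ℝ} (hμ : CompactProb μ) {c : ℂ}
    (hc : ∀ᶠ z in 𝓝[≠] (0 : ℂ), cauchyT μ (c + 1 / z) = z) :
    ∃ m : ℝ, μ = Measure.dirac m := by
  obtain ⟨hprob, C₀, hC₀⟩ := hμ
  set C : ℝ := |C₀| + ‖c‖ + 1 with hC
  have hCpos : 0 < C := by positivity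
  have hae : ∀ᵐ x : ℝ ∂μ, ‖(x : ℂ) - c‖ ≤ C := by
    have : ∀ᵐ x ∂μ, x ∈ Icc (-C₀) C₀ := by
      rw [ae_iff]; exact hC₀
    filter_upwards [this] with x hx
    have h1 : |x| ≤ |C₀| := (abs_le.mpr hx).trans (le_abs_self _)
    calc ‖(x : ℂ) - c‖ ≤ ‖(x : ℂ)‖ + ‖c‖ := norm_sub_le _ _
      _ = |x| + ‖c‖ := by rw [Complex.norm_real, Real.norm_eq_abs]
      _ ≤ C := by linarith
  rw [eventually_nhdsWithin_iff, Metric.eventually_nhds_iff] at hc
  obtain ⟨ε, hε, hc⟩ := hc
  -- for real small t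
  have hmain : ∀ t : ℝ, t ≠ 0 → |t| < ε → |t| * C ≤ 1 / 2 →
      ∫ x : ℝ, ((x : ℂ) - c) * (1 - ((x : ℂ) - c) * t)⁻¹ ∂μ = 0 := by
    intro t ht0 htε htC
    have ht0' : (t : ℂ) ≠ 0 := Complex.ofReal_ne_zero.mpr ht0
    have h1 := hc (y := (t : ℂ)) (by simpa [dist_eq_norm] using htε) ht0'
    unfold cauchyT at h1
    have hne : ∀ᵐ x : ℝ ∂μ, 1 - ((x : ℂ) - c) * t ≠ 0 := by
      filter_upwards [hae] with x hx h0
      have h2 : ‖((x : ℂ) - c) * t‖ = 1 := by rw [← sub_eq_zero.mp h0, norm_one]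
      rw [norm_mul, Complex.norm_real, Real.norm_eq_abs] at h2
      have : ‖(x : ℂ) - c‖ * |t| ≤ C * |t| := mul_le_mul_of_nonneg_right hx (abs_nonneg _)
      linarith
    have hbd : ∀ᵐ x : ℝ ∂μ, ‖(1 - ((x : ℂ) - c) * t)⁻¹‖ ≤ 2 := by
      filter_upwards [hae] with x hx
      have h2 : ‖((x : ℂ) - c) * t‖ ≤ 1 / 2 := by
        rw [norm_mul, Complex.norm_real, Real.norm_eq_abs]
        have : ‖(x : ℂ) - c‖ * |t| ≤ C * |t| := mul_le_mul_of_nonneg_right hx (abs_nonneg _)
        linarith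
      have h3 : 1 / 2 ≤ ‖1 - ((x : ℂ) - c) * t‖ := by
        have := norm_sub_norm_le (1 : ℂ) (((x : ℂ) - c) * t)
        rw [norm_one] at this
        linarith
      rw [norm_inv]
      calc ‖1 - ((x : ℂ) - c) * t‖⁻¹ ≤ (1 / 2 : ℝ)⁻¹ := inv_anti₀ (by norm_num) h3
        _ = 2 := by norm_num
    have hmeas : Measurable (fun x : ℝ => (1 - ((x : ℂ) - c) * t)⁻¹) := by fun_prop
    have hint : Integrable (fun x : ℝ => (1 - ((x : ℂ) - c) * t)⁻¹) μ :=
      Integrable.of_bound hmeas.aestronglyMeasurable 2 hbd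
    have e1 : ∫ x : ℝ, (c + 1 / (t : ℂ) - (x : ℂ))⁻¹ ∂μ = (t : ℂ) * ∫ x : ℝ, (1 - ((x : ℂ) - c) * t)⁻¹ ∂μ := by
      rw [← integral_const_mul]
      congr 1
      ext x
      have : c + 1 / (t : ℂ) - (x : ℂ) = (1 - ((x : ℂ) - c) * t) / t := by
        field_simp; ring
      rw [this, inv_div, div_eq_mul_inv]
    rw [e1] at h1
    have h2 : ∫ x : ℝ, (1 - ((x : ℂ) - c) * t)⁻¹ ∂μ = 1 := by
      have : (t : ℂ) * ∫ x : ℝ, (1 - ((x : ℂ) - c) * t)⁻¹ ∂μ = (t : ℂ) * 1 := by rw [h1, mul_one]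
      exact mul_left_cancel₀ ht0' this
    have h3 : ∫ x : ℝ, ((1 - ((x : ℂ) - c) * t)⁻¹ - 1) ∂μ = 0 := by
      rw [integral_sub hint (integrable_const 1), h2]
      simp
    have h4 : ∫ x : ℝ, ((1 - ((x : ℂ) - c) * t)⁻¹ - 1) ∂μ =
        (t : ℂ) * ∫ x : ℝ, ((x : ℂ) - c) * (1 - ((x : ℂ) - c) * t)⁻¹ ∂μ := by
      rw [← integral_const_mul]
      apply integral_congr_ae
      filter_upwards [hne] with x hx
      field_simp
      ring
    rw [h4] at h3
    rcases mul_eq_zero.mp h3 with h5 | h5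
    · exact absurd h5 ht0'
    · exact h5
  -- mean
  have hmean : ∫ x : ℝ, ((x : ℂ) - c) ∂μ = 0 := by
    obtain ⟨K, hK⟩ := exists_nat_gt (max (1 / ε) (2 * C))
    let t : ℕ → ℝ := fun k => 1 / ((k : ℝ) + K)
    have hKpos : (0 : ℝ) < K := lt_of_le_of_lt (by positivity) ((le_max_left _ _).trans_lt hK)
    have htpos : ∀ k, 0 < t k := fun k => by simp only [t]; positivity
    have htle : ∀ k, t k ≤ 1 / K := fun k => by
      simp only [t]
      apply one_div_le_one_div_of_le hKpos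
      have : (0 : ℝ) ≤ k := Nat.cast_nonneg k
      linarith
    have htε : ∀ k, |t k| < ε := fun k => by
      rw [abs_of_pos (htpos k)]
      refine (htle k).trans_lt ?_
      rw [div_lt_iff₀ hKpos]
      have := (le_max_left (1 / ε) (2 * C)).trans_lt hK
      rw [div_lt_iff₀ hε] at this
      linarith
    have htC : ∀ k, |t k| * C ≤ 1 / 2 := fun k => by
      rw [abs_of_pos (htpos k)]
      have h1 : t k * C ≤ 1 / K * C := mul_le_mul_of_nonneg_right (htle k) hCpos.le
      have h2 : 1 / (K : ℝ) * C ≤ 1 / 2 := by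
        rw [one_div, inv_mul_le_iff₀ hKpos]
        have := (le_max_right (1 / ε) (2 * C)).trans_lt hK
        linarith
      linarith
    have hzero : ∀ k, ∫ x : ℝ, ((x : ℂ) - c) * (1 - ((x : ℂ) - c) * (t k : ℂ))⁻¹ ∂μ = 0 := fun k =>
      hmain (t k) (htpos k).ne' (htε k) (htC k)
    have htlim : Tendsto t atTop (𝓝 0) := by
      have h1 : Tendsto (fun k : ℕ => (k : ℝ) + K) atTop atTop :=
        tendsto_atTop_add_const_right _ _ tendsto_natCast_atTop_atTop
      simpa [t, Function.comp_def] using tendsto_inv_atTop_zero.comp h1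
    have hlim := tendsto_integral_of_dominated_convergence (μ := μ)
      (F := fun k x => ((x : ℂ) - c) * (1 - ((x : ℂ) - c) * (t k : ℂ))⁻¹)
      (f := fun x : ℝ => ((x : ℂ) - c)) (bound := fun _ => C * 2)
      (fun k => by
        apply Measurable.aestronglyMeasurable
        fun_prop)
      (integrable_const _)
      (fun k => by
        filter_upwards [hae] with x hx
        rw [norm_mul]
        have h2 : ‖((x : ℂ) - c) * (t k : ℂ)‖ ≤ 1 / 2 := by
          rw [norm_mul, Complex.norm_real, Real.norm_eq_abs]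
          have h3 : ‖(x : ℂ) - c‖ * |t k| ≤ C * |t k| := mul_le_mul_of_nonneg_right hx (abs_nonneg _)
          have := htC k
          linarith
        have h3 : 1 / 2 ≤ ‖1 - ((x : ℂ) - c) * (t k : ℂ)‖ := by
          have := norm_sub_norm_le (1 : ℂ) (((x : ℂ) - c) * (t k : ℂ))
          rw [norm_one] at this
          linarith
        have h4 : ‖(1 - ((x : ℂ) - c) * (t k : ℂ))⁻¹‖ ≤ 2 := by
          rw [norm_inv]
          calc ‖1 - ((x : ℂ) - c) * (t k : ℂ)‖⁻¹ ≤ (1 / 2 : ℝ)⁻¹ := inv_anti₀ (by norm_num) h3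
            _ = 2 := by norm_num
        exact mul_le_mul hx h4 (norm_nonneg _) hCpos.le)
      (by
        filter_upwards with x
        have h1 : Tendsto (fun k => (1 - ((x : ℂ) - c) * (t k : ℂ))⁻¹) atTop (𝓝 1) := by
          have h2 : Tendsto (fun k => (t k : ℂ)) atTop (𝓝 ((0 : ℝ) : ℂ)) :=
            (Complex.continuous_ofReal.tendsto 0).comp htlim
          have h3 := (h2.const_mul ((x : ℂ) - c)).const_sub 1
          rw [Complex.ofReal_zero, mul_zero, sub_zero] at h3
          have h4 := h3.inv₀ one_ne_zero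
          rwa [inv_one] at h4
        have h5 := h1.const_mul ((x : ℂ) - c)
        rwa [mul_one] at h5)
    simp only [hzero] at hlim
    exact tendsto_nhds_unique hlim tendsto_const_nhds
  -- c is real
  have hintx : Integrable (fun x : ℝ => (x : ℂ)) μ := by
    apply Integrable.of_bound (C := C + ‖c‖) (by
      apply Measurable.aestronglyMeasurable; fun_prop)
    filter_upwards [hae] with x hx
    calc ‖(x : ℂ)‖ = ‖((x : ℂ) - c) + c‖ := by rw [sub_add_cancel]
      _ ≤ ‖(x : ℂ) - c‖ + ‖c‖ := norm_add_le _ _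
      _ ≤ C + ‖c‖ := by linarith
  set m : ℝ := ∫ x, x ∂μ with hm
  have hcm : c = (m : ℂ) := by
    rw [integral_sub hintx (integrable_const c)] at hmean
    have h1 : ∫ x : ℝ, (x : ℂ) ∂μ = (m : ℂ) := by rw [hm, ← integral_complex_ofReal]
    rw [h1] at hmean
    simp only [integral_const, probReal_univ, one_smul] at hmean
    exact (sub_eq_zero.mp hmean).symm
  refine ⟨m, eq_dirac_of_ae ?_⟩
  -- choose t
  set t : ℝ := min (ε / 2) (1 / (2 * C)) with ht
  have ht0 : 0 < t := lt_min (by positivity) (by positivity)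
  have htε : |t| < ε := by
    rw [abs_of_pos ht0]
    exact (min_le_left _ _).trans_lt (by linarith)
  have htC : |t| * C ≤ 1 / 2 := by
    rw [abs_of_pos ht0]
    have h1 : t ≤ 1 / (2 * C) := min_le_right _ _
    calc t * C ≤ 1 / (2 * C) * C := mul_le_mul_of_nonneg_right h1 hCpos.le
      _ = 1 / 2 := by field_simp
  have h1 := hmain t ht0.ne' htε htC
  have hden : ∀ᵐ x : ℝ ∂μ, (1 : ℝ) / 2 ≤ 1 - (x - m) * t := by
    filter_upwards [hae] with x hx
    rw [hcm, ← Complex.ofReal_sub, Complex.norm_real, Real.norm_eq_abs] at hx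
    have h2 : (x - m) * t ≤ C * t := mul_le_mul_of_nonneg_right ((le_abs_self _).trans hx) ht0.le
    rw [abs_of_pos ht0] at htC
    linarith
  have hreal : ∫ x, (x - m) * (1 - (x - m) * t)⁻¹ ∂μ = 0 := by
    have : ∫ x : ℝ, ((x : ℂ) - c) * (1 - ((x : ℂ) - c) * (t : ℂ))⁻¹ ∂μ =
        ((∫ x, (x - m) * (1 - (x - m) * t)⁻¹ ∂μ : ℝ) : ℂ) := by
      rw [← integral_complex_ofReal]
      congr 1
      ext x
      rw [hcm]
      push_cast
      rfl
    rw [this] at h1
    exact_mod_cast h1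
  have hintr : Integrable (fun x : ℝ => x) μ := by
    have := hintx.re
    simpa using this
  have hmean2 : ∫ x, (x - m) ∂μ = 0 := by
    rw [integral_sub hintr (integrable_const m)]
    simp [hm]
  have hint1 : Integrable (fun x : ℝ => (x - m) * (1 - (x - m) * t)⁻¹) μ := by
    apply Integrable.of_bound (C := C * 2) (by
      apply Measurable.aestronglyMeasurable; fun_prop)
    filter_upwards [hae, hden] with x hx hx2
    rw [hcm, ← Complex.ofReal_sub, Complex.norm_real] at hx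
    rw [norm_mul]
    apply mul_le_mul hx _ (norm_nonneg _) hCpos.le
    rw [norm_inv, Real.norm_of_nonneg (by linarith)]
    calc (1 - (x - m) * t)⁻¹ ≤ (1 / 2 : ℝ)⁻¹ := inv_anti₀ (by norm_num) hx2
      _ = 2 := by norm_num
  have hint2 : Integrable (fun x : ℝ => x - m) μ := hintr.sub (integrable_const m)
  have hdiff : ∫ x, ((x - m) * (1 - (x - m) * t)⁻¹ - (x - m)) ∂μ = 0 := by
    rw [integral_sub hint1 hint2, hreal, hmean2, sub_zero]
  have hnonneg : 0 ≤ᵐ[μ] fun x => (x - m) * (1 - (x - m) * t)⁻¹ - (x - m) := by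
    filter_upwards [hden] with x hx
    have hpos : 0 < 1 - (x - m) * t := by linarith
    have e : (x - m) * (1 - (x - m) * t)⁻¹ - (x - m) = (x - m) ^ 2 * t * (1 - (x - m) * t)⁻¹ := by
      field_simp
      ring
    show 0 ≤ (x - m) * (1 - (x - m) * t)⁻¹ - (x - m)
    rw [e]
    positivity
  have hzero := (integral_eq_zero_iff_of_nonneg_ae hnonneg (hint1.sub hint2)).mp hdiff
  filter_upwards [hzero, hden] with x hx hx2
  have hpos : 0 < 1 - (x - m) * t := by linarith
  have e : (x - m) * (1 - (x - m) * t)⁻¹ - (x - m) = (x - m) ^ 2 * (t * (1 - (x - m) * t)⁻¹) := by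
    field_simp
    ring
  have hx' : (x - m) * (1 - (x - m) * t)⁻¹ - (x - m) = 0 := hx
  rw [e] at hx'
  have hpos2 : 0 < t * (1 - (x - m) * t)⁻¹ := by positivity
  have : (x - m) ^ 2 = 0 := by
    rcases mul_eq_zero.mp hx' with h | h
    · exact h
    · exact absurd h hpos2.ne'
  have := pow_eq_zero_iff (two_ne_zero) |>.mp this
  linarith

end Pool.Agent.Helper509.Dirac
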