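import Mathlib
import Pool.Agent.Helper509.SphDefs

set_option autoImplicit false

open MeasureTheory Filter Topology Set

namespace Pool.Agent.Helper509.Semi

open Pool.Agent.Helper509.SphDefs

theorem density_meas : Measurable (fun x : ℝ => (2 * Real.pi)⁻¹ * √(4 - x ^ 2)) := by
  fun_prop

theorem density_zero {x : ℝ} (hx : x ∉ Icc (-2 : ℝ) 2) : (2 * Real.pi)⁻¹ * √(4 - x ^ 2) = 0 := by
  have : √(4 - x ^ 2) = 0 := by
    apply Real.sqrt_eq_zero_of_nonpos
    rw [mem_Icc, not_and_or, not_le, not_le] at hx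
    rcases hx with hx | hx <;> nlinarith
  rw [this, mul_zero]

theorem integral_semicircle (φ : ℝ → ℂ) :
    ∫ x, φ x ∂semicircle = ∫ x in (-2 : ℝ)..2, ((2 * Real.pi)⁻¹ * √(4 - x ^ 2)) • φ x := by
  unfold semicircle
  rw [integral_withDensity_eq_integral_toReal_smul density_meas.ennreal_ofReal
    (Eventually.of_forall fun _ => ENNReal.ofReal_lt_top)]
  rw [intervalIntegral.integral_of_le (by norm_num), ← integral_Icc_eq_integral_Ioc,
    ← integral_indicator measurableSet_Icc]
  congr 1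
  ext x
  have h0 : 0 ≤ (2 * Real.pi)⁻¹ * √(4 - x ^ 2) := by positivity
  rw [ENNReal.toReal_ofReal h0]
  by_cases hx : x ∈ Icc (-2 : ℝ) 2
  · rw [indicator_of_mem hx]
  · rw [indicator_of_notMem hx, density_zero hx, zero_smul]

theorem integral_theta (φ : ℝ → ℂ) (hφ : ContinuousOn φ (Icc (-2) 2)) :
    ∫ x, φ x ∂semicircle = ∫ θ in (0 : ℝ)..Real.pi, ((2 / Real.pi) * Real.sin θ ^ 2) • φ (2 * Real.cos θ) := by
  rw [integral_semicircle]
  have hpi := Real.pi_pos
  have himg : (fun θ : ℝ => 2 * Real.cos θ) '' (uIcc Real.pi 0) ⊆ Icc (-2) 2 := by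
    rintro _ ⟨θ, _, rfl⟩
    have h1 := Real.neg_one_le_cos θ
    have h2 := Real.cos_le_one θ
    exact ⟨by simp only; linarith, by simp only; linarith⟩
  have hg : ContinuousOn (fun x : ℝ => ((2 * Real.pi)⁻¹ * √(4 - x ^ 2)) • φ x)
      ((fun θ : ℝ => 2 * Real.cos θ) '' (uIcc Real.pi 0)) := by
    apply ContinuousOn.fun_smul
    · apply Continuous.continuousOn; fun_prop
    · exact hφ.mono himg
  have key := intervalIntegral.integral_deriv_smul_comp'' (a := Real.pi) (b := 0)
    (f := fun θ : ℝ => 2 * Real.cos θ) (f' := fun θ => 2 * (-Real.sin θ))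
    (g := fun x : ℝ => ((2 * Real.pi)⁻¹ * √(4 - x ^ 2)) • φ x)
    (by apply Continuous.continuousOn; fun_prop)
    (by
      intro θ _
      exact ((Real.hasDerivAt_cos θ).const_mul 2).hasDerivWithinAt)
    (by apply Continuous.continuousOn; fun_prop) hg
  simp only [Real.cos_pi, Real.cos_zero, Function.comp_apply] at key
  have e1 : (2 : ℝ) * -1 = -2 := by norm_num
  have e2 : (2 : ℝ) * 1 = 2 := by norm_num
  rw [e1, e2] at key
  rw [← key, intervalIntegral.integral_symm, ← intervalIntegral.integral_neg]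
  apply intervalIntegral.integral_congr
  intro θ hθ
  rw [uIcc_of_le hpi.le] at hθ
  have hsin : 0 ≤ Real.sin θ := Real.sin_nonneg_of_mem_Icc hθ
  have hsq : √(4 - (2 * Real.cos θ) ^ 2) = 2 * Real.sin θ := by
    rw [show 4 - (2 * Real.cos θ) ^ 2 = (2 * Real.sin θ) ^ 2 by
      have := Real.sin_sq_add_cos_sq θ; nlinarith]
    exact Real.sqrt_sq (by positivity)
  simp only
  rw [hsq, smul_smul, ← neg_smul]
  congr 1
  field_simp

instance : IsProbabilityMeasure semicircle := by
  refine ⟨?_⟩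
  unfold semicircle
  rw [withDensity_apply _ MeasurableSet.univ, Measure.restrict_univ]
  have hint : Integrable (fun x : ℝ => (2 * Real.pi)⁻¹ * √(4 - x ^ 2)) := by
    have h1 : IntegrableOn (fun x : ℝ => (2 * Real.pi)⁻¹ * √(4 - x ^ 2)) (Icc (-2) 2) := by
      apply ContinuousOn.integrableOn_compact isCompact_Icc
      apply Continuous.continuousOn; fun_prop
    rw [← integrable_indicator_iff measurableSet_Icc] at h1
    refine h1.congr ?_
    filter_upwards with x
    by_cases hx : x ∈ Icc (-2 : ℝ) 2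
    · rw [indicator_of_mem hx]
    · rw [indicator_of_notMem hx, density_zero hx]
  rw [← ofReal_integral_eq_lintegral_ofReal hint (Eventually.of_forall fun x => by positivity)]
  have h1 : ((∫ x : ℝ, (2 * Real.pi)⁻¹ * √(4 - x ^ 2) : ℝ) : ℂ) = 1 := by
    have h2 : ∫ x, (1 : ℂ) ∂semicircle = ((∫ x : ℝ, (2 * Real.pi)⁻¹ * √(4 - x ^ 2) : ℝ) : ℂ) := by
      rw [← integral_complex_ofReal]
      unfold semicircle
      rw [integral_withDensity_eq_integral_toReal_smul density_meas.ennreal_ofReal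
        (Eventually.of_forall fun _ => ENNReal.ofReal_lt_top)]
      congr 1
      ext x
      have h0 : 0 ≤ (2 * Real.pi)⁻¹ * √(4 - x ^ 2) := by positivity
      rw [ENNReal.toReal_ofReal h0, Complex.real_smul, mul_one]
    rw [← h2, integral_theta _ continuousOn_const]
    have h3 : ∀ θ : ℝ, ((2 / Real.pi) * Real.sin θ ^ 2) • (1 : ℂ) = (((2 / Real.pi) * Real.sin θ ^ 2 : ℝ) : ℂ) := by
      intro θ; rw [Complex.real_smul, mul_one]
    simp only [h3]
    rw [intervalIntegral.integral_ofReal, intervalIntegral.integral_const_mul, integral_sin_sq]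
    simp
  have h4 : (∫ x : ℝ, (2 * Real.pi)⁻¹ * √(4 - x ^ 2)) = 1 := by exact_mod_cast h1
  rw [h4, ENNReal.ofReal_one]

theorem semicircle_support : semicircle (Icc (-2) 2)ᶜ = 0 := by
  unfold semicircle
  rw [withDensity_apply _ measurableSet_Icc.compl]
  rw [setLIntegral_congr_fun (g := fun _ => 0) measurableSet_Icc.compl, lintegral_zero]
  intro x hx
  simp only
  rw [density_zero hx, ENNReal.ofReal_zero]

theorem cauchy_semicircle {z : ℂ} (hz0 : z ≠ 0) (hz1 : ‖z‖ < 1) :
    cauchyT semicircle (z + 1 / z) = z := by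
  have hpi : (Real.pi : ℂ) ≠ 0 := Complex.ofReal_ne_zero.mpr Real.pi_ne_zero
  -- nonvanishing of 1 - z ζ
  have hne : ∀ ζ : ℂ, ‖ζ‖ ≤ 1 → 1 - z * ζ ≠ 0 := by
    intro ζ hζ h0
    have h1 : z * ζ = 1 := (sub_eq_zero.mp h0).symm
    have h2 : ‖z * ζ‖ < 1 := by
      rw [norm_mul]
      calc ‖z‖ * ‖ζ‖ ≤ ‖z‖ * 1 := mul_le_mul_of_nonneg_left hζ (norm_nonneg _)
        _ < 1 := by rw [mul_one]; exact hz1
    rw [h1, norm_one] at h2
    exact lt_irrefl _ h2
  have hEn : ∀ θ : ℝ, ‖Complex.exp (θ * Complex.I)‖ = 1 := fun θ => Complex.norm_exp_ofReal_mul_I θ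
  have hfac : ∀ θ : ℝ, z * (z + 1 / z - (2 * Real.cos θ : ℝ)) =
      (1 - z * Complex.exp (θ * Complex.I)) * (1 - z * Complex.exp (((-θ : ℝ) : ℂ) * Complex.I)) := by
    intro θ
    have h1 : Complex.exp (θ * Complex.I) * Complex.exp (((-θ : ℝ) : ℂ) * Complex.I) = 1 := by
      rw [← Complex.exp_add]
      have : (θ : ℂ) * Complex.I + ((-θ : ℝ) : ℂ) * Complex.I = 0 := by push_cast; ring
      rw [this, Complex.exp_zero]
    have h2 : ((2 * Real.cos θ : ℝ) : ℂ) = Complex.exp (θ * Complex.I) + Complex.exp (((-θ : ℝ) : ℂ) * Complex.I) := by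
      push_cast
      rw [Complex.cos]
      ring_nf
    rw [h2]
    have h3 : z * (z + 1 / z - (Complex.exp (θ * Complex.I) + Complex.exp (((-θ : ℝ) : ℂ) * Complex.I))) =
        z ^ 2 + 1 - z * (Complex.exp (θ * Complex.I) + Complex.exp (((-θ : ℝ) : ℂ) * Complex.I)) := by
      field_simp
    rw [h3]
    linear_combination (-z ^ 2) * h1
  have hwne : ∀ θ : ℝ, z + 1 / z - (2 * Real.cos θ : ℝ) ≠ 0 := by
    intro θ h0
    have := hfac θ
    rw [h0, mul_zero] at this
    exact mul_ne_zero (hne _ (hEn θ).le) (hne _ (hEn (-θ)).le) this.symm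
  have hcont : ContinuousOn (fun x : ℝ => (z + 1 / z - (x : ℂ))⁻¹) (Icc (-2) 2) := by
    apply ContinuousOn.inv₀
    · apply Continuous.continuousOn; fun_prop
    · intro x hx
      have h1 : x = 2 * Real.cos (Real.arccos (x / 2)) := by
        rw [Real.cos_arccos (by linarith [hx.1]) (by linarith [hx.2])]
        ring
      rw [h1]
      exact hwne _
  unfold cauchyT
  rw [integral_theta _ hcont]
  -- the function B
  set B : ℂ → ℂ := fun ζ => z * (1 - ζ ^ 2) / (1 - z * ζ) with hB
  have hident : ∀ θ : ℝ, ((2 / Real.pi) * Real.sin θ ^ 2) • (z + 1 / z - ((2 * Real.cos θ : ℝ) : ℂ))⁻¹ =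
      (1 / (2 * Real.pi : ℂ)) * (B (Complex.exp (θ * Complex.I)) + B (Complex.exp (((-θ : ℝ) : ℂ) * Complex.I))) := by
    intro θ
    set e := Complex.exp (θ * Complex.I) with he
    set e' := Complex.exp (((-θ : ℝ) : ℂ) * Complex.I) with he'
    have h1 : e * e' = 1 := by
      rw [he, he', ← Complex.exp_add]
      have : (θ : ℂ) * Complex.I + ((-θ : ℝ) : ℂ) * Complex.I = 0 := by push_cast; ring
      rw [this, Complex.exp_zero]
    have h2 : (1 - z * e) ≠ 0 := hne _ (hEn θ).le
    have h3 : (1 - z * e') ≠ 0 := hne _ (hEn (-θ)).le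
    have h4 : (z + 1 / z - ((2 * Real.cos θ : ℝ) : ℂ))⁻¹ = z / ((1 - z * e) * (1 - z * e')) := by
      have := hfac θ
      rw [← he, ← he'] at this
      rw [← this]
      have hw := hwne θ
      field_simp
    have h5 : (4 : ℂ) * ((Real.sin θ : ℝ) : ℂ) ^ 2 = 2 - e ^ 2 - e' ^ 2 := by
      have hs : ((Real.sin θ : ℝ) : ℂ) = (e' - e) * Complex.I / 2 := by
        rw [Complex.ofReal_sin, Complex.sin, he, he']
        push_cast
        ring_nf
      rw [hs]
      linear_combination (e' - e) ^ 2 * Complex.I_sq + 2 * h1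
    rw [h4, Complex.real_smul]
    simp only [hB]
    push_cast
    rw [div_add_div _ _ h2 h3]
    have h6 : z * (1 - e ^ 2) * (1 - z * e') + (1 - z * e) * (z * (1 - e' ^ 2)) = z * (2 - e ^ 2 - e' ^ 2) := by
      linear_combination (z ^ 2 * (e + e')) * h1
    rw [h6, ← h5]
    push_cast
    field_simp
    ring
  simp only [hident]
  rw [intervalIntegral.integral_const_mul]
  have hBc : Continuous (fun θ : ℝ => B (Complex.exp (θ * Complex.I))) := by
    simp only [hB]
    apply Continuous.div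
    · fun_prop
    · fun_prop
    · intro θ; exact hne _ (hEn θ).le
  have hBc' : Continuous (fun θ : ℝ => B (Complex.exp (((-θ : ℝ) : ℂ) * Complex.I))) :=
    hBc.comp continuous_neg
  rw [intervalIntegral.integral_add (hBc.intervalIntegrable _ _) (hBc'.intervalIntegrable _ _)]
  have hneg : ∫ θ in (0 : ℝ)..Real.pi, B (Complex.exp (((-θ : ℝ) : ℂ) * Complex.I)) =
      ∫ θ in (-Real.pi)..0, B (Complex.exp (θ * Complex.I)) := by
    have := intervalIntegral.integral_comp_neg (a := 0) (b := Real.pi) (fun θ : ℝ => B (Complex.exp (θ * Complex.I)))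
    rw [neg_zero] at this
    exact this
  rw [hneg, add_comm, intervalIntegral.integral_add_adjacent_intervals (hBc.intervalIntegrable _ _)
    (hBc.intervalIntegrable _ _)]
  have hper : (fun θ : ℝ ↦ B (circleMap 0 1 θ)).Periodic (2 * Real.pi) :=
    fun x ↦ by simp [periodic_circleMap 0 1 x]
  have hcm : ∀ θ : ℝ, B (Complex.exp (θ * Complex.I)) = B (circleMap 0 1 θ) := by
    intro θ; simp [circleMap]
  have h7 := hper.intervalIntegral_add_eq (-Real.pi) 0
  rw [zero_add, show -Real.pi + 2 * Real.pi = Real.pi by ring] at h7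
  simp only [hcm]
  rw [h7]
  have hdiff : DiffContOnCl ℂ B (Metric.ball 0 |1|) := by
    rw [abs_one]
    apply DifferentiableOn.diffContOnCl_ball (U := Metric.closedBall 0 1) _ subset_rfl
    intro ζ hζ
    apply DifferentiableAt.differentiableWithinAt
    have := hne ζ (by simpa using hζ)
    simp only [hB]
    fun_prop (disch := exact this)
  have h8 := hdiff.circleAverage
  rw [Real.circleAverage_def] at h8
  have h9 : ∫ θ in (0 : ℝ)..2 * Real.pi, B (circleMap 0 1 θ) = (2 * Real.pi : ℝ) • B 0 := by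
    rw [← h8, smul_smul, mul_inv_cancel₀ (by positivity), one_smul]
  rw [h9]
  simp only [hB, Complex.real_smul]
  push_cast
  field_simp
  ring

end Pool.Agent.Helper509.Semi
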