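import Mathlib
import Pool.Agent.Helper509.SphDefs
import Pool.Agent.Helper509.Semi

set_option autoImplicit false

open MeasureTheory Filter Topology Set

namespace Pool.Agent.Helper509.Emp

open Pool.Agent.Helper509.SphDefs Pool.Agent.Helper509.Semi

/-- Riemann sums of a continuous function converge -/
theorem riemann_tendsto (h : ℝ → ℝ) (hc : Continuous h) :
    Tendsto (fun n : ℕ => (∑ i ∈ Finset.range n, h (i / n)) / (n : ℝ)) atTop (𝓝 (∫ t in (0 : ℝ)..1, h t)) := by
  rw [Metric.tendsto_atTop]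
  intro ε hε
  have huc : UniformContinuousOn h (Icc 0 1) :=
    isCompact_Icc.uniformContinuousOn_of_continuous hc.continuousOn
  rw [Metric.uniformContinuousOn_iff] at huc
  obtain ⟨δ, hδ, huc⟩ := huc (ε / 2) (by positivity)
  obtain ⟨n0, hn0⟩ := exists_nat_gt (1 / δ)
  refine ⟨max n0 1, fun n hn => ?_⟩
  have hn1 : 1 ≤ n := (le_max_right _ _).trans hn
  have hn0' : n0 ≤ n := (le_max_left _ _).trans hn
  have hnpos : (0 : ℝ) < n := by exact_mod_cast hn1
  have hnδ : 1 / (n : ℝ) < δ := by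
    rw [div_lt_iff₀ hnpos]
    rw [div_lt_iff₀ hδ] at hn0
    have : (n0 : ℝ) ≤ n := by exact_mod_cast hn0'
    nlinarith
  have hsplit : ∫ t in (0 : ℝ)..1, h t = ∑ i ∈ Finset.range n, ∫ t in ((i : ℝ) / n)..(((i + 1 : ℕ) : ℝ) / n), h t := by
    rw [intervalIntegral.sum_integral_adjacent_intervals (a := fun i : ℕ => (i : ℝ) / n)]
    · simp [div_self hnpos.ne']
    · intro k _
      exact hc.intervalIntegrable _ _
  rw [Real.dist_eq, hsplit, Finset.sum_div, ← Finset.sum_sub_distrib]
  calc |∑ i ∈ Finset.range n, (h ((i : ℝ) / n) / n - ∫ t in ((i : ℝ) / n)..(((i + 1 : ℕ) : ℝ) / n), h t)|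
      ≤ ∑ i ∈ Finset.range n, |h ((i : ℝ) / n) / n - ∫ t in ((i : ℝ) / n)..(((i + 1 : ℕ) : ℝ) / n), h t| :=
        Finset.abs_sum_le_sum_abs _ _
    _ ≤ ∑ _i ∈ Finset.range n, (ε / 2) * (1 / n) := by
        apply Finset.sum_le_sum
        intro i hi
        have hin : i < n := Finset.mem_range.mp hi
        have hlen : (((i + 1 : ℕ) : ℝ) / n) - ((i : ℝ) / n) = 1 / n := by push_cast; field_simp; ring
        have hle : (i : ℝ) / n ≤ ((i + 1 : ℕ) : ℝ) / n := by
          apply div_le_div_of_nonneg_right _ hnpos.le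
          push_cast; linarith
        have e1 : h ((i : ℝ) / n) / n = ∫ t in ((i : ℝ) / n)..(((i + 1 : ℕ) : ℝ) / n), h ((i : ℝ) / n) := by
          rw [intervalIntegral.integral_const, hlen, smul_eq_mul]; ring
        rw [e1, ← intervalIntegral.integral_sub (intervalIntegrable_const) (hc.intervalIntegrable _ _)]
        have key := intervalIntegral.norm_integral_le_of_norm_le_const (a := (i : ℝ) / n)
          (b := ((i + 1 : ℕ) : ℝ) / n) (C := ε / 2) (f := fun t => h ((i : ℝ) / n) - h t) ?_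
        · rw [Real.norm_eq_abs, hlen, abs_of_nonneg (show (0 : ℝ) ≤ 1 / (n : ℝ) by positivity)] at key
          exact key
        · intro t ht
          rw [uIoc_of_le hle] at ht
          have hi0 : 0 ≤ (i : ℝ) / n := by positivity
          have hi1 : ((i + 1 : ℕ) : ℝ) / n ≤ 1 := by
            rw [div_le_one hnpos]
            exact_mod_cast hin
          have h1 := huc ((i : ℝ) / n) ⟨hi0, hle.trans hi1⟩ t ⟨hi0.trans ht.1.le, ht.2.trans hi1⟩ (by
            rw [Real.dist_eq, abs_sub_comm, abs_of_nonneg (by linarith [ht.1])]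
            linarith [ht.2])
          rw [Real.dist_eq] at h1
          rw [Real.norm_eq_abs]
          exact h1.le
    _ = ε / 2 := by
        rw [Finset.sum_const, Finset.card_range, nsmul_eq_mul]
        field_simp
    _ < ε := by linarith

/-- eigenvalues of a real diagonal matrix -/
theorem sum_eigenvalues_diagonal {n : ℕ} (d : Fin n → ℝ)
    (hE : (Matrix.diagonal (fun i => ((d i : ℝ) : ℂ))).IsHermitian) (φ : ℝ → ℝ) :
    ∑ i, φ (hE.eigenvalues i) = ∑ i, φ (d i) := by
  have h1 := hE.roots_charpoly_eq_eigenvalues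
  rw [Matrix.charpoly_diagonal, Polynomial.roots_prod _ _ (by
    rw [Finset.prod_ne_zero_iff]
    intro i _
    exact Polynomial.X_sub_C_ne_zero _)] at h1
  simp only [Polynomial.roots_X_sub_C, Multiset.bind_singleton] at h1
  have h2 : Multiset.map (fun x : ℝ => (x : ℂ)) (Multiset.map d Finset.univ.val) =
      Multiset.map (fun x : ℝ => (x : ℂ)) (Multiset.map hE.eigenvalues Finset.univ.val) := by
    rw [Multiset.map_map, Multiset.map_map]
    exact h1
  have h3 := Multiset.map_injective Complex.ofReal_injective h2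
  have h4 : (Multiset.map φ (Multiset.map d Finset.univ.val)).sum =
      (Multiset.map φ (Multiset.map hE.eigenvalues Finset.univ.val)).sum := by rw [h3]
  rw [Multiset.map_map, Multiset.map_map] at h4
  exact h4.symm

theorem eigenvalues_diagonal_mem {n : ℕ} (d : Fin n → ℝ)
    (hE : (Matrix.diagonal (fun i => ((d i : ℝ) : ℂ))).IsHermitian) (C : ℝ) (hd : ∀ i, |d i| ≤ C) (i : Fin n) :
    |hE.eigenvalues i| ≤ C := by
  classical
  by_contra hcon
  have h1 := sum_eigenvalues_diagonal d hE (fun x => if |x| ≤ C then 0 else 1)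
  have h2 : ∑ i, (if |d i| ≤ C then (0 : ℝ) else 1) = 0 := by
    apply Finset.sum_eq_zero
    intro j _
    rw [if_pos (hd j)]
  rw [h2] at h1
  have h3 : (1 : ℝ) ≤ ∑ i, (if |hE.eigenvalues i| ≤ C then (0 : ℝ) else 1) := by
    calc (1 : ℝ) = if |hE.eigenvalues i| ≤ C then (0 : ℝ) else 1 := by rw [if_neg hcon]
      _ ≤ _ := Finset.single_le_sum (f := fun i => if |hE.eigenvalues i| ≤ C then (0 : ℝ) else 1)
        (fun j _ => by positivity) (Finset.mem_univ i)
  linarith

/-- distribution function of the angle -/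
noncomputable def Phi (θ : ℝ) : ℝ := (θ - Real.sin θ * Real.cos θ) / Real.pi

theorem Phi_deriv (θ : ℝ) : HasDerivAt Phi ((2 / Real.pi) * Real.sin θ ^ 2) θ := by
  unfold Phi
  have h1 := ((hasDerivAt_id θ).sub ((Real.hasDerivAt_sin θ).mul (Real.hasDerivAt_cos θ))).div_const Real.pi
  have e : (1 - (Real.cos θ * Real.cos θ + Real.sin θ * -Real.sin θ)) / Real.pi = (2 / Real.pi) * Real.sin θ ^ 2 := by
    have := Real.sin_sq_add_cos_sq θ
    have : 1 - (Real.cos θ * Real.cos θ + Real.sin θ * -Real.sin θ) = 2 * Real.sin θ ^ 2 := by nlinarith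
    rw [this]; ring
  rw [e] at h1
  exact h1

theorem Phi_cont : Continuous Phi := by
  unfold Phi; fun_prop

theorem Phi_strictMono : StrictMonoOn Phi (Icc 0 Real.pi) := by
  apply strictMonoOn_of_deriv_pos (convex_Icc _ _) Phi_cont.continuousOn
  intro x hx
  rw [interior_Icc] at hx
  rw [(Phi_deriv x).deriv]
  have := Real.sin_pos_of_mem_Ioo hx
  have := Real.pi_pos
  positivity

theorem Phi_zero : Phi 0 = 0 := by simp [Phi]

theorem Phi_pi : Phi Real.pi = 1 := by
  simp [Phi, Real.pi_ne_zero]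

theorem exists_quantile : ∃ q : ℝ → ℝ, Continuous q ∧ (∀ t ∈ Icc (0 : ℝ) 1, q t ∈ Icc 0 Real.pi) ∧
    ∀ θ ∈ Icc 0 Real.pi, q (Phi θ) = θ := by
  have hpi := Real.pi_pos.le
  have hmaps : MapsTo Phi (Icc 0 Real.pi) (Icc 0 1) := by
    intro θ hθ
    constructor
    · rw [← Phi_zero]
      exact Phi_strictMono.monotoneOn (left_mem_Icc.mpr hpi) hθ hθ.1
    · rw [← Phi_pi]
      exact Phi_strictMono.monotoneOn hθ (right_mem_Icc.mpr hpi) hθ.2
  let f : Icc 0 Real.pi → Icc (0 : ℝ) 1 := fun θ => ⟨Phi θ, hmaps θ.2⟩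
  have hfc : Continuous f := (Phi_cont.comp continuous_subtype_val).subtype_mk _
  have hinj : Function.Injective f := by
    intro a b hab
    have h1 : Phi a = Phi b := congrArg Subtype.val hab
    exact Subtype.ext (Phi_strictMono.injOn a.2 b.2 h1)
  have hsurj : Function.Surjective f := by
    rintro ⟨t, ht⟩
    have := intermediate_value_Icc hpi Phi_cont.continuousOn
    rw [Phi_zero, Phi_pi] at this
    obtain ⟨θ, hθ, hθt⟩ := this ht
    exact ⟨⟨θ, hθ⟩, Subtype.ext hθt⟩
  let e := Equiv.ofBijective f ⟨hinj, hsurj⟩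
  have hec : Continuous e := hfc
  let E := hec.homeoOfEquivCompactToT2
  refine ⟨fun t => (E.symm (projIcc 0 1 zero_le_one t) : ℝ), ?_, ?_, ?_⟩
  · exact continuous_subtype_val.comp (E.symm.continuous.comp continuous_projIcc)
  · intro t _
    exact (E.symm (projIcc 0 1 zero_le_one t)).2
  · intro θ hθ
    have h1 : projIcc 0 1 zero_le_one (Phi θ) = e ⟨θ, hθ⟩ := projIcc_of_mem _ (hmaps hθ)
    simp only [h1]
    have : E.symm (e ⟨θ, hθ⟩) = ⟨θ, hθ⟩ := e.symm_apply_apply _
    rw [this]

/-- integral of a real continuous function against the semicircle law -/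
theorem integral_semicircle_real (φ : ℝ → ℝ) (hφ : Continuous φ) :
    ∫ x, φ x ∂semicircle = ∫ θ in (0 : ℝ)..Real.pi, ((2 / Real.pi) * Real.sin θ ^ 2) * φ (2 * Real.cos θ) := by
  have h1 := integral_theta (fun x => ((φ x : ℝ) : ℂ)) (by
    apply Continuous.continuousOn
    exact Complex.continuous_ofReal.comp hφ)
  rw [integral_complex_ofReal] at h1
  have h2 : ∀ θ : ℝ, ((2 / Real.pi) * Real.sin θ ^ 2) • ((φ (2 * Real.cos θ) : ℝ) : ℂ) =
      ((((2 / Real.pi) * Real.sin θ ^ 2) * φ (2 * Real.cos θ) : ℝ) : ℂ) := by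
    intro θ
    rw [Complex.real_smul]
    push_cast
    ring
  simp only [h2] at h1
  rw [intervalIntegral.integral_ofReal] at h1
  exact_mod_cast h1

/-- There is an admissible sequence for the semicircle law. -/
theorem exists_admissible : ∃ E : ∀ n : ℕ, Matrix (Fin n) (Fin n) ℂ, Admissible E semicircle := by
  obtain ⟨q, hq, hqmem, hqPhi⟩ := exists_quantile
  let d : ∀ n : ℕ, Fin n → ℝ := fun n i => 2 * Real.cos (q ((i : ℝ) / n))
  let E : ∀ n : ℕ, Matrix (Fin n) (Fin n) ℂ := fun n => Matrix.diagonal (fun i => ((d n i : ℝ) : ℂ))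
  have hE : ∀ n, (E n).IsHermitian := by
    intro n
    apply Matrix.isHermitian_diagonal_of_self_adjoint
    ext i
    simp
  refine ⟨E, hE, ?_, ?_⟩
  · refine ⟨2, fun n i => ?_⟩
    apply eigenvalues_diagonal_mem (d n) (hE n) 2
    intro j
    simp only [d]
    rw [abs_mul, abs_two]
    have := Real.abs_cos_le_one (q ((j : ℝ) / n))
    linarith
  · intro φ
    have hφc : Continuous (fun x => φ x) := φ.continuous
    rw [integral_semicircle_real _ hφc]
    have hsub : ∫ θ in (0 : ℝ)..Real.pi, ((2 / Real.pi) * Real.sin θ ^ 2) * φ (2 * Real.cos θ) =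
        ∫ t in (0 : ℝ)..1, φ (2 * Real.cos (q t)) := by
      have key := intervalIntegral.integral_comp_mul_deriv'' (a := 0) (b := Real.pi)
        (f := Phi) (f' := fun θ => (2 / Real.pi) * Real.sin θ ^ 2)
        (g := fun t => φ (2 * Real.cos (q t))) Phi_cont.continuousOn
        (fun θ _ => (Phi_deriv θ).hasDerivWithinAt)
        (by apply Continuous.continuousOn; fun_prop)
        (by apply Continuous.continuousOn; fun_prop)
      rw [Phi_zero, Phi_pi] at key
      rw [← key]
      apply intervalIntegral.integral_congr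
      intro θ hθ
      rw [uIcc_of_le Real.pi_pos.le] at hθ
      simp only [Function.comp_apply]
      rw [hqPhi θ hθ, mul_comm]
    rw [hsub]
    have hR := riemann_tendsto (fun t => φ (2 * Real.cos (q t))) (by fun_prop)
    refine hR.congr fun n => ?_
    congr 1
    rw [sum_eigenvalues_diagonal (d n) (hE n) (fun x => φ x)]
    rw [Finset.sum_range]

theorem isRTransform_scaled (k : ℕ) (hk : 1 ≤ k) :
    IsRTransform (semicircle.map (fun x => x / √k)) (fun z => z / k) := by
  have hk0 : (0 : ℝ) < k := by exact_mod_cast hk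
  have hs0 : 0 < √(k : ℝ) := Real.sqrt_pos.mpr hk0
  refine ⟨by fun_prop, ?_⟩
  have hball : ∀ᶠ z in 𝓝[≠] (0 : ℂ), z ≠ 0 ∧ ‖z‖ < √(k : ℝ) := by
    rw [eventually_nhdsWithin_iff]
    filter_upwards [Metric.ball_mem_nhds (0 : ℂ) hs0] with z hz hz0
    exact ⟨hz0, by simpa using hz⟩
  filter_upwards [hball] with z hz
  obtain ⟨hz0, hz1⟩ := hz
  have hs0' : ((√(k : ℝ) : ℝ) : ℂ) ≠ 0 := Complex.ofReal_ne_zero.mpr hs0.ne'
  have hsq : ((√(k : ℝ) : ℝ) : ℂ) ^ 2 = (k : ℂ) := by
    rw [← Complex.ofReal_pow, Real.sq_sqrt hk0.le, Complex.ofReal_natCast]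
  have hk0' : (k : ℂ) ≠ 0 := by rw [← hsq]; exact pow_ne_zero _ hs0'
  set u : ℂ := z / ((√(k : ℝ) : ℝ) : ℂ) with hu
  have hu0 : u ≠ 0 := div_ne_zero hz0 hs0'
  have hu1 : ‖u‖ < 1 := by
    rw [hu, norm_div, Complex.norm_real, Real.norm_of_nonneg hs0.le, div_lt_one hs0]
    exact hz1
  have hG := cauchy_semicircle hu0 hu1
  unfold cauchyT at hG ⊢
  rw [integral_map (by fun_prop) (by
    apply Measurable.aestronglyMeasurable
    fun_prop)]
  have e : ∀ x : ℝ, (z / (k : ℂ) + 1 / z - ((x / √(k : ℝ) : ℝ) : ℂ))⁻¹ =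
      ((√(k : ℝ) : ℝ) : ℂ) * (u + 1 / u - (x : ℂ))⁻¹ := by
    intro x
    have h1 : z / (k : ℂ) + 1 / z - ((x / √(k : ℝ) : ℝ) : ℂ) = (u + 1 / u - (x : ℂ)) / ((√(k : ℝ) : ℝ) : ℂ) := by
      rw [hu, ← hsq]
      push_cast
      field_simp
    rw [h1, inv_div, div_eq_mul_inv]
  simp only [e]
  rw [integral_const_mul, hG, hu]
  field_simp

theorem compactProb_scaled (k : ℕ) (hk : 1 ≤ k) : CompactProb (semicircle.map (fun x => x / √k)) := by
  have hk1 : (1 : ℝ) ≤ k := by exact_mod_cast hk
  have hs1 : 1 ≤ √(k : ℝ) := Real.one_le_sqrt.mpr hk1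
  have hmeas : Measurable (fun x : ℝ => x / √(k : ℝ)) := by fun_prop
  refine ⟨Measure.isProbabilityMeasure_map hmeas.aemeasurable, 2, ?_⟩
  rw [Measure.map_apply hmeas measurableSet_Icc.compl]
  refine measure_mono_null ?_ semicircle_support
  intro x hx
  simp only [mem_preimage, mem_compl_iff] at hx ⊢
  intro hx2
  apply hx
  have hs0 : 0 < √(k : ℝ) := by linarith
  constructor
  · rw [le_div_iff₀ hs0]
    have := hx2.1
    nlinarith
  · rw [div_le_iff₀ hs0]
    have := hx2.2
    nlinarith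

theorem isRTransform_semicircle : IsRTransform semicircle (fun z => z) := by
  refine ⟨analyticAt_id, ?_⟩
  have hball : ∀ᶠ z in 𝓝[≠] (0 : ℂ), z ≠ 0 ∧ ‖z‖ < 1 := by
    rw [eventually_nhdsWithin_iff]
    filter_upwards [Metric.ball_mem_nhds (0 : ℂ) one_pos] with z hz hz0
    exact ⟨hz0, by simpa using hz⟩
  filter_upwards [hball] with z hz
  exact cauchy_semicircle hz.1 hz.2

theorem compactProb_semicircle : CompactProb semicircle :=
  ⟨inferInstance, 2, semicircle_support⟩

theorem freelyInfDiv_semicircle : FreelyInfDiv semicircle := by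
  intro k hk
  refine ⟨semicircle.map (fun x => x / √k), compactProb_scaled k hk, fun z => z / k,
    isRTransform_scaled k hk, ?_⟩
  have hk0 : (k : ℂ) ≠ 0 := by
    have : k ≠ 0 := by omega
    exact_mod_cast this
  have e : (fun z : ℂ => (k : ℂ) * (z / k)) = fun z => z := by
    ext z; field_simp
  rw [e]
  exact isRTransform_semicircle

theorem semicircle_not_dirac (c : ℝ) : semicircle ≠ Measure.dirac c := by
  intro h
  have h1 : semicircle {c} = 0 := by
    unfold semicircle
    rw [withDensity_apply _ (measurableSet_singleton c), Measure.restrict_singleton]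
    simp
  rw [h] at h1
  simp at h1

end Pool.Agent.Helper509.Emp
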