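import Mathlib

set_option autoImplicit false

open Metric Complex

namespace Pool.Agent.Helper509.Factor

/-- divide an entire function by a linear factor at a zero -/
theorem factor_step {f : ℂ → ℂ} (hf : Differentiable ℂ f) {ρ : ℂ} (h0 : f ρ = 0) :
    ∃ g : ℂ → ℂ, Differentiable ℂ g ∧ ∀ z, f z = (z - ρ) * g z := by
  refine ⟨dslope f ρ, ?_, ?_⟩
  · rw [← differentiableOn_univ]
    exact (Complex.differentiableOn_dslope Filter.univ_mem).mpr hf.differentiableOn
  · intro z
    have := sub_smul_dslope f ρ z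
    rw [h0, sub_zero, smul_eq_mul] at this
    exact this.symm

/-- zeros in a closed ball are controlled by the growth on the triple ball -/
theorem count_bound {f H : ℂ → ℂ} (hH : Differentiable ℂ H) {N : ℕ} {ρ : Fin N → ℂ} {c : ℂ} {r M : ℝ}
    (hr : 0 < r) (hfac : ∀ z, f z = (∏ i, (z - ρ i)) * H z)
    (hρ : ∀ i, ρ i ∈ closedBall c r) (hM : ∀ z ∈ sphere c (3 * r), ‖f z‖ ≤ M) :
    2 ^ N * ‖f c‖ ≤ M := by
  have h3r : (0 : ℝ) < 3 * r := by positivity
  have hHs : ∀ z ∈ sphere c (3 * r), ‖H z‖ ≤ M / (2 * r) ^ N := by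
    intro z hz
    have hge : ∀ i, 2 * r ≤ ‖z - ρ i‖ := by
      intro i
      have h1 : ‖z - c‖ = 3 * r := by simpa [dist_eq_norm] using hz
      have h2 : ‖ρ i - c‖ ≤ r := by simpa [dist_eq_norm] using hρ i
      have h3 : ‖z - c‖ ≤ ‖z - ρ i‖ + ‖ρ i - c‖ := by
        have : z - c = (z - ρ i) + (ρ i - c) := by ring
        rw [this]; exact norm_add_le _ _
      linarith
    have hprod : (2 * r) ^ N ≤ ‖∏ i, (z - ρ i)‖ := by
      rw [norm_prod]
      calc (2 * r) ^ N = ∏ _i : Fin N, (2 * r) := by simp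
        _ ≤ ∏ i, ‖z - ρ i‖ := Finset.prod_le_prod (fun _ _ => by positivity) (fun i _ => hge i)
    rw [le_div_iff₀ (by positivity)]
    calc ‖H z‖ * (2 * r) ^ N ≤ ‖H z‖ * ‖∏ i, (z - ρ i)‖ :=
          mul_le_mul_of_nonneg_left hprod (norm_nonneg _)
      _ = ‖f z‖ := by rw [hfac z, norm_mul, mul_comm]
      _ ≤ M := hM z hz
  have hHc : ‖H c‖ ≤ M / (2 * r) ^ N := by
    apply Complex.norm_le_of_forall_mem_frontier_norm_le (isBounded_ball (x := c) (r := 3 * r))
      hH.diffContOnCl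
    · intro z hz
      rw [frontier_ball c h3r.ne'] at hz
      exact hHs z hz
    · exact subset_closure (mem_ball_self h3r)
  have hprodc : ‖∏ i, (c - ρ i)‖ ≤ r ^ N := by
    rw [norm_prod]
    calc ∏ i, ‖c - ρ i‖ ≤ ∏ _i : Fin N, r := by
          apply Finset.prod_le_prod (fun _ _ => norm_nonneg _)
          intro i _
          have := hρ i
          rw [mem_closedBall, dist_comm, dist_eq_norm] at this
          exact this
      _ = r ^ N := by simp
  have hfc : ‖f c‖ ≤ r ^ N * (M / (2 * r) ^ N) := by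
    rw [hfac c, norm_mul]
    exact mul_le_mul hprodc hHc (norm_nonneg _) (by positivity)
  have e : r ^ N * (M / (2 * r) ^ N) = M / 2 ^ N := by
    rw [mul_pow]; field_simp
  rw [e, le_div_iff₀ (by positivity)] at hfc
  linarith

/-- Full factorisation of an entire function with respect to a closed ball. -/
theorem exists_factor {f : ℂ → ℂ} (hf : Differentiable ℂ f) (c : ℂ) {r : ℝ} (hr : 0 < r)
    (hc : f c ≠ 0) :
    ∃ (N : ℕ) (ρ : Fin N → ℂ) (H : ℂ → ℂ), Differentiable ℂ H ∧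
      (∀ z, f z = (∏ i, (z - ρ i)) * H z) ∧ (∀ i, ρ i ∈ closedBall c r) ∧
      (∀ z ∈ closedBall c r, H z ≠ 0) := by
  classical
  obtain ⟨M, hM⟩ : ∃ M : ℝ, ∀ z ∈ sphere c (3 * r), ‖f z‖ ≤ M :=
    (isCompact_sphere c (3 * r)).exists_bound_of_continuousOn hf.continuous.continuousOn
  let P : ℕ → Prop := fun N => ∃ (ρ : Fin N → ℂ) (H : ℂ → ℂ), Differentiable ℂ H ∧
      (∀ z, f z = (∏ i, (z - ρ i)) * H z) ∧ (∀ i, ρ i ∈ closedBall c r)
  have hP0 : P 0 := ⟨Fin.elim0, f, hf, by simp, by simp⟩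
  obtain ⟨K, hK⟩ : ∃ K : ℕ, M / ‖f c‖ < 2 ^ K := pow_unbounded_of_one_lt _ (by norm_num)
  have hbound : ∀ N, P N → N ≤ K := by
    rintro N ⟨ρ, H, hH, hfac, hρ⟩
    by_contra hlt
    push Not at hlt
    have h1 := count_bound hH hr hfac hρ hM
    have hfc : 0 < ‖f c‖ := norm_pos_iff.mpr hc
    rw [← le_div_iff₀ hfc] at h1
    have h2 : (2 : ℝ) ^ K ≤ 2 ^ N := pow_le_pow_right₀ (by norm_num) hlt.le
    linarith
  let N := Nat.findGreatest P K
  have hPN : P N := Nat.findGreatest_spec (m := 0) (by omega) hP0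
  obtain ⟨ρ, H, hH, hfac, hρ⟩ := hPN
  refine ⟨N, ρ, H, hH, hfac, hρ, ?_⟩
  intro z hz hHz
  obtain ⟨G, hG, hGfac⟩ := factor_step hH hHz
  have hP1 : P (N + 1) := by
    refine ⟨Fin.snoc ρ z, G, hG, ?_, ?_⟩
    · intro w
      rw [Fin.prod_univ_castSucc]
      simp only [Fin.snoc_castSucc, Fin.snoc_last]
      rw [hfac w, hGfac w, mul_assoc]
    · intro i
      refine Fin.lastCases ?_ (fun i => ?_) i
      · simpa using hz
      · simpa using hρ i
  have h1 := hbound _ hP1
  have h2 : N + 1 ≤ N := Nat.le_findGreatest h1 hP1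
  omega

/-- The counting bound for the part of the zeros lying in a given closed ball. -/
theorem count_sub_bound {f H : ℂ → ℂ} (hH : Differentiable ℂ H) {N : ℕ} {ρ : Fin N → ℂ}
    (hfac : ∀ z, f z = (∏ i, (z - ρ i)) * H z) (T : Finset (Fin N)) {c : ℂ} {r M : ℝ} (hr : 0 < r)
    (hT : ∀ i ∈ T, ρ i ∈ closedBall c r) (hM : ∀ z ∈ sphere c (3 * r), ‖f z‖ ≤ M) :
    2 ^ T.card * ‖f c‖ ≤ M := by
  classical
  let H' : ℂ → ℂ := fun z => (∏ i ∈ Tᶜ, (z - ρ i)) * H z
  have hH' : Differentiable ℂ H' := by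
    apply Differentiable.mul _ hH
    apply Differentiable.fun_finsetProd
    intro i _
    exact differentiable_id.sub_const _
  let e := T.orderEmbOfFin rfl
  apply count_bound (f := f) (H := H') hH' (ρ := fun i => ρ (e i)) hr _ _ hM
  · intro z
    have h1 : ∏ i : Fin T.card, (z - ρ (e i)) = ∏ i ∈ T, (z - ρ i) := by
      have : T = Finset.univ.map e.toEmbedding := by
        ext i
        simp only [Finset.mem_map, Finset.mem_univ, true_and]
        constructor
        · intro hi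
          have : i ∈ Set.range (T.orderEmbOfFin rfl) := by
            rw [Finset.range_orderEmbOfFin]; exact hi
          exact this
        · rintro ⟨j, rfl⟩
          exact Finset.orderEmbOfFin_mem T rfl j
      conv_rhs => rw [this]
      rw [Finset.prod_map]
      rfl
    rw [h1]
    show f z = (∏ i ∈ T, (z - ρ i)) * ((∏ i ∈ Tᶜ, (z - ρ i)) * H z)
    rw [← mul_assoc, Finset.prod_mul_prod_compl, hfac z]
  · intro i
    exact hT _ (Finset.orderEmbOfFin_mem T rfl i)

end Pool.Agent.Helper509.Factor
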