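import Mathlib
import Pool.Agent.Helper509.Factor

set_option autoImplicit false

open Metric Complex Set

namespace Pool.Agent.Helper509.Strip

open Pool.Agent.Helper509.Factor

/-- Properties of the two-sided Laplace transform `f` of a probability measure on `[-L, L]`,
`G` being its restriction to the real line. -/
structure LaplaceLike (f : ℂ → ℂ) (G : ℝ → ℝ) (L : ℝ) : Prop where
  diff : Differentiable ℂ f
  zero : f 0 = 1
  bound : ∀ z, ‖f z‖ ≤ G z.re
  real : ∀ x : ℝ, f (x : ℂ) = ((G x : ℝ) : ℂ)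
  pos : ∀ x, 0 < G x
  lip : ∀ x y, G x ≤ Real.exp (L * |x - y|) * G y
  conv : ∀ κ : ℝ, ConvexOn ℝ univ (fun x => Real.exp (-κ * x) * G x)

variable {f : ℂ → ℂ} {G : ℝ → ℝ} {L : ℝ}

theorem LaplaceLike.growth (h : LaplaceLike f G L) (hL : 0 ≤ L) (z : ℂ) :
    ‖f z‖ ≤ Real.exp (L * ‖z‖) := by
  have hG0 : G 0 = 1 := by
    have h1 := h.real 0
    have h2 := h.zero
    rw [Complex.ofReal_zero] at h1
    rw [h1] at h2
    exact_mod_cast h2
  calc ‖f z‖ ≤ G z.re := h.bound z
    _ ≤ Real.exp (L * |z.re - 0|) * G 0 := h.lip _ _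
    _ = Real.exp (L * |z.re|) := by rw [hG0, mul_one, sub_zero]
    _ ≤ Real.exp (L * ‖z‖) := by
        apply Real.exp_le_exp.mpr
        exact mul_le_mul_of_nonneg_left (Complex.abs_re_le_norm z) hL

theorem LaplaceLike.log_lip (h : LaplaceLike f G L) (x y : ℝ) :
    Real.log (G x) - Real.log (G y) ≤ L * |x - y| := by
  have h1 := Real.log_le_log (h.pos x) (h.lip x y)
  rw [Real.log_mul (Real.exp_pos _).ne' (h.pos y).ne', Real.log_exp] at h1
  linarith

/-- zeros in a disc centred on the real axis, controlled by a second difference of `log G` -/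
theorem local_count (h : LaplaceLike f G L) {H : ℂ → ℂ} (hH : Differentiable ℂ H) {N : ℕ}
    {ρ : Fin N → ℂ} (hfac : ∀ z, f z = (∏ i, (z - ρ i)) * H z) (T : Finset (Fin N))
    {x t : ℝ} (ht : 0 < t) (hT : ∀ i ∈ T, ρ i ∈ closedBall (x : ℂ) t) :
    (T.card : ℝ) * Real.log 2 ≤
      (Real.log (G (x + 3 * t)) + Real.log (G (x - 3 * t))) / 2 - Real.log (G x) := by
  set κ : ℝ := (Real.log (G (x + 3 * t)) - Real.log (G (x - 3 * t))) / (6 * t) with hκ
  set M : ℝ := Real.exp (-κ * (x + 3 * t)) * G (x + 3 * t) with hM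
  have hM2 : Real.exp (-κ * (x - 3 * t)) * G (x - 3 * t) = M := by
    have e1 : Real.exp (-κ * (x - 3 * t)) * G (x - 3 * t) =
        Real.exp (-κ * (x - 3 * t) + Real.log (G (x - 3 * t))) := by
      rw [Real.exp_add, Real.exp_log (h.pos _)]
    have e2 : M = Real.exp (-κ * (x + 3 * t) + Real.log (G (x + 3 * t))) := by
      rw [Real.exp_add, Real.exp_log (h.pos _)]
    rw [e1, e2]
    congr 1
    rw [hκ]
    field_simp
    ring
  have hMpos : 0 < M := mul_pos (Real.exp_pos _) (h.pos _)
  let f' : ℂ → ℂ := fun z => f z * Complex.exp (-(κ : ℂ) * z)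
  let H' : ℂ → ℂ := fun z => H z * Complex.exp (-(κ : ℂ) * z)
  have hH' : Differentiable ℂ H' := hH.mul ((differentiable_id.const_mul _).cexp)
  have hnorm : ∀ z : ℂ, ‖f' z‖ ≤ Real.exp (-κ * z.re) * G z.re := by
    intro z
    have e : ‖Complex.exp (-(κ : ℂ) * z)‖ = Real.exp (-κ * z.re) := by
      rw [Complex.norm_exp]
      congr 1
      simp
    show ‖f z * Complex.exp (-(κ : ℂ) * z)‖ ≤ _
    rw [norm_mul, e, mul_comm]
    exact mul_le_mul_of_nonneg_left (h.bound z) (Real.exp_pos _).le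
  have hsphere : ∀ z ∈ sphere (x : ℂ) (3 * t), ‖f' z‖ ≤ M := by
    intro z hz
    refine (hnorm z).trans ?_
    have hz1 : ‖z - x‖ = 3 * t := by simpa [dist_eq_norm] using hz
    have hz2 : |z.re - x| ≤ 3 * t := by
      have := Complex.abs_re_le_norm (z - x)
      rw [Complex.sub_re, Complex.ofReal_re] at this
      linarith
    have hz3 := abs_le.mp hz2
    have := (h.conv κ).le_max_of_mem_Icc (mem_univ (x - 3 * t)) (mem_univ (x + 3 * t))
      (z := z.re) ⟨by linarith, by linarith⟩
    rw [hM2] at this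
    simpa [hM] using this
  have hcount := count_sub_bound (f := f') (H := H') hH' (ρ := ρ) (by
    intro z
    show f z * _ = _ * (H z * _)
    rw [hfac z, mul_assoc]) T ht hT hsphere
  have hfx : ‖f' x‖ = Real.exp (-κ * x) * G x := by
    show ‖f x * Complex.exp (-(κ : ℂ) * x)‖ = _
    rw [norm_mul, h.real, Complex.norm_real, Real.norm_of_nonneg (h.pos x).le, Complex.norm_exp]
    rw [mul_comm]
    congr 2
    simp
  rw [hfx] at hcount
  have hlog := Real.log_le_log (by have := h.pos x; positivity) hcount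
  rw [Real.log_mul (by positivity) (mul_pos (Real.exp_pos _) (h.pos x)).ne', Real.log_pow,
    Real.log_mul (Real.exp_pos _).ne' (h.pos x).ne', Real.log_exp] at hlog
  have hlogM1 : Real.log M = -κ * (x + 3 * t) + Real.log (G (x + 3 * t)) := by
    rw [hM, Real.log_mul (Real.exp_pos _).ne' (h.pos _).ne', Real.log_exp]
  have hlogM2 : Real.log M = -κ * (x - 3 * t) + Real.log (G (x - 3 * t)) := by
    rw [← hM2, Real.log_mul (Real.exp_pos _).ne' (h.pos _).ne', Real.log_exp]
  linarith

/-- number of zeros in a thin strip around a segment of the real axis -/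
theorem strip_count (h : LaplaceLike f G L) {H : ℂ → ℂ} (hH : Differentiable ℂ H) {N : ℕ}
    {ρ : Fin N → ℂ} (hfac : ∀ z, f z = (∏ i, (z - ρ i)) * H z) (T : Finset (Fin N))
    {t X : ℝ} (ht : 0 < t)
    (hT1 : ∀ i ∈ T, |(ρ i).re| ≤ X) (hT2 : ∀ i ∈ T, |(ρ i).im| ≤ t / 2) :
    (T.card : ℝ) * Real.log 2 ≤ 9 * t * L := by
  classical
  obtain ⟨K, hK⟩ := exists_nat_gt (2 * X / t + 1)
  let x : ℕ → ℝ := fun j => -X + j * t
  let Tj : ℕ → Finset (Fin N) := fun j => T.filter (fun i => ρ i ∈ closedBall ((x j : ℝ) : ℂ) t)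
  let a : ℕ → ℝ := fun j => Real.log (G (-X + (j - 3) * t))
  have hloc : ∀ j, ((Tj j).card : ℝ) * Real.log 2 ≤ (a (j + 6) + a j) / 2 - a (j + 3) := by
    intro j
    have h1 := local_count h hH hfac (Tj j) (x := x j) ht (by
      intro i hi
      exact (Finset.mem_filter.mp hi).2)
    have e1 : x j + 3 * t = -X + (((j + 6 : ℕ) : ℝ) - 3) * t := by
      simp only [x]; push_cast; ring
    have e2 : x j - 3 * t = -X + ((j : ℝ) - 3) * t := by
      simp only [x]; ring
    have e3 : x j = -X + (((j + 3 : ℕ) : ℝ) - 3) * t := by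
      simp only [x]; push_cast; ring
    rw [e1, e2] at h1
    have h2 : Real.log (G (x j)) = a (j + 3) := by rw [e3]
    rw [h2] at h1
    exact h1
  have hcover : T ⊆ (Finset.range K).biUnion Tj := by
    intro i hi
    rw [Finset.mem_biUnion]
    have h1 := abs_le.mp (hT1 i hi)
    have h2 := hT2 i hi
    -- nearest grid point
    set y : ℝ := ((ρ i).re + X) / t with hy
    have hy0 : 0 ≤ y := div_nonneg (by linarith) ht.le
    have hyK : y < K - 1 := by
      have : y ≤ 2 * X / t := by
        rw [hy]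
        exact div_le_div_of_nonneg_right (by linarith) ht.le
      linarith
    refine ⟨⌊y + 1 / 2⌋₊, ?_, ?_⟩
    · rw [Finset.mem_range, Nat.floor_lt (by linarith)]
      linarith
    · rw [Finset.mem_filter]
      refine ⟨hi, ?_⟩
      set j := ⌊y + 1 / 2⌋₊ with hj
      have hj1 : (j : ℝ) ≤ y + 1 / 2 := Nat.floor_le (by linarith)
      have hj2 : y + 1 / 2 < j + 1 := Nat.lt_floor_add_one _
      have hre : (ρ i).re = -X + y * t := by
        rw [hy]; field_simp; ring
      have hd : |(ρ i).re - x j| ≤ t / 2 := by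
        have : (ρ i).re - x j = (y - j) * t := by
          rw [hre]; simp only [x]; ring
        rw [this, abs_mul, abs_of_pos ht]
        have : |y - j| ≤ 1 / 2 := by rw [abs_le]; constructor <;> linarith
        nlinarith
      rw [mem_closedBall, dist_eq_norm]
      calc ‖ρ i - (x j : ℂ)‖ ≤ |(ρ i - (x j : ℂ)).re| + |(ρ i - (x j : ℂ)).im| :=
            Complex.norm_le_abs_re_add_abs_im _
        _ = |(ρ i).re - x j| + |(ρ i).im| := by simp
        _ ≤ t := by linarith
  have hcard : (T.card : ℝ) ≤ ∑ j ∈ Finset.range K, ((Tj j).card : ℝ) := by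
    have h1 : T.card ≤ ((Finset.range K).biUnion Tj).card := Finset.card_le_card hcover
    have h2 : ((Finset.range K).biUnion Tj).card ≤ ∑ j ∈ Finset.range K, (Tj j).card :=
      Finset.card_biUnion_le
    exact_mod_cast h1.trans h2
  have hlog2 : 0 ≤ Real.log 2 := Real.log_nonneg (by norm_num)
  have hsum : ∑ j ∈ Finset.range K, ((a (j + 6) + a j) / 2 - a (j + 3)) ≤ 9 * t * L := by
    -- telescoping
    have hb : ∀ i j : ℕ, a i - a j ≤ L * (|(i : ℝ) - j| * t) := by
      intro i j
      have := h.log_lip (-X + ((i : ℝ) - 3) * t) (-X + ((j : ℝ) - 3) * t)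
      have e : (-X + ((i : ℝ) - 3) * t) - (-X + ((j : ℝ) - 3) * t) = ((i : ℝ) - j) * t := by ring
      rw [e, abs_mul, abs_of_pos ht] at this
      exact this
    let b : ℕ → ℝ := fun j => a (j + 3) - a j
    have e1 : ∑ j ∈ Finset.range K, ((a (j + 6) + a j) / 2 - a (j + 3)) =
        (1 / 2) * ((∑ j ∈ Finset.range K, (b (j + 1) - b j)) +
          (∑ j ∈ Finset.range K, (b (j + 1 + 1) - b (j + 1))) +
          (∑ j ∈ Finset.range K, (b (j + 1 + 2) - b (j + 2)))) := by
      rw [← Finset.sum_add_distrib, ← Finset.sum_add_distrib, Finset.mul_sum]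
      refine Finset.sum_congr rfl fun j _ => ?_
      simp only [b]
      ring_nf
    rw [e1, Finset.sum_range_sub b, Finset.sum_range_sub (fun j => b (j + 1)),
      Finset.sum_range_sub (fun j => b (j + 2))]
    have h3 : ∀ j, b j ≤ L * (3 * t) := by
      intro j
      have := hb (j + 3) j
      simp only [b]
      have e : |((j + 3 : ℕ) : ℝ) - j| = 3 := by push_cast; norm_num
      rwa [e] at this
    have h4 : ∀ j, -b j ≤ L * (3 * t) := by
      intro j
      have := hb j (j + 3)
      simp only [b]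
      have e : |(j : ℝ) - ((j + 3 : ℕ) : ℝ)| = 3 := by push_cast; norm_num
      rw [e] at this
      linarith
    have := h3 K
    have := h3 (K + 1)
    have := h3 (K + 2)
    have := h4 0
    have := h4 (0 + 1)
    have := h4 (0 + 2)
    linarith
  calc (T.card : ℝ) * Real.log 2 ≤ (∑ j ∈ Finset.range K, ((Tj j).card : ℝ)) * Real.log 2 :=
        mul_le_mul_of_nonneg_right hcard hlog2
    _ = ∑ j ∈ Finset.range K, ((Tj j).card : ℝ) * Real.log 2 := by rw [Finset.sum_mul]
    _ ≤ ∑ j ∈ Finset.range K, ((a (j + 6) + a j) / 2 - a (j + 3)) :=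
        Finset.sum_le_sum fun j _ => hloc j
    _ ≤ 9 * t * L := hsum

end Pool.Agent.Helper509.Strip
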