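import Mathlib
import Pool.Agent.Helper509.Strip

set_option autoImplicit false

open MeasureTheory ProbabilityTheory Set

namespace Pool.Agent.Helper509.Laplace

open Pool.Agent.Helper509.Strip

variable {Ω : Type} [MeasurableSpace Ω] {m : Measure Ω} [IsProbabilityMeasure m] {X : Ω → ℝ} {L : ℝ}

theorem int_exp (hX : AEMeasurable X m) (hL : ∀ᵐ ω ∂m, |X ω| ≤ L) (t : ℝ) :
    Integrable (fun ω => Real.exp (t * X ω)) m := by
  apply integrable_exp_mul_of_mem_Icc (a := -L) (b := L) hX
  filter_upwards [hL] with ω h
  exact abs_le.mp h

theorem laplaceLike_mgf (hX : AEMeasurable X m) (hL : ∀ᵐ ω ∂m, |X ω| ≤ L) :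
    LaplaceLike (complexMGF X m) (mgf X m) L := by
  have hset : integrableExpSet X m = univ := by
    ext t
    simp only [mem_univ, iff_true]
    exact int_exp hX hL t
  refine ⟨?_, ?_, ?_, ?_, ?_, ?_, ?_⟩
  · intro z
    apply (hasDerivAt_complexMGF (X := X) (μ := m) (z := z) _).differentiableAt
    rw [hset, interior_univ]
    exact mem_univ _
  · simp [complexMGF]
  · intro z
    exact norm_complexMGF_le_mgf
  · intro x
    rw [complexMGF_ofReal]
  · intro x
    exact mgf_pos (int_exp hX hL x)
  · intro x y
    unfold mgf
    rw [← integral_const_mul]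
    apply integral_mono_ae (int_exp hX hL x) ((int_exp hX hL y).const_mul _)
    filter_upwards [hL] with ω h
    rw [← Real.exp_add]
    apply Real.exp_le_exp.mpr
    have h1 : (x - y) * X ω ≤ |x - y| * L := by
      calc (x - y) * X ω ≤ |(x - y) * X ω| := le_abs_self _
        _ = |x - y| * |X ω| := abs_mul _ _
        _ ≤ |x - y| * L := mul_le_mul_of_nonneg_left h (abs_nonneg _)
    nlinarith
  · intro κ
    have e : ∀ x, Real.exp (-κ * x) * mgf X m x = ∫ ω, Real.exp (x * (X ω - κ)) ∂m := by
      intro x
      unfold mgf
      rw [← integral_const_mul]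
      congr 1
      ext ω
      rw [← Real.exp_add]
      congr 1
      ring
    have hint : ∀ x, Integrable (fun ω => Real.exp (x * (X ω - κ))) m := by
      intro x
      have := (int_exp hX hL x).const_mul (Real.exp (-κ * x))
      refine this.congr ?_
      filter_upwards with ω
      rw [← Real.exp_add]
      congr 1
      ring
    refine ⟨convex_univ, ?_⟩
    intro x _ y _ a b ha hb hab
    simp only [e, smul_eq_mul]
    rw [← integral_const_mul, ← integral_const_mul, ← integral_add ((hint x).const_mul a) ((hint y).const_mul b)]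
    apply integral_mono (hint _) (((hint x).const_mul a).add ((hint y).const_mul b))
    intro ω
    simp only
    have := convexOn_exp.2 (mem_univ (x * (X ω - κ))) (mem_univ (y * (X ω - κ))) ha hb hab
    simp only [smul_eq_mul] at this
    refine le_trans (le_of_eq ?_) this
    congr 1
    ring

omit [IsProbabilityMeasure m] in
theorem complexMGF_conj (z : ℂ) :
    complexMGF X m ((starRingEnd ℂ) z) = (starRingEnd ℂ) (complexMGF X m z) := by
  unfold complexMGF
  rw [← integral_conj]
  congr 1
  ext ω
  rw [← Complex.exp_conj, map_mul, Complex.conj_ofReal]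

end Pool.Agent.Helper509.Laplace
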