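import Mathlib
import Pool.Agent.Helper509.Factor

set_option autoImplicit false

open Metric Complex

namespace Pool.Agent.Helper509.LogDeriv

open Pool.Agent.Helper509.Factor

theorem norm_prod_sub_le {N : ℕ} {ρ : Fin N → ℂ} {r : ℝ} (hρ : ∀ i, ρ i ∈ closedBall (0 : ℂ) r) :
    ‖∏ i, ((0 : ℂ) - ρ i)‖ ≤ r ^ N := by
  rw [norm_prod]
  calc ∏ i, ‖(0 : ℂ) - ρ i‖ ≤ ∏ _i : Fin N, r := by
        apply Finset.prod_le_prod (fun _ _ => norm_nonneg _)
        intro i _
        have := hρ i
        rw [mem_closedBall, dist_comm, dist_eq_norm] at this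
        exact this
    _ = r ^ N := by simp

/-- bound for the cofactor on the triple ball -/
theorem H_bound {f H : ℂ → ℂ} (hH : Differentiable ℂ H) {N : ℕ} {ρ : Fin N → ℂ} {r M : ℝ}
    (hr : 0 < r) (hfac : ∀ z, f z = (∏ i, (z - ρ i)) * H z)
    (hρ : ∀ i, ρ i ∈ closedBall (0 : ℂ) r) (hM : ∀ z ∈ sphere (0 : ℂ) (3 * r), ‖f z‖ ≤ M) :
    ∀ z ∈ closedBall (0 : ℂ) (3 * r), ‖H z‖ ≤ M / (2 * r) ^ N := by
  have h3r : (0 : ℝ) < 3 * r := by positivity
  have hHs : ∀ z ∈ sphere (0 : ℂ) (3 * r), ‖H z‖ ≤ M / (2 * r) ^ N := by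
    intro z hz
    have hge : ∀ i, 2 * r ≤ ‖z - ρ i‖ := by
      intro i
      have h1 : ‖z‖ = 3 * r := by simpa using hz
      have h2 : ‖ρ i‖ ≤ r := by simpa using hρ i
      have h3 : ‖z‖ ≤ ‖z - ρ i‖ + ‖ρ i‖ := by
        have := norm_add_le (z - ρ i) (ρ i)
        rwa [sub_add_cancel] at this
      linarith
    have hprod : (2 * r) ^ N ≤ ‖∏ i, (z - ρ i)‖ := by
      rw [norm_prod]
      calc (2 * r) ^ N = ∏ _i : Fin N, (2 * r) := by simp
        _ ≤ ∏ i, ‖z - ρ i‖ := Finset.prod_le_prod (fun _ _ => by positivity) (fun i _ => hge i)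
    rw [le_div_iff₀ (by positivity)]
    calc ‖H z‖ * (2 * r) ^ N ≤ ‖H z‖ * ‖∏ i, (z - ρ i)‖ :=
          mul_le_mul_of_nonneg_left hprod (norm_nonneg _)
      _ = ‖f z‖ := by rw [hfac z, norm_mul, mul_comm]
      _ ≤ M := hM z hz
  intro z hz
  apply Complex.norm_le_of_forall_mem_frontier_norm_le (isBounded_ball (x := (0 : ℂ)) (r := 3 * r))
    hH.diffContOnCl
  · intro z hz
    rw [frontier_ball (0 : ℂ) h3r.ne'] at hz
    exact hHs z hz
  · rw [closure_ball (0 : ℂ) h3r.ne']; exact hz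

/-- Structure of the logarithmic derivative of an entire function of exponential type. -/
theorem logDeriv_decomp {f : ℂ → ℂ} (hf : Differentiable ℂ f) {L r : ℝ} (hL : 0 < L) (hr : 0 < r)
    (h0 : f 0 = 1) (hgrowth : ∀ z, ‖f z‖ ≤ Real.exp (L * ‖z‖)) :
    ∃ (N : ℕ) (ρ : Fin N → ℂ) (H A : ℂ → ℂ), Differentiable ℂ H ∧
      (∀ z, f z = (∏ i, (z - ρ i)) * H z) ∧
      (∀ i, ρ i ∈ closedBall (0 : ℂ) r) ∧
      (2 : ℝ) ^ N ≤ Real.exp (3 * r * L) ∧
      DifferentiableOn ℂ A (ball 0 r) ∧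
      (∀ z ∈ ball (0 : ℂ) r, H z ≠ 0) ∧
      (∀ z ∈ ball (0 : ℂ) r, f z ≠ 0 → deriv f z / f z = (∑ i, (z - ρ i)⁻¹) + A z) ∧
      (∀ z ∈ ball (0 : ℂ) (r / 4), ‖A z‖ ≤ 24 * L) ∧
      (∀ z ∈ ball (0 : ℂ) (r / 8), ‖deriv A z‖ ≤ 192 * L / r) := by
  obtain ⟨N, ρ, H, hH, hfac, hρ, hne⟩ := exists_factor hf 0 hr (by rw [h0]; exact one_ne_zero)
  have hM : ∀ z ∈ sphere (0 : ℂ) (3 * r), ‖f z‖ ≤ Real.exp (3 * r * L) := by
    intro z hz
    have h1 : ‖z‖ = 3 * r := by simpa using hz
    calc ‖f z‖ ≤ Real.exp (L * ‖z‖) := hgrowth z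
      _ = Real.exp (3 * r * L) := by rw [h1]; ring_nf
  have hcount := count_bound hH hr hfac hρ hM
  rw [h0, norm_one, mul_one] at hcount
  have hHb := H_bound hH hr hfac hρ hM
  have hne' : ∀ z ∈ ball (0 : ℂ) r, H z ≠ 0 := fun z hz => hne z (ball_subset_closedBall hz)
  set A : ℂ → ℂ := fun z => deriv H z / H z with hA
  have hAdiff : DifferentiableOn ℂ A (ball 0 r) := by
    apply DifferentiableOn.div
    · exact (hH.deriv).differentiableOn
    · exact hH.differentiableOn
    · exact hne'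
  -- primitive
  obtain ⟨g, hg0, hg⟩ := (hAdiff.isExactOn_ball).with_val_at 0 0
  have hH0 : H 0 ≠ 0 := hne' 0 (mem_ball_self hr)
  have hexp : ∀ z ∈ ball (0 : ℂ) r, H z = H 0 * Complex.exp (g z) := by
    intro z hz
    have hconst : ∀ w ∈ ball (0 : ℂ) r, HasDerivAt (fun w => H w * Complex.exp (-g w)) 0 w := by
      intro w hw
      have h1 : HasDerivAt H (deriv H w) w := (hH w).hasDerivAt
      have h2 : HasDerivAt (fun w => Complex.exp (-g w)) (Complex.exp (-g w) * (-(A w))) w :=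
        ((hg w hw).neg).cexp
      have h3 := h1.mul h2
      have e : deriv H w * Complex.exp (-g w) + H w * (Complex.exp (-g w) * (-(A w))) = 0 := by
        rw [hA]
        have := hne' w hw
        field_simp
        ring
      rw [e] at h3
      exact h3
    have hcc : (fun w => H w * Complex.exp (-g w)) z = (fun w => H w * Complex.exp (-g w)) 0 := by
      apply (convex_ball (0 : ℂ) r).is_const_of_fderivWithin_eq_zero (𝕜 := ℂ) _ _ hz (mem_ball_self hr)
      · intro w hw
        exact (hconst w hw).differentiableAt.differentiableWithinAt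
      · intro w hw
        have := (hconst w hw).hasFDerivAt.hasFDerivWithinAt (s := ball 0 r)
        rw [this.fderivWithin (isOpen_ball.uniqueDiffWithinAt hw)]
        ext
        simp
    simp only [hg0, neg_zero, Complex.exp_zero, mul_one] at hcc
    rw [← hcc, mul_assoc, ← Complex.exp_add, neg_add_cancel, Complex.exp_zero, mul_one]
  -- real part bound
  have hre : ∀ z ∈ ball (0 : ℂ) r, (g z).re ≤ 3 * r * L := by
    intro z hz
    have h1 := hexp z hz
    have h2 : ‖H z‖ = ‖H 0‖ * Real.exp (g z).re := by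
      rw [h1, norm_mul, Complex.norm_exp]
    have h3 : ‖H z‖ ≤ Real.exp (3 * r * L) / (2 * r) ^ N := by
      apply hHb
      rw [mem_closedBall]
      have := mem_ball.mp hz
      linarith
    have h4 : 1 ≤ r ^ N * ‖H 0‖ := by
      have e := hfac 0
      rw [h0] at e
      calc (1 : ℝ) = ‖(1 : ℂ)‖ := norm_one.symm
        _ = ‖∏ i, ((0 : ℂ) - ρ i)‖ * ‖H 0‖ := by rw [e, norm_mul]
        _ ≤ r ^ N * ‖H 0‖ := mul_le_mul_of_nonneg_right (norm_prod_sub_le hρ) (norm_nonneg _)
    have h5 : Real.exp (g z).re ≤ Real.exp (3 * r * L) := by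
      have h6 : Real.exp (g z).re ≤ r ^ N * ‖H 0‖ * Real.exp (g z).re :=
        le_mul_of_one_le_left (Real.exp_pos _).le h4
      have h7 : r ^ N * ‖H 0‖ * Real.exp (g z).re = r ^ N * ‖H z‖ := by rw [h2]; ring
      have h8 : r ^ N * ‖H z‖ ≤ r ^ N * (Real.exp (3 * r * L) / (2 * r) ^ N) :=
        mul_le_mul_of_nonneg_left h3 (by positivity)
      have h9 : r ^ N * (Real.exp (3 * r * L) / (2 * r) ^ N) = Real.exp (3 * r * L) / 2 ^ N := by
        rw [mul_pow]; field_simp
      have h10 : Real.exp (3 * r * L) / 2 ^ N ≤ Real.exp (3 * r * L) :=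
        div_le_self (Real.exp_pos _).le (one_le_pow₀ (by norm_num))
      linarith
    exact Real.exp_le_exp.mp h5
  have hgdiff : DifferentiableOn ℂ g (ball 0 r) := fun z hz =>
    (hg z hz).differentiableAt.differentiableWithinAt
  have hgb : ∀ z ∈ ball (0 : ℂ) r, ‖z‖ ≤ r / 2 → ‖g z‖ ≤ 6 * r * L := by
    intro z hz hz2
    have h1 := Complex.borelCaratheodory_zero (M := 3 * r * L) (R := r) (by positivity) hgdiff
      (fun w hw => hre w hw) hr hz hg0
    have h2 : 0 < r - ‖z‖ := by linarith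
    calc ‖g z‖ ≤ 2 * (3 * r * L) * ‖z‖ / (r - ‖z‖) := h1
      _ ≤ 6 * r * L := by
          rw [div_le_iff₀ h2]
          nlinarith [norm_nonneg z, mul_pos hr hL]
  have hderivg : ∀ z ∈ ball (0 : ℂ) r, deriv g z = A z := fun z hz => (hg z hz).deriv
  have hAb : ∀ z ∈ ball (0 : ℂ) (r / 4), ‖A z‖ ≤ 24 * L := by
    intro z hz
    have hz' : ‖z‖ < r / 4 := by simpa using hz
    have hzr : z ∈ ball (0 : ℂ) r := by rw [mem_ball_zero_iff]; linarith
    rw [← hderivg z hzr]
    have hsub : closedBall z (r / 4) ⊆ ball 0 r := by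
      intro w hw
      rw [mem_ball_zero_iff]
      have : ‖w - z‖ ≤ r / 4 := by simpa [dist_eq_norm] using hw
      have h3 := norm_add_le (w - z) z
      rw [sub_add_cancel] at h3
      linarith
    have h1 := Complex.norm_deriv_le_of_forall_mem_sphere_norm_le (c := z) (R := r / 4)
      (C := 6 * r * L) (f := g) (by positivity)
      ((hgdiff.mono hsub).diffContOnCl_ball subset_rfl) ?_
    · calc ‖deriv g z‖ ≤ 6 * r * L / (r / 4) := h1
        _ = 24 * L := by field_simp; ring
    · intro w hw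
      apply hgb w (hsub (sphere_subset_closedBall hw))
      have : ‖w - z‖ = r / 4 := by simpa [dist_eq_norm] using hw
      have h3 := norm_add_le (w - z) z
      rw [sub_add_cancel] at h3
      linarith
  refine ⟨N, ρ, H, A, hH, hfac, hρ, hcount, hAdiff, hne', ?_, hAb, ?_⟩
  · intro z hz hfz
    have hprod : ∏ i, (z - ρ i) ≠ 0 := by
      intro h; apply hfz; rw [hfac z, h, zero_mul]
    have hzi : ∀ i, z - ρ i ≠ 0 := by
      intro i h
      exact hprod (Finset.prod_eq_zero (Finset.mem_univ i) h)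
    have hfe : f = (fun z => ∏ i, (z - ρ i)) * H := by
      ext w; exact hfac w
    have hpd : Differentiable ℂ (fun z => ∏ i, (z - ρ i)) := by
      apply Differentiable.fun_finsetProd
      intro i _
      exact differentiable_id.sub_const _
    have hlog : logDeriv f z = logDeriv (fun z => ∏ i, (z - ρ i)) z + logDeriv H z := by
      rw [hfe]
      exact logDeriv_mul z hprod (hne' z hz) (hpd z) (hH z)
    have hlogp : logDeriv (fun z => ∏ i, (z - ρ i)) z = ∑ i, (z - ρ i)⁻¹ := by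
      rw [logDeriv_prod]
      · refine Finset.sum_congr rfl fun i _ => ?_
        rw [logDeriv_apply]
        simp
      · intro i _; exact hzi i
      · intro i _; exact (differentiable_id.sub_const _) z
    have : deriv f z / f z = logDeriv f z := rfl
    rw [this, hlog, hlogp]
    rfl
  · intro z hz
    have hz' : ‖z‖ < r / 8 := by simpa using hz
    have hsub : closedBall z (r / 8) ⊆ ball 0 (r / 4) := by
      intro w hw
      rw [mem_ball_zero_iff]
      have : ‖w - z‖ ≤ r / 8 := by simpa [dist_eq_norm] using hw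
      have h3 := norm_add_le (w - z) z
      rw [sub_add_cancel] at h3
      linarith
    have hsub2 : closedBall z (r / 8) ⊆ ball 0 r :=
      hsub.trans (ball_subset_ball (by linarith))
    have h1 := Complex.norm_deriv_le_of_forall_mem_sphere_norm_le (c := z) (R := r / 8)
      (C := 24 * L) (f := A) (by positivity)
      ((hAdiff.mono hsub2).diffContOnCl_ball subset_rfl) ?_
    · calc ‖deriv A z‖ ≤ 24 * L / (r / 8) := h1
        _ = 192 * L / r := by field_simp; ring
    · intro w hw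
      exact hAb w (hsub (sphere_subset_closedBall hw))

end Pool.Agent.Helper509.LogDeriv
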