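import Mathlib

set_option autoImplicit false

open Matrix

namespace Pool.Agent.Helper509.SpGen

variable {K : Type} [Field K] {n : Type} [Fintype n] [DecidableEq n]

omit [Fintype n] in
/-- swap two coordinates -/
theorem swap_symm (i j : n) :
    ((Equiv.swap i j).toPEquiv.toMatrix : Matrix n n K)ᵀ = (Equiv.swap i j).toPEquiv.toMatrix := by
  rw [← PEquiv.toMatrix_symm, ← Equiv.toPEquiv_symm, Equiv.symm_swap]

theorem swap_mul_swap (i j : n) :
    ((Equiv.swap i j).toPEquiv.toMatrix : Matrix n n K) * (Equiv.swap i j).toPEquiv.toMatrix = 1 := by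
  rw [← PEquiv.toMatrix_trans, ← Equiv.toPEquiv_trans]
  simp

theorem transvec_swap_symm (i j : n) (hij : i ≠ j) (c : K) :
    (transvection i j c * ((Equiv.swap i j).toPEquiv.toMatrix : Matrix n n K))ᵀ =
      transvection i j c * (Equiv.swap i j).toPEquiv.toMatrix := by
  have h1 : transvection i j c * ((Equiv.swap i j).toPEquiv.toMatrix : Matrix n n K) =
      (Equiv.swap i j).toPEquiv.toMatrix + Matrix.single i i c := by
    rw [transvection, add_mul, one_mul]
    congr 1
    ext a b
    rw [PEquiv.mul_toMatrix_toPEquiv]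
    simp only [Matrix.submatrix_apply, id, Equiv.symm_swap, Matrix.single_apply]
    by_cases hb : b = i
    · subst hb; simp
    · by_cases hb2 : b = j
      · subst hb2; simp [hij, hij.symm]
      · rw [Equiv.swap_apply_of_ne_of_ne hb hb2]
        simp [Ne.symm hb, Ne.symm hb2]
  rw [h1, transpose_add, swap_symm, transpose_single]

variable (P : Matrix (n ⊕ n) (n ⊕ n) K → Prop)

theorem P_weyl (hmul : ∀ g h, P g → P h → P (g * h))
    (hN : ∀ S : Matrix n n K, Sᵀ = S → P (fromBlocks 1 S 0 1))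
    (hNb : ∀ S : Matrix n n K, Sᵀ = S → P (fromBlocks 1 0 S 1))
    (A A' : Matrix n n K) (hA : Aᵀ = A) (hA' : A'ᵀ = A') (h1 : A * A' = 1) :
    P (fromBlocks 0 A (-A') 0) := by
  have h2 : A' * A = 1 := mul_eq_one_comm.mp h1
  have e : fromBlocks 0 A (-A') 0 =
      (fromBlocks 1 A 0 1 : Matrix (n ⊕ n) (n ⊕ n) K) * fromBlocks 1 0 (-A') 1 * fromBlocks 1 A 0 1 := by
    simp [fromBlocks_multiply, h1, h2]
  rw [e]
  exact hmul _ _ (hmul _ _ (hN A hA) (hNb _ (by rw [transpose_neg, hA']))) (hN A hA)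

theorem P_levi_sym (hmul : ∀ g h, P g → P h → P (g * h))
    (hN : ∀ S : Matrix n n K, Sᵀ = S → P (fromBlocks 1 S 0 1))
    (hNb : ∀ S : Matrix n n K, Sᵀ = S → P (fromBlocks 1 0 S 1))
    (A A' B B' : Matrix n n K) (hA : Aᵀ = A) (hA' : A'ᵀ = A') (h1 : A * A' = 1)
    (hB : Bᵀ = B) (hB' : B'ᵀ = B') (h2 : B * B' = 1) :
    P (fromBlocks (A * B') 0 0 (A' * B)) := by
  have e : fromBlocks (A * B') 0 0 (A' * B) =
      (fromBlocks 0 A (-A') 0 : Matrix (n ⊕ n) (n ⊕ n) K) * fromBlocks 0 (-B) (-(-B')) 0 := by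
    simp [fromBlocks_multiply]
  rw [e]
  exact hmul _ _ (P_weyl P hmul hN hNb A A' hA hA' h1)
    (P_weyl P hmul hN hNb (-B) (-B') (by rw [transpose_neg, hB]) (by rw [transpose_neg, hB'])
      (by rw [neg_mul_neg, h2]))

theorem P_levi (hmul : ∀ g h, P g → P h → P (g * h))
    (hN : ∀ S : Matrix n n K, Sᵀ = S → P (fromBlocks 1 S 0 1))
    (hNb : ∀ S : Matrix n n K, Sᵀ = S → P (fromBlocks 1 0 S 1))
    (A A' : Matrix n n K) (h1 : A * A' = 1) :
    P (fromBlocks A 0 0 A'ᵀ) := by
  have hdet : A.det ≠ 0 := by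
    intro h0
    have := congrArg det h1
    rw [det_mul, h0, zero_mul, det_one] at this
    exact zero_ne_one this
  have key := diagonal_transvection_induction_of_det_ne_zero
    (fun A : Matrix n n K => ∀ A', A * A' = 1 → P (fromBlocks A 0 0 A'ᵀ)) A hdet ?_ ?_ ?_
  · exact key A' h1
  · intro D hD A' hDA'
    have hA'sym : A'ᵀ = A' := by
      have e1 : (diagonal D * A')ᵀ = 1 := by rw [hDA', transpose_one]
      rw [transpose_mul, diagonal_transpose] at e1
      have e2 : A' * diagonal D = 1 := mul_eq_one_comm.mp hDA'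
      calc A'ᵀ = A'ᵀ * (diagonal D * A') := by rw [hDA', mul_one]
        _ = (A'ᵀ * diagonal D) * A' := by rw [mul_assoc]
        _ = A' := by rw [e1, one_mul]
    have := P_levi_sym P hmul hN hNb (diagonal D) A' 1 1 (diagonal_transpose D) hA'sym hDA'
      transpose_one transpose_one (mul_one 1)
    simpa [hA'sym] using this
  · intro t A' ht
    obtain ⟨i, j, hij, c⟩ := t
    set W : Matrix n n K := (Equiv.swap i j).toPEquiv.toMatrix with hW
    have hWs : Wᵀ = W := swap_symm i j
    have hWW : W * W = 1 := swap_mul_swap i j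
    have hT : (transvection i j c * W)ᵀ = transvection i j c * W := transvec_swap_symm i j hij c
    have ht' : transvection i j c * A' = 1 := ht
    have hinv : (transvection i j c * W) * (W * A') = 1 := by
      rw [mul_assoc, ← mul_assoc W W, hWW, one_mul, ht']
    have hinvs : (W * A')ᵀ = W * A' := by
      have e1 : ((transvection i j c * W) * (W * A'))ᵀ = 1 := by rw [hinv, transpose_one]
      rw [transpose_mul, hT] at e1
      calc (W * A')ᵀ = (W * A')ᵀ * ((transvection i j c * W) * (W * A')) := by rw [hinv, mul_one]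
        _ = ((W * A')ᵀ * (transvection i j c * W)) * (W * A') := (mul_assoc _ _ _).symm
        _ = W * A' := by rw [e1, one_mul]
    have := P_levi_sym P hmul hN hNb (transvection i j c * W) (W * A') W W hT hinvs hinv hWs hWs hWW
    rw [mul_assoc, hWW, mul_one] at this
    have e2 : W * A' * W = A'ᵀ := by
      rw [← hinvs, transpose_mul, hWs, mul_assoc, hWW, mul_one]
    rw [e2] at this
    exact this
  · intro A B hA hB PA PB AB' hAB
    have hAu : IsUnit A.det := isUnit_iff_ne_zero.mpr hA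
    have hBu : IsUnit B.det := isUnit_iff_ne_zero.mpr hB
    have e1 : AB' = B⁻¹ * A⁻¹ := by
      rw [← Matrix.mul_inv_rev]
      exact (Matrix.inv_eq_right_inv hAB).symm
    have := hmul _ _ (PA A⁻¹ (mul_nonsing_inv A hAu)) (PB B⁻¹ (mul_nonsing_inv B hBu))
    rw [fromBlocks_multiply] at this
    simpa [e1, transpose_mul] using this

theorem P_cell (hmul : ∀ g h, P g → P h → P (g * h))
    (hN : ∀ S : Matrix n n K, Sᵀ = S → P (fromBlocks 1 S 0 1))
    (hNb : ∀ S : Matrix n n K, Sᵀ = S → P (fromBlocks 1 0 S 1))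
    (A B C D A' : Matrix n n K) (h1 : A * A' = 1)
    (hg : (fromBlocks A B C D)ᵀ * J n K * fromBlocks A B C D = J n K) :
    P (fromBlocks A B C D) := by
  have h2 : A' * A = 1 := mul_eq_one_comm.mp h1
  rw [J, fromBlocks_transpose, fromBlocks_multiply, fromBlocks_multiply, fromBlocks_inj] at hg
  obtain ⟨g1, g2, g3, g4⟩ := hg
  simp only [mul_zero, mul_one, zero_add, mul_neg, neg_mul, add_zero] at g1 g2 g3 g4
  have hAC : Cᵀ * A = Aᵀ * C := by
    rw [← sub_eq_zero, sub_eq_add_neg]; exact g1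
  have hAD : Aᵀ * D = 1 + Cᵀ * B := by
    have : Cᵀ * B - Aᵀ * D = -1 := by rw [sub_eq_add_neg]; exact g2
    rw [sub_eq_iff_eq_add] at this
    rw [this]; abel
  have hBD : Dᵀ * B = Bᵀ * D := by
    rw [← sub_eq_zero, sub_eq_add_neg]; exact g4
  have hAt : A'ᵀ * Aᵀ = 1 := by rw [← transpose_mul, h1, transpose_one]
  have hCAs : (C * A')ᵀ = C * A' := by
    calc (C * A')ᵀ = A'ᵀ * Cᵀ * (A * A') := by rw [h1, mul_one, transpose_mul]
      _ = A'ᵀ * (Cᵀ * A) * A' := by simp only [mul_assoc]
      _ = (A'ᵀ * Aᵀ) * C * A' := by rw [hAC]; simp only [mul_assoc]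
      _ = C * A' := by rw [hAt, one_mul]
  have hD : D = A'ᵀ + C * A' * B := by
    calc D = (A'ᵀ * Aᵀ) * D := by rw [hAt, one_mul]
      _ = A'ᵀ * (Aᵀ * D) := by rw [mul_assoc]
      _ = A'ᵀ + (A'ᵀ * Cᵀ) * B := by rw [hAD, mul_add, mul_one, mul_assoc]
      _ = A'ᵀ + C * A' * B := by rw [← transpose_mul, hCAs]
  have hABs : (A' * B)ᵀ = A' * B := by
    have e1 : Dᵀ * B = A' * B + Bᵀ * (C * A') * B := by
      rw [hD, transpose_add, transpose_transpose, add_mul, transpose_mul (C * A') B, hCAs]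
    have e2 : Bᵀ * D = Bᵀ * A'ᵀ + Bᵀ * (C * A') * B := by
      rw [hD, mul_add]; simp only [mul_assoc]
    rw [e1, e2] at hBD
    rw [transpose_mul]
    exact (add_right_cancel hBD).symm
  have e : fromBlocks A B C D =
      fromBlocks 1 0 (C * A') 1 * fromBlocks A 0 0 A'ᵀ * fromBlocks 1 (A' * B) 0 1 := by
    rw [fromBlocks_multiply, fromBlocks_multiply]
    simp only [mul_zero, mul_one, zero_add, add_zero, zero_mul, one_mul]
    rw [← mul_assoc A A' B, h1, one_mul, mul_assoc C A' A, h2, mul_one, ← mul_assoc C A' B, add_comm (C * A' * B), ← hD]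
  rw [e]
  exact hmul _ _ (hmul _ _ (hNb _ hCAs) (P_levi P hmul hN hNb A A' h1)) (hN _ hABs)

theorem det_list_transvec_ne_zero (L : List (TransvectionStruct n K)) :
    ((L.map TransvectionStruct.toMatrix).prod).det ≠ 0 := by
  rw [TransvectionStruct.det_toMatrix_prod]
  exact one_ne_zero

/-- there is a symmetric `S` with `A + B S` invertible -/
theorem exists_sym (A B : Matrix n n K) (hsym : A * Bᵀ = B * Aᵀ)
    (hinj : ∀ x : n → K, x ᵥ* A = 0 → x ᵥ* B = 0 → x = 0) :
    ∃ S : Matrix n n K, Sᵀ = S ∧ (A + B * S).det ≠ 0 := by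
  obtain ⟨L, L', D, hB⟩ := Pivot.exists_list_transvec_mul_diagonal_mul_list_transvec B
  set U := (L.map TransvectionStruct.toMatrix).prod with hU
  set Q := (L'.map TransvectionStruct.toMatrix).prod with hQ
  have hUdet : IsUnit U.det := isUnit_iff_ne_zero.mpr (det_list_transvec_ne_zero L)
  have hQdet : IsUnit Q.det := isUnit_iff_ne_zero.mpr (det_list_transvec_ne_zero L')
  have hUi : U⁻¹ * U = 1 := nonsing_inv_mul U hUdet
  have hUi' : U * U⁻¹ = 1 := mul_nonsing_inv U hUdet
  have hQi : Q⁻¹ * Q = 1 := nonsing_inv_mul Q hQdet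
  have hQi' : Q * Q⁻¹ = 1 := mul_nonsing_inv Q hQdet
  have hQt : Qᵀ * (Q⁻¹)ᵀ = 1 := by rw [← transpose_mul, hQi, transpose_one]
  have hUt : Uᵀ * (U⁻¹)ᵀ = 1 := by rw [← transpose_mul, hUi, transpose_one]
  set A1 := U⁻¹ * A * Qᵀ with hA1
  -- A1 * diagonal D is symmetric
  have hs1 : A1 * diagonal D = diagonal D * A1ᵀ := by
    have e1 : A1 * diagonal D = U⁻¹ * (A * Bᵀ) * (U⁻¹)ᵀ := by
      rw [hA1, hB]
      simp only [transpose_mul, diagonal_transpose]
      simp only [mul_assoc]
      rw [hUt]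
      simp
    have e2 : diagonal D * A1ᵀ = U⁻¹ * (B * Aᵀ) * (U⁻¹)ᵀ := by
      rw [hA1, hB]
      simp only [transpose_mul, transpose_transpose]
      simp only [← mul_assoc]
      rw [hUi]
      simp
    rw [e1, e2, hsym]
  have hs2 : ∀ i j, A1 i j * D j = D i * A1 j i := by
    intro i j
    have := congrFun (congrFun hs1 i) j
    rw [mul_diagonal, diagonal_mul, transpose_apply] at this
    exact this
  classical
  set S1 : Matrix n n K := Matrix.of fun i j =>
    if D i = 0 ∨ D j = 0 then 0 else (if i = j then 1 else 0) / D i - A1 i j / D i with hS1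
  have hS1s : S1ᵀ = S1 := by
    ext i j
    simp only [hS1, transpose_apply, of_apply]
    by_cases hi : D i = 0
    · simp [hi]
    · by_cases hj : D j = 0
      · simp [hj]
      · simp only [hi, hj, or_self, if_false]
        have e1 : A1 j i / D j = A1 i j / D i := by
          rw [div_eq_div_iff hj hi]
          have := hs2 j i
          rw [this]; ring
        rw [e1]
        by_cases hij : i = j
        · subst hij; simp
        · rw [if_neg hij, if_neg (Ne.symm hij)]; simp
  have hdet1 : (A1 + diagonal D * S1).det ≠ 0 := by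
    intro h0
    rw [← exists_vecMul_eq_zero_iff] at h0
    obtain ⟨x, hx, hx0⟩ := h0
    have hent : ∀ i j, (A1 + diagonal D * S1) i j =
        if D i = 0 then A1 i j else if D j = 0 then A1 i j else (if i = j then 1 else 0) := by
      intro i j
      rw [Matrix.add_apply, diagonal_mul, hS1, of_apply]
      by_cases hi : D i = 0
      · simp [hi]
      · by_cases hj : D j = 0
        · simp [hi, hj]
        · simp only [hi, hj, or_self, if_false]
          field_simp
          ring
    have hcol : ∀ j, ∑ i, x i * (A1 + diagonal D * S1) i j = 0 := by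
      intro j
      have := congrFun hx0 j
      simpa [vecMul, dotProduct] using this
    -- x vanishes where D ≠ 0
    have hxz : ∀ j, D j ≠ 0 → x j = 0 := by
      intro j hj
      have h := hcol j
      have : ∑ i, x i * (A1 + diagonal D * S1) i j = x j := by
        rw [Finset.sum_eq_single j]
        · rw [hent, if_neg hj, if_neg hj, if_pos rfl, mul_one]
        · intro i _ hij
          rw [hent]
          by_cases hi : D i = 0
          · rw [if_pos hi]
            have := hs2 i j
            rw [hi, zero_mul] at this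
            rcases mul_eq_zero.mp this with h' | h'
            · rw [h', mul_zero]
            · exact absurd h' hj
          · rw [if_neg hi, if_neg hj, if_neg hij, mul_zero]
        · intro h'; exact absurd (Finset.mem_univ j) h'
      rw [this] at h
      exact h
    have hxA : x ᵥ* A1 = 0 := by
      ext j
      have h := hcol j
      have : ∑ i, x i * (A1 + diagonal D * S1) i j = ∑ i, x i * A1 i j := by
        refine Finset.sum_congr rfl fun i _ => ?_
        by_cases hi : D i = 0
        · rw [hent, if_pos hi]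
        · rw [hxz i hi, zero_mul, zero_mul]
      rw [this] at h
      simpa [vecMul, dotProduct] using h
    have hxD : x ᵥ* diagonal D = 0 := by
      ext j
      rw [vecMul_diagonal]
      by_cases hj : D j = 0
      · rw [hj, mul_zero]; rfl
      · rw [hxz j hj, zero_mul]; rfl
    apply hx
    have hy := hinj (x ᵥ* U⁻¹) ?_ ?_
    · have : (x ᵥ* U⁻¹) ᵥ* U = x := by rw [vecMul_vecMul, hUi, vecMul_one]
      rw [← this, hy, zero_vecMul]
    · have e1 : A = U * A1 * (Q⁻¹)ᵀ := by
        rw [hA1]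
        simp only [← mul_assoc]
        rw [hUi', one_mul, mul_assoc, hQt, mul_one]
      rw [e1, vecMul_vecMul, ← mul_assoc, ← mul_assoc, hUi, one_mul, ← vecMul_vecMul, hxA, zero_vecMul]
    · rw [hB, vecMul_vecMul, ← mul_assoc, ← mul_assoc, hUi, one_mul, ← vecMul_vecMul, hxD, zero_vecMul]
  refine ⟨Q⁻¹ * S1 * (Q⁻¹)ᵀ, ?_, ?_⟩
  · rw [transpose_mul, transpose_mul, transpose_transpose, hS1s, mul_assoc]
  · have e : A + B * (Q⁻¹ * S1 * (Q⁻¹)ᵀ) = U * (A1 + diagonal D * S1) * (Q⁻¹)ᵀ := by
      rw [mul_add, add_mul]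
      congr 1
      · rw [hA1]
        simp only [← mul_assoc]
        rw [hUi', one_mul, mul_assoc, hQt, mul_one]
      · rw [hB]
        simp only [mul_assoc]
        rw [← mul_assoc Q Q⁻¹, hQi', one_mul]
    rw [e, det_mul, det_mul, det_transpose]
    refine mul_ne_zero (mul_ne_zero hUdet.ne_zero hdet1) ?_
    intro h0
    have := congrArg det hQi'
    rw [det_mul, h0, mul_zero, det_one] at this
    exact zero_ne_one this

theorem P_all (hmul : ∀ g h, P g → P h → P (g * h))
    (hN : ∀ S : Matrix n n K, Sᵀ = S → P (fromBlocks 1 S 0 1))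
    (hNb : ∀ S : Matrix n n K, Sᵀ = S → P (fromBlocks 1 0 S 1))
    (g : Matrix (n ⊕ n) (n ⊕ n) K) (hg : gᵀ * J n K * g = J n K) : P g := by
  obtain ⟨A, B, C, D, rfl⟩ : ∃ A B C D, g = fromBlocks A B C D :=
    ⟨g.toBlocks₁₁, g.toBlocks₁₂, g.toBlocks₂₁, g.toBlocks₂₂, (fromBlocks_toBlocks g).symm⟩
  set g := fromBlocks A B C D with hgdef
  -- right inverse
  have hJJ : J n K * J n K = -1 := J_squared n K
  have hleft : (-(J n K)) * gᵀ * J n K * g = 1 := by
    have : (-(J n K)) * (gᵀ * J n K * g) = 1 := by rw [hg, neg_mul, hJJ, neg_neg]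
    simpa only [mul_assoc] using this
  have hright : g * ((-(J n K)) * gᵀ * J n K) = 1 := mul_eq_one_comm.mp hleft
  have hgJ : g * J n K * gᵀ = J n K := by
    have h1 : g * ((-(J n K)) * gᵀ * J n K) * J n K = J n K := by rw [hright, one_mul]
    have h2 : g * ((-(J n K)) * gᵀ * J n K) * J n K = g * J n K * gᵀ := by
      have : g * ((-(J n K)) * gᵀ * J n K) * J n K = g * ((-(J n K)) * gᵀ * (J n K * J n K)) := by
        simp only [mul_assoc]
      rw [this, hJJ]
      simp [mul_assoc]
    rw [← h2, h1]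
  have hABsym : A * Bᵀ = B * Aᵀ := by
    rw [hgdef, J, fromBlocks_transpose, fromBlocks_multiply, fromBlocks_multiply, fromBlocks_inj] at hgJ
    obtain ⟨g1, _, _, _⟩ := hgJ
    simp only [mul_zero, mul_one, zero_add, mul_neg, neg_mul, add_zero] at g1
    have : B * Aᵀ - A * Bᵀ = 0 := by rw [sub_eq_add_neg]; exact g1
    exact (sub_eq_zero.mp this).symm
  have hinj : ∀ x : n → K, x ᵥ* A = 0 → x ᵥ* B = 0 → x = 0 := by
    intro x hxA hxB
    have h1 : (Sum.elim x 0 : n ⊕ n → K) ᵥ* g = 0 := by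
      rw [hgdef, vecMul_fromBlocks]
      ext i
      rcases i with i | i
      · simp [hxA]
      · simp [hxB]
    have h2 : (Sum.elim x 0 : n ⊕ n → K) = 0 := by
      have : (Sum.elim x 0 : n ⊕ n → K) ᵥ* (g * ((-(J n K)) * gᵀ * J n K)) = Sum.elim x 0 := by
        rw [hright, vecMul_one]
      rw [← this, ← vecMul_vecMul, h1, zero_vecMul]
    ext i
    exact congrFun h2 (Sum.inl i)
  obtain ⟨S, hS, hdet⟩ := exists_sym A B hABsym hinj
  have hSu : IsUnit (A + B * S).det := isUnit_iff_ne_zero.mpr hdet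
  have hmS : g * fromBlocks 1 0 S 1 = fromBlocks (A + B * S) B (C + D * S) D := by
    rw [hgdef, fromBlocks_multiply]
    simp
  have hSp : (g * fromBlocks 1 0 S 1)ᵀ * J n K * (g * fromBlocks 1 0 S 1) = J n K := by
    have hS' : (fromBlocks 1 0 S 1 : Matrix (n ⊕ n) (n ⊕ n) K)ᵀ * J n K * fromBlocks 1 0 S 1 = J n K := by
      rw [J, fromBlocks_transpose, fromBlocks_multiply, fromBlocks_multiply]
      simp [hS]
    have : (g * fromBlocks 1 0 S 1)ᵀ * J n K * (g * fromBlocks 1 0 S 1) =
        (fromBlocks 1 0 S 1 : Matrix (n ⊕ n) (n ⊕ n) K)ᵀ * (gᵀ * J n K * g) * fromBlocks 1 0 S 1 := by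
      rw [transpose_mul]
      simp only [mul_assoc]
    rw [this, hg, hS']
  rw [hmS] at hSp
  have hP1 := P_cell P hmul hN hNb _ _ _ _ _ (mul_nonsing_inv _ hSu) hSp
  rw [← hmS] at hP1
  have hfin : g = (g * fromBlocks 1 0 S 1) * fromBlocks 1 0 (-S) 1 := by
    rw [mul_assoc, fromBlocks_multiply]
    simp
  rw [hfin]
  exact hmul _ _ hP1 (hNb _ (by rw [transpose_neg, hS]))

end Pool.Agent.Helper509.SpGen
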