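import Mathlib
import Pool.Agent.Helper509.SphDefs
import Pool.Agent.Helper509.Laplace
import Pool.Agent.Helper509.Seq

set_option autoImplicit false

open MeasureTheory Filter Topology Matrix ProbabilityTheory

namespace Pool.Agent.Helper509.SphRed

open Pool.Agent.Helper509.SphDefs Pool.Agent.Helper509.Laplace Pool.Agent.Helper509.Seq

instance (n : ℕ) : IsProbabilityMeasure (haarU n) := by
  refine ⟨?_⟩
  have := Measure.haarMeasure_self (K₀ := (⊤ : TopologicalSpace.PositiveCompacts (unitaryGroup (Fin n) ℂ)))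
  simpa [haarU] using this

/-- The real random variable `(U* E U)_{00}`. -/
noncomputable def Y (n : ℕ) (E : Matrix (Fin n) (Fin n) ℂ) (U : unitaryGroup (Fin n) ℂ) : ℝ :=
  ∑ i : Fin n, if (i : ℕ) = 0 then ((star (U : Matrix (Fin n) (Fin n) ℂ) * E * (U : Matrix (Fin n) (Fin n) ℂ)) i i).re else 0

theorem diag_real {n : ℕ} {E : Matrix (Fin n) (Fin n) ℂ} (hE : E.IsHermitian)
    (U : unitaryGroup (Fin n) ℂ) (i : Fin n) :
    ((((star (U : Matrix (Fin n) (Fin n) ℂ) * E * (U : Matrix (Fin n) (Fin n) ℂ)) i i).re : ℝ) : ℂ) =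
      (star (U : Matrix (Fin n) (Fin n) ℂ) * E * (U : Matrix (Fin n) (Fin n) ℂ)) i i := by
  have hM : (star (U : Matrix (Fin n) (Fin n) ℂ) * E * (U : Matrix (Fin n) (Fin n) ℂ)).IsHermitian := by
    unfold Matrix.IsHermitian
    rw [conjTranspose_mul, conjTranspose_mul, star_eq_conjTranspose, conjTranspose_conjTranspose,
      hE.eq, mul_assoc]
  exact hM.coe_re_apply_self i

theorem trace_eq {n : ℕ} {E : Matrix (Fin n) (Fin n) ℂ} (hE : E.IsHermitian)
    (U : unitaryGroup (Fin n) ℂ) (z : ℂ) :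
    Matrix.trace ((U : Matrix (Fin n) (Fin n) ℂ) * rankOne n z *
      star (U : Matrix (Fin n) (Fin n) ℂ) * E) = z * (Y n E U : ℂ) := by
  have h1 : Matrix.trace ((U : Matrix (Fin n) (Fin n) ℂ) * rankOne n z *
      star (U : Matrix (Fin n) (Fin n) ℂ) * E) =
      Matrix.trace (rankOne n z * (star (U : Matrix (Fin n) (Fin n) ℂ) * E * (U : Matrix (Fin n) (Fin n) ℂ))) := by
    rw [mul_assoc, mul_assoc, trace_mul_comm]
    congr 1
    simp only [mul_assoc]
  rw [h1, rankOne, trace]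
  simp only [diag_apply, diagonal_mul]
  unfold Y
  push_cast
  rw [Finset.mul_sum]
  refine Finset.sum_congr rfl fun i _ => ?_
  by_cases hi : (i : ℕ) = 0
  · rw [if_pos hi, if_pos hi, diag_real hE]
  · rw [if_neg hi, if_neg hi]
    simp

theorem sphInt_eq {n : ℕ} {E : Matrix (Fin n) (Fin n) ℂ} (hE : E.IsHermitian) :
    sphInt n E = complexMGF (fun U => (n : ℝ) * Y n E U) (haarU n) := by
  ext z
  unfold sphInt complexMGF
  congr 1
  ext U
  rw [trace_eq hE]
  push_cast
  ring_nf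

theorem diag_bound {n : ℕ} {E : Matrix (Fin n) (Fin n) ℂ} (hE : E.IsHermitian) {C : ℝ}
    (hC : ∀ i, |hE.eigenvalues i| ≤ C) (U : unitaryGroup (Fin n) ℂ) (i : Fin n) :
    |((star (U : Matrix (Fin n) (Fin n) ℂ) * E * (U : Matrix (Fin n) (Fin n) ℂ)) i i).re| ≤ C := by
  set V := hE.eigenvectorUnitary with hV
  set W : unitaryGroup (Fin n) ℂ := (star V) * U with hW
  have hC0 : 0 ≤ C := (abs_nonneg _).trans (hC i)
  have h1 : star (U : Matrix (Fin n) (Fin n) ℂ) * E * (U : Matrix (Fin n) (Fin n) ℂ) =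
      star (W : Matrix (Fin n) (Fin n) ℂ) * diagonal (RCLike.ofReal ∘ hE.eigenvalues) *
        (W : Matrix (Fin n) (Fin n) ℂ) := by
    have hs := hE.spectral_theorem
    rw [Unitary.conjStarAlgAut_apply] at hs
    conv_lhs => rw [hs]
    rw [hW]
    simp only [Submonoid.coe_mul, Unitary.coe_star, star_mul, star_star, mul_assoc, hV]
  have hunit : ∑ j, ‖(W : Matrix (Fin n) (Fin n) ℂ) j i‖ ^ 2 = 1 := by
    have h2 : (star (W : Matrix (Fin n) (Fin n) ℂ) * (W : Matrix (Fin n) (Fin n) ℂ)) i i = 1 := by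
      rw [Unitary.coe_star_mul_self]
      simp
    rw [mul_apply] at h2
    have h3 : ∀ j, (star (W : Matrix (Fin n) (Fin n) ℂ)) i j * (W : Matrix (Fin n) (Fin n) ℂ) j i =
        ((‖(W : Matrix (Fin n) (Fin n) ℂ) j i‖ ^ 2 : ℝ) : ℂ) := by
      intro j
      rw [star_apply, Complex.ofReal_pow]
      exact Complex.conj_mul' _
    simp only [h3] at h2
    exact_mod_cast h2
  have h4 : ((star (W : Matrix (Fin n) (Fin n) ℂ) *
        (diagonal (RCLike.ofReal ∘ hE.eigenvalues) : Matrix (Fin n) (Fin n) ℂ) *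
        (W : Matrix (Fin n) (Fin n) ℂ) : Matrix (Fin n) (Fin n) ℂ) i i) =
        ((∑ j, hE.eigenvalues j * ‖(W : Matrix (Fin n) (Fin n) ℂ) j i‖ ^ 2 : ℝ) : ℂ) := by
    rw [mul_apply]
    push_cast
    refine Finset.sum_congr rfl fun j _ => ?_
    rw [mul_diagonal, star_apply]
    have := Complex.conj_mul' ((W : Matrix (Fin n) (Fin n) ℂ) j i)
    simp only [Function.comp_apply]
    calc star ((W : Matrix (Fin n) (Fin n) ℂ) j i) * (hE.eigenvalues j : ℂ) * (W : Matrix (Fin n) (Fin n) ℂ) j i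
        = (hE.eigenvalues j : ℂ) * (star ((W : Matrix (Fin n) (Fin n) ℂ) j i) * (W : Matrix (Fin n) (Fin n) ℂ) j i) := by ring
      _ = (hE.eigenvalues j : ℂ) * (‖(W : Matrix (Fin n) (Fin n) ℂ) j i‖ : ℂ) ^ 2 := by
          rw [← this]; rfl
  rw [h1, h4, Complex.ofReal_re]
  calc |∑ j, hE.eigenvalues j * ‖(W : Matrix (Fin n) (Fin n) ℂ) j i‖ ^ 2|
      ≤ ∑ j, |hE.eigenvalues j * ‖(W : Matrix (Fin n) (Fin n) ℂ) j i‖ ^ 2| := Finset.abs_sum_le_sum_abs _ _
    _ ≤ ∑ j, C * ‖(W : Matrix (Fin n) (Fin n) ℂ) j i‖ ^ 2 := by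
        apply Finset.sum_le_sum
        intro j _
        rw [abs_mul, abs_of_nonneg (sq_nonneg ‖(W : Matrix (Fin n) (Fin n) ℂ) j i‖)]
        exact mul_le_mul_of_nonneg_right (hC j) (sq_nonneg _)
    _ = C := by rw [← Finset.mul_sum, hunit, mul_one]

theorem Y_bound {n : ℕ} {E : Matrix (Fin (n + 1)) (Fin (n + 1)) ℂ} (hE : E.IsHermitian) {C : ℝ}
    (hC : ∀ i, |hE.eigenvalues i| ≤ C) (U : unitaryGroup (Fin (n + 1)) ℂ) :
    |Y (n + 1) E U| ≤ C := by
  have : Y (n + 1) E U = ((star (U : Matrix (Fin (n + 1)) (Fin (n + 1)) ℂ) * E *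
      (U : Matrix (Fin (n + 1)) (Fin (n + 1)) ℂ) : Matrix (Fin (n + 1)) (Fin (n + 1)) ℂ) 0 0).re := by
    unfold Y
    rw [Finset.sum_eq_single 0]
    · simp
    · intro b _ hb
      rw [if_neg]
      intro h
      exact hb (Fin.ext h)
    · intro h; exact absurd (Finset.mem_univ _) h
  rw [this]
  exact diag_bound hE hC U 0

theorem Y_meas (n : ℕ) (E : Matrix (Fin n) (Fin n) ℂ) : Measurable (Y n E) := by
  apply Continuous.measurable
  unfold Y
  apply continuous_finsetSum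
  intro i _
  by_cases hi : (i : ℕ) = 0
  · simp only [hi, if_true]
    apply Complex.continuous_re.comp
    have h1 : Continuous (fun U : unitaryGroup (Fin n) ℂ => (U : Matrix (Fin n) (Fin n) ℂ)) :=
      continuous_subtype_val
    have h2 : Continuous (fun U : unitaryGroup (Fin n) ℂ =>
        star (U : Matrix (Fin n) (Fin n) ℂ) * E * (U : Matrix (Fin n) (Fin n) ℂ)) :=
      ((continuous_star.comp h1).mul continuous_const).mul h1
    exact (continuous_apply_apply i i).comp h2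
  · simp only [hi, if_false]
    exact continuous_const

/-- If the `f_n` converge almost everywhere on the upper half-plane to a function analytic there,
then the limit has zero derivative. -/
theorem deriv_zero_of_tendsto (E : ∀ n : ℕ, Matrix (Fin n) (Fin n) ℂ) (hE : ∀ n, (E n).IsHermitian)
    {C : ℝ} (hC : ∀ n i, |(hE n).eigenvalues i| ≤ C)
    {R : ℂ → ℂ} (hR : DifferentiableOn ℂ R {z : ℂ | 0 < z.im})
    (hlim : ∀ᵐ z : ℂ, 0 < z.im → Tendsto (fun n => fn n (E n) z) atTop (𝓝 (R z)))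
    {z0 : ℂ} (hz0 : 0 < z0.im) : deriv R z0 = 0 := by
  set C' : ℝ := max C 1 with hC'
  have hC'0 : 0 < C' := lt_of_lt_of_le one_pos (le_max_right _ _)
  let F : ℕ → ℂ → ℂ := fun n => sphInt (n + 1) (E (n + 1))
  let G : ℕ → ℝ → ℝ := fun n => mgf (fun U => ((n + 1 : ℕ) : ℝ) * Y (n + 1) (E (n + 1)) U) (haarU (n + 1))
  have hF : ∀ n, F n = complexMGF (fun U => ((n + 1 : ℕ) : ℝ) * Y (n + 1) (E (n + 1)) U) (haarU (n + 1)) :=
    fun n => sphInt_eq (hE (n + 1))
  have hLL : ∀ n : ℕ, Pool.Agent.Helper509.Strip.LaplaceLike (F n) (G n) (C' * (n + 1)) := by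
    intro n
    rw [hF n]
    apply laplaceLike_mgf
    · exact ((Y_meas (n + 1) (E (n + 1))).const_mul _).aemeasurable
    · filter_upwards with U
      rw [abs_mul, Nat.abs_cast]
      push_cast
      have h1 := Y_bound (hE (n + 1)) (hC (n + 1)) U
      have h2 : |Y (n + 1) (E (n + 1)) U| ≤ C' := h1.trans (le_max_left _ _)
      calc ((n : ℝ) + 1) * |Y (n + 1) (E (n + 1)) U| ≤ ((n : ℝ) + 1) * C' :=
            mul_le_mul_of_nonneg_left h2 (by positivity)
        _ = C' * ((n : ℝ) + 1) := mul_comm _ _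
  have hconj : ∀ n z, F n ((starRingEnd ℂ) z) = (starRingEnd ℂ) (F n z) := by
    intro n z
    rw [hF n]
    exact complexMGF_conj z
  apply deriv_eq_zero hC'0 hLL hconj (R := R) _ _ hz0
  · intro z hz
    exact hR.differentiableAt ((isOpen_lt continuous_const Complex.continuous_im).mem_nhds hz)
  · filter_upwards [hlim] with z hlz hz
    have h1 := (hlz hz).comp (tendsto_add_atTop_nat 1)
    refine h1.congr fun n => ?_
    simp only [Function.comp_apply, fn, nld, F]
    push_cast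
    rfl

end Pool.Agent.Helper509.SphRed
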